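import Mathlib

/-! # Hamiltonian cycles in Cartesian products: definitions

Notation of the board: `ins T Sᶜ` is the graph `T` avoiding `S`; its components are the components of `T - S`. -/

set_option autoImplicit false

namespace Pool.Agent.LibHP88

open scoped Classical

/-- every vertex has exactly two neighbours -/
def Two {X : Type*} (R : SimpleGraph X) : Prop := ∀ x, (R.neighborSet x).ncard = 2

/-- the number of neighbours -/
noncomputable def dg {X : Type*} (G : SimpleGraph X) (x : X) : ℕ := (G.neighborSet x).ncard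

/-- regular of degree `d` -/
def Reg {X : Type*} (G : SimpleGraph X) (d : ℕ) : Prop := ∀ x, dg G x = d

/-- the edges of `G` with both ends in `K` -/
def ins {X : Type*} (G : SimpleGraph X) (K : Set X) : SimpleGraph X where
  Adj x y := G.Adj x y ∧ x ∈ K ∧ y ∈ K
  symm := ⟨fun _ _ h => ⟨h.1.symm, h.2.2, h.2.1⟩⟩
  loopless := ⟨fun _ h => h.1.ne rfl⟩

/-- the edges of `G` not having both ends in `K` -/
def off {X : Type*} (G : SimpleGraph X) (K : Set X) : SimpleGraph X where
  Adj x y := G.Adj x y ∧ ¬ (x ∈ K ∧ y ∈ K)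
  symm := ⟨fun _ _ h => ⟨h.1.symm, fun h' => h.2 ⟨h'.2, h'.1⟩⟩⟩
  loopless := ⟨fun _ h => h.1.ne rfl⟩

/-- 1-tough: at most `|S|` pairwise disjoint nonempty sets have all their outer neighbours in the nonempty set `S` -/
def Tough {V : Type*} (G : SimpleGraph V) : Prop :=
  ∀ (S : Finset V) (C : Finset (Finset V)), S.Nonempty →
    (∀ A ∈ C, A.Nonempty ∧ Disjoint A S ∧ ∀ x ∈ A, ∀ y, G.Adj x y → y ∈ A ∨ y ∈ S) →
    (∀ A ∈ C, ∀ B ∈ C, A ≠ B → Disjoint A B) → C.card ≤ S.card

/-! ## Rooted trees -/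

/-- the children of `x` -/
def ch {U : Type*} (ρ : U) (p : U → U) (x : U) : Set U := {y | y ≠ ρ ∧ p y = x}

/-- a rooted spanning tree of `G`, given by the parent function `p` and a function `dep` decreasing towards the root -/
structure Rooted {U : Type*} (G : SimpleGraph U) (ρ : U) (p : U → U) (dep : U → ℕ) : Prop where
  adj : ∀ v, v ≠ ρ → G.Adj v (p v)
  lt : ∀ v, v ≠ ρ → dep (p v) < dep v

/-- a rooted spanning tree with at most three children at the root and at most two elsewhere -/
structure Tree3 {U : Type*} (G : SimpleGraph U) (ρ : U) (p : U → U) (dep : U → ℕ) : Prop extends Rooted G ρ p dep where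
  root : (ch ρ p ρ).ncard ≤ 3
  inner : ∀ x, x ≠ ρ → (ch ρ p x).ncard ≤ 2

/-! ## Plumbing -/

/-- one switch: the edges `ab`, `cd` are replaced by `ac`, `bd` -/
def sw {X : Type*} (R : SimpleGraph X) (a b c d : X) : SimpleGraph X :=
  SimpleGraph.fromEdgeSet ((R.edgeSet \ {s(a, b), s(c, d)}) ∪ {s(a, c), s(b, d)})

/-- a family of switches: for `i ∈ s` the edges `a i, b i` and `c i, d i` are replaced by `a i, c i` and `b i, d i` -/
def plumb {X ι : Type*} (R : SimpleGraph X) (s : Set ι) (a b c d : ι → X) : SimpleGraph X :=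
  SimpleGraph.fromEdgeSet ((R.edgeSet \ {e | ∃ i ∈ s, e = s(a i, b i) ∨ e = s(c i, d i)}) ∪
    {e | ∃ i ∈ s, e = s(a i, c i) ∨ e = s(b i, d i)})

/-- `R` together with the edges `a i, c i` -/
def link {X ι : Type*} (R : SimpleGraph X) (s : Set ι) (a c : ι → X) : SimpleGraph X :=
  R ⊔ SimpleGraph.fromEdgeSet {e | ∃ i ∈ s, e = s(a i, c i)}

/-- the copies `{h} × (cycles of σ)` -/
def base {U V : Type*} (σ : Equiv.Perm V) : SimpleGraph (U × V) :=
  SimpleGraph.fromRel (fun x y => x.1 = y.1 ∧ y.2 = σ x.2)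

/-- the descendants of `y` (with `y`) -/
def desc {U : Type*} (ρ : U) (p : U → U) (y : U) : Set U :=
  {h | Relation.ReflTransGen (fun a b => a ≠ ρ ∧ p a = b) h y}

/-! ## Data of the construction -/

/-- the data of the first stage: `σ` a permutation along edges of `G` without 2-cycles, `o` its orbit map onto `I`,
`p` a rooted tree of `H`, `c w` a proper colouring of the edges of the tree by the edges of the cycle `w`
(the colour `c w y` of the edge from `y` to `p y` is the edge from `c w y` to `σ (c w y)`) -/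
structure Data1 {U V I : Type*} (H : SimpleGraph U) (G : SimpleGraph V) (σ : Equiv.Perm V) (o : V → I)
    (ρ : U) (p : U → U) (dep : U → ℕ) (c : I → U → V) : Prop extends Rooted H ρ p dep where
  hσ : ∀ v, G.Adj v (σ v)
  h2 : ∀ v, σ (σ v) ≠ v
  ho : ∀ v v', o v = o v' ↔ σ.SameCycle v v'
  hc : ∀ w y, o (c w y) = w
  par : ∀ w y, y ≠ ρ → p y ≠ ρ → c w y ≠ c w (p y)
  sib : ∀ w y y', y ≠ ρ → y' ≠ ρ → p y = p y' → y ≠ y' → c w y ≠ c w y'

/-- the data of the second stage: a rooted tree `P` on the cycles, for every `w ≠ ω` an edge of `G` from `l w` in `w`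
to `r w` in `P w`, and a vertex `y w` of `H` whose tree edge is used for the merge -/
structure Data2 {U V I : Type*} (H : SimpleGraph U) (G : SimpleGraph V) (σ : Equiv.Perm V) (o : V → I)
    (ρ : U) (p : U → U) (dep : U → ℕ) (c : I → U → V) (ω : I) (P : I → I) (depI : I → ℕ) (l r : I → V) (y : I → U) :
    Prop extends Data1 H G σ o ρ p dep c where
  Plt : ∀ w, w ≠ ω → depI (P w) < depI w
  ol : ∀ w, w ≠ ω → o (l w) = w
  or : ∀ w, w ≠ ω → o (r w) = P w
  lr : ∀ w, w ≠ ω → G.Adj (l w) (r w)
  yρ : ∀ w, w ≠ ω → y w ≠ ρ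
  yinj : ∀ w w', w ≠ ω → w' ≠ ω → y w = y w' → w = w'
  cl : ∀ w, w ≠ ω → c w (y w) = l w ∨ σ (c w (y w)) = l w
  cr : ∀ w, w ≠ ω → c (P w) (y w) = r w ∨ σ (c (P w) (y w)) = r w

/-- the first stage: for `y ≠ ρ` and every cycle `w` the copies of `w` at `p y` and `y` are merged at the edge `c w y` -/
def stage1 {U V I : Type*} (σ : Equiv.Perm V) (ρ : U) (p : U → U) (c : I → U → V) : SimpleGraph (U × V) :=
  plumb (base σ) {i : U × I | i.1 ≠ ρ} (fun i => (p i.1, c i.2 i.1)) (fun i => (p i.1, σ (c i.2 i.1)))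
    (fun i => (i.1, c i.2 i.1)) (fun i => (i.1, σ (c i.2 i.1)))

/-- the second stage: for `w ≠ ω` the cycles of `w` and `P w` are merged at the rungs over the edge from `p (y w)` to `y w` -/
def stage2 {U V I : Type*} (σ : Equiv.Perm V) (ρ : U) (p : U → U) (c : I → U → V) (ω : I) (l r : I → V) (y : I → U) :
    SimpleGraph (U × V) :=
  plumb (stage1 σ ρ p c) {w : I | w ≠ ω} (fun w => (p (y w), l w)) (fun w => (y w, l w))
    (fun w => (p (y w), r w)) (fun w => (y w, r w))

/-! ## Degree-bounded spanning trees -/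

/-- the total excess over degree three -/
noncomputable def te {V : Type*} [Fintype V] (T : SimpleGraph V) : ℕ := ∑ v, (dg T v - 3)

/-- the component of `T - S` containing `x` (just `{x}` if `x ∈ S`) -/
def comp {V : Type*} (T : SimpleGraph V) (S : Set V) (x : V) : Set V := {y | (ins T Sᶜ).Reachable x y}

/-- `T` and `T'` have the same edges except inside `K` -/
def Agree {V : Type*} (T T' : SimpleGraph V) (K : Set V) : Prop :=
  ∀ a b, ¬ (a ∈ K ∧ b ∈ K) → (T'.Adj a b ↔ T.Adj a b)

/-- the degree of `v` can be made at most two by a change inside the component of `v` in `T - S`,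
without increasing the excess -/
def Good {V : Type*} [Fintype V] (G T : SimpleGraph V) (S : Set V) (v : V) : Prop :=
  ∃ T' : SimpleGraph V, T' ≤ G ∧ T'.Connected ∧ te T' ≤ te T ∧ dg T' v ≤ 2 ∧ Agree T T' (comp T S v)

/-- the closure sequence: bad vertices are added -/
def St {V : Type*} [Fintype V] (G T : SimpleGraph V) (u : V) : ℕ → Set V
  | 0 => {u}
  | (i + 1) => St G T u i ∪ {v | ¬ Good G T (St G T u i) v}

/-- `T1` inside `K1`, `T2` inside `K2`, `T` elsewhere -/
def mix {V : Type*} (T T1 T2 : SimpleGraph V) (K1 K2 : Set V) : SimpleGraph V :=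
  ins T1 K1 ⊔ ins T2 K2 ⊔ (off T K1 ⊓ off T K2)

/-! ## Polytopes -/

/-- the space -/
abbrev E (d : ℕ) := EuclideanSpace ℝ (Fin d)

/-- `S` is the vertex set of a `d`-polytope in `ℝ^d` -/
def IsPol {d : ℕ} (S : Finset (E d)) : Prop :=
  (interior (convexHull ℝ (S : Set (E d)))).Nonempty ∧ ∀ s ∈ S, s ∈ Set.extremePoints ℝ (convexHull ℝ (S : Set (E d)))

/-- the graph of the polytope with vertex set `S` -/
def gr {d : ℕ} (S : Finset (E d)) : SimpleGraph S :=
  SimpleGraph.fromRel (fun x y : S => IsExposed ℝ (convexHull ℝ (S : Set (E d))) (segment ℝ (x : E d) (y : E d)))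

/-- the polytope of `S` is a product of the polytopes of `S1` and `S2`: it is the image of the product under a linear
isomorphism, or its graph is isomorphic to the Cartesian product of the graphs -/
def IsProd {d1 d2 d : ℕ} (S1 : Finset (E d1)) (S2 : Finset (E d2)) (S : Finset (E d)) : Prop :=
  (∃ L : (E d1 × E d2) ≃ₗ[ℝ] E d, (S : Set (E d)) = L '' ((S1 : Set (E d1)) ×ˢ (S2 : Set (E d2)))) ∨
    Nonempty (gr S ≃g SimpleGraph.boxProd (gr S1) (gr S2))

end Pool.Agent.LibHP88
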