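import Mathlib
import Pool.Agent.LibHP88.Defs

/-! Row A1.
Neighbour sets of `S := sw R a b c d` (unfold sw, SimpleGraph.fromEdgeSet_adj). First: a, b, c, d are pairwise different, and there is no R-edge between {a, b} and {c, d} (a, b are R-reachable from each other, c, d too, a and c are not; so no vertex of {a,b} is R-reachable from {c,d}). Hence
x not in {a,b,c,d}: N_S(x) = N_R(x).
x = a: N_S(a) = (N_R(a) minus b) plus c, where b ∈ N_R(a), c ∉ N_R(a): ncard 2 (Set.ncard_insert_of_notMem, Set.ncard_diff_singleton_of_mem). Likewise b (minus a plus d), c (minus d plus a), d (minus c plus b).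
By symmetry it may be convenient to prove a lemma for a general graph: if N' = (N minus u) plus v with u ∈ N, v ∉ N then N'.ncard = N.ncard. Finite: X is finite.
-/

set_option autoImplicit false

namespace Pool.Agent.LibHP88

open scoped Classical

private theorem A1_adj {X : Type*} {R : SimpleGraph X} {a b c d x y : X} :
    (sw R a b c d).Adj x y ↔ ((R.Adj x y ∧ s(x, y) ≠ s(a, b) ∧ s(x, y) ≠ s(c, d)) ∨
      s(x, y) = s(a, c) ∨ s(x, y) = s(b, d)) ∧ x ≠ y := by
  unfold sw
  rw [SimpleGraph.fromEdgeSet_adj]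
  simp only [Set.mem_union, Set.mem_sdiff, SimpleGraph.mem_edgeSet, Set.mem_insert_iff, Set.mem_singleton_iff,
    not_or, ne_eq]

private theorem A1_card {X : Type*} [Finite X] {N : Set X} {u v : X} (hN : N.ncard = 2) (hu : u ∈ N) (hv : v ∉ N) :
    (insert v (N \ {u})).ncard = 2 := by
  rw [Set.ncard_insert_of_notMem (fun h => hv h.1) (Set.toFinite _), Set.ncard_sdiff_singleton_of_mem hu, hN]

private theorem A1_swap {X : Type*} {R : SimpleGraph X} {a b c d : X} : sw R a b c d = sw R b a d c := by
  unfold sw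
  rw [Sym2.eq_swap (a := b) (b := a), Sym2.eq_swap (a := d) (b := c), Set.pair_comm s(b, d) s(a, c)]

private theorem A1_swap' {X : Type*} {R : SimpleGraph X} {a b c d : X} : sw R a b c d = sw R c d a b := by
  unfold sw
  rw [Set.pair_comm s(c, d) s(a, b), Sym2.eq_swap (a := c) (b := a), Sym2.eq_swap (a := d) (b := b)]

private theorem A1_a {X : Type*} [Finite X] {R : SimpleGraph X} (hR : Two R) {a b c d : X} (hab : R.Adj a b)
    (hcd : R.Adj c d) (h : ¬ R.Reachable a c) : ((sw R a b c d).neighborSet a).ncard = 2 := by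
  have hac : a ≠ c := fun e => h (e ▸ SimpleGraph.Reachable.refl a)
  have had : a ≠ d := fun e => h (by rw [e]; exact hcd.symm.reachable)
  have hbc : b ≠ c := fun e => h (by rw [← e]; exact hab.reachable)
  have hnac : ¬ R.Adj a c := fun e => h e.reachable
  have key : (sw R a b c d).neighborSet a = insert c (R.neighborSet a \ {b}) := by
    ext y
    rw [SimpleGraph.mem_neighborSet, A1_adj]
    simp only [Set.mem_insert_iff, Set.mem_sdiff, SimpleGraph.mem_neighborSet, Set.mem_singleton_iff, Sym2.eq_iff]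
    constructor
    · rintro ⟨(⟨h1, h2, h3⟩ | ((⟨-, h1⟩ | ⟨h1, -⟩) | (⟨h1, h2⟩ | ⟨h1, -⟩))), hne⟩
      · right
        refine ⟨h1, fun e => h2 ?_⟩
        rw [e]
      · exact Or.inl h1
      · exact absurd h1 hac
      · exact absurd h1 hab.ne
      · exact absurd h1 had
    · rintro (h1 | ⟨h1, h2⟩)
      · subst h1
        exact ⟨Or.inr (Or.inl (Or.inl (by simp))), hac⟩
      · refine ⟨Or.inl ⟨h1, fun e => ?_, fun e => ?_⟩, h1.ne⟩
        · rcases Sym2.eq_iff.1 e with ⟨-, h3⟩ | ⟨h3, -⟩
          · exact h2 h3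
          · exact hab.ne h3
        · rcases Sym2.eq_iff.1 e with ⟨h3, -⟩ | ⟨h3, -⟩
          · exact hac h3
          · exact had h3
  rw [key]
  exact A1_card (hR a) hab hnac

/-- A1: a switch between two components keeps the degrees -/
theorem sw_two {X : Type*} [Finite X] {R : SimpleGraph X} (hR : Two R) {a b c d : X} (hab : R.Adj a b) (hcd : R.Adj c d)
    (h : ¬ R.Reachable a c) : Two (sw R a b c d) := by
  intro x
  by_cases hxa : x = a
  · subst hxa; exact A1_a hR hab hcd h
  by_cases hxb : x = b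
  · subst hxb
    rw [A1_swap]
    exact A1_a hR hab.symm hcd.symm (fun e => h (hab.reachable.trans (e.trans hcd.symm.reachable)))
  by_cases hxc : x = c
  · subst hxc
    rw [A1_swap']
    exact A1_a hR hcd hab (fun e => h e.symm)
  by_cases hxd : x = d
  · subst hxd
    rw [A1_swap', A1_swap]
    exact A1_a hR hcd.symm hab.symm (fun e => h (hab.reachable.trans (e.symm.trans hcd.symm.reachable)))
  have key : (sw R a b c d).neighborSet x = R.neighborSet x := by
    ext y
    rw [SimpleGraph.mem_neighborSet, A1_adj]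
    simp only [SimpleGraph.mem_neighborSet, Sym2.eq_iff]
    constructor
    · rintro ⟨(⟨h1, -, -⟩ | ((⟨h1, -⟩ | ⟨h1, -⟩) | (⟨h1, -⟩ | ⟨h1, -⟩))), -⟩
      · exact h1
      · exact absurd h1 hxa
      · exact absurd h1 hxc
      · exact absurd h1 hxb
      · exact absurd h1 hxd
    · intro h1
      refine ⟨Or.inl ⟨h1, fun e => ?_, fun e => ?_⟩, h1.ne⟩
      · rcases Sym2.eq_iff.1 e with ⟨h3, -⟩ | ⟨h3, -⟩
        · exact hxa h3
        · exact hxb h3
      · rcases Sym2.eq_iff.1 e with ⟨h3, -⟩ | ⟨h3, -⟩
        · exact hxc h3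
        · exact hxd h3
  rw [key]
  exact hR x

end Pool.Agent.LibHP88
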