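import Mathlib
import Pool.Agent.LibHP88.Defs

/-! Row A2.
R satisfies R.IsCycles (SimpleGraph.IsCycles, because every neighbour set has ncard 2), so Mathlib's SimpleGraph.IsCycles.reachable_deleteEdges gives: (R.deleteEdges {s(a,b)}).Reachable a b and the same for c d.
(→) it suffices that every edge uv of sw is Reachable in R ⊔ ac (then induct on the walk; write a small lemma: if every edge of A is B-Reachable then A.Reachable x y → B.Reachable x y): an edge of R: clear; ac: clear; bd: b - a - c - d (edges ab, ac, cd).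
(←) every edge uv of R ⊔ ac is Reachable in sw: ac is an edge of sw. uv ∈ R different from ab, cd: an edge of sw. uv = ab: take a walk from a to b in R.deleteEdges {s(a,b)}. All its vertices are R-reachable from a, so its edges are not cd (c is not R-reachable from a), so every edge of it is an edge of sw: (sw).Reachable a b. To do this cleanly: show by induction on the walk: for all u with R.Reachable a u and a walk of R.deleteEdges {s(a,b)} from u to v, sw.Reachable u v. uv = cd: symmetric (a is not R-reachable from c).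
-/

set_option autoImplicit false

namespace Pool.Agent.LibHP88

open scoped Classical

private theorem A2_mono {X : Type*} {A B : SimpleGraph X} (h : ∀ u v, A.Adj u v → B.Reachable u v) {x y : X}
    (hxy : A.Reachable x y) : B.Reachable x y := by
  obtain ⟨w⟩ := hxy
  induction w with
  | nil => exact SimpleGraph.Reachable.refl _
  | cons hadj _ ih => exact (h _ _ hadj).trans ih

private theorem A2_arc {X : Type*} {R S : SimpleGraph X} {p q p' q' : X} (hpq' : R.Adj p' q')
    (hn : ¬ R.Reachable p p')
    (hS : ∀ u v, R.Adj u v → s(u, v) ≠ s(p, q) → s(u, v) ≠ s(p', q') → S.Adj u v) {u v : X}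
    (w : (R.deleteEdges {s(p, q)}).Walk u v) (hu : R.Reachable p u) : S.Reachable u v := by
  induction w with
  | nil => exact SimpleGraph.Reachable.refl _
  | cons hadj _ ih =>
    rename_i u1 u2 u3 _
    rw [SimpleGraph.deleteEdges_adj, Set.mem_singleton_iff] at hadj
    have h1 : s(u1, u2) ≠ s(p', q') := by
      intro h
      rw [Sym2.eq_iff] at h
      rcases h with ⟨h, _⟩ | ⟨h, _⟩
      · rw [h] at hu
        exact hn hu
      · rw [h] at hu
        exact hn (hu.trans hpq'.symm.reachable)
    exact (hS _ _ hadj.1 hadj.2 h1).reachable.trans (ih (hu.trans hadj.1.reachable))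

/-- A2: a switch between two components joins exactly these components -/
theorem sw_reach {X : Type*} [Finite X] {R : SimpleGraph X} (hR : Two R) {a b c d : X} (hab : R.Adj a b) (hcd : R.Adj c d)
    (h : ¬ R.Reachable a c) (x y : X) :
    (sw R a b c d).Reachable x y ↔ (R ⊔ SimpleGraph.fromEdgeSet {s(a, c)}).Reachable x y := by
  have hcyc : R.IsCycles := fun v _ => hR v
  have hac : a ≠ c := by
    rintro rfl
    exact h (SimpleGraph.Reachable.refl _)
  have hbd : b ≠ d := by
    rintro rfl
    exact h (hab.reachable.trans hcd.symm.reachable)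
  have hsw : ∀ u v, (sw R a b c d).Adj u v ↔
      ((R.Adj u v ∧ s(u, v) ≠ s(a, b) ∧ s(u, v) ≠ s(c, d)) ∨ s(u, v) = s(a, c) ∨
        s(u, v) = s(b, d)) ∧ u ≠ v := by
    intro u v
    unfold sw
    rw [SimpleGraph.fromEdgeSet_adj]
    simp only [Set.mem_union, Set.mem_sdiff, Set.mem_insert_iff, Set.mem_singleton_iff,
      SimpleGraph.mem_edgeSet, not_or, ne_eq]
  have hB : ∀ u v, (R ⊔ SimpleGraph.fromEdgeSet {s(a, c)}).Adj u v ↔
      R.Adj u v ∨ (s(u, v) = s(a, c) ∧ u ≠ v) := by
    intro u v
    rw [SimpleGraph.sup_adj, SimpleGraph.fromEdgeSet_adj, Set.mem_singleton_iff]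
  have hBac : (R ⊔ SimpleGraph.fromEdgeSet {s(a, c)}).Reachable a c :=
    ((hB a c).2 (Or.inr ⟨rfl, hac⟩)).reachable
  have hBab : (R ⊔ SimpleGraph.fromEdgeSet {s(a, c)}).Reachable a b :=
    ((hB a b).2 (Or.inl hab)).reachable
  have hBcd : (R ⊔ SimpleGraph.fromEdgeSet {s(a, c)}).Reachable c d :=
    ((hB c d).2 (Or.inl hcd)).reachable
  have hS : ∀ u v, R.Adj u v → s(u, v) ≠ s(a, b) → s(u, v) ≠ s(c, d) →
      (sw R a b c d).Adj u v := fun u v h1 h2 h3 => (hsw u v).2 ⟨Or.inl ⟨h1, h2, h3⟩, h1.ne⟩
  constructor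
  · apply A2_mono
    intro u v huv
    obtain ⟨h1 | h1 | h1, h2⟩ := (hsw u v).1 huv
    · exact ((hB u v).2 (Or.inl h1.1)).reachable
    · exact ((hB u v).2 (Or.inr ⟨h1, h2⟩)).reachable
    · have h3 : (R ⊔ SimpleGraph.fromEdgeSet {s(a, c)}).Reachable b d :=
        (hBab.symm.trans hBac).trans hBcd
      rw [Sym2.eq_iff] at h1
      rcases h1 with ⟨rfl, rfl⟩ | ⟨rfl, rfl⟩
      · exact h3
      · exact h3.symm
  · apply A2_mono
    intro u v huv
    have hSab : (sw R a b c d).Reachable a b := by
      obtain ⟨w⟩ := hcyc.reachable_deleteEdges hab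
      exact A2_arc hcd h hS w (SimpleGraph.Reachable.refl _)
    have hScd : (sw R a b c d).Reachable c d := by
      obtain ⟨w⟩ := hcyc.reachable_deleteEdges hcd
      exact A2_arc hab (fun h' => h h'.symm) (fun u v h1 h2 h3 => hS u v h1 h3 h2) w
        (SimpleGraph.Reachable.refl _)
    rcases (hB u v).1 huv with h1 | h1
    · by_cases h2 : s(u, v) = s(a, b)
      · rw [Sym2.eq_iff] at h2
        rcases h2 with ⟨rfl, rfl⟩ | ⟨rfl, rfl⟩
        · exact hSab
        · exact hSab.symm
      · by_cases h3 : s(u, v) = s(c, d)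
        · rw [Sym2.eq_iff] at h3
          rcases h3 with ⟨rfl, rfl⟩ | ⟨rfl, rfl⟩
          · exact hScd
          · exact hScd.symm
        · exact (hS u v h1 h2 h3).reachable
    · exact ((hsw u v).2 ⟨Or.inr (Or.inl h1.1), h1.2⟩).reachable

end Pool.Agent.LibHP88
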