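import Mathlib
import Pool.Agent.LibHP88.Defs
import Pool.Agent.LibHP88.A1
import Pool.Agent.LibHP88.A2

/-! Row A3.
Induction on the finite set t (Set.Finite.induction_on or through Finsets); the hypotheses pass to subsets (link is monotone in t). t = ∅: plumb R ∅ = R = link R ∅. Step t ∪ {i}, i ∉ t: put R' := plumb R t .., Two R', reachability of R' = that of link R t a c.
(0) For j ∈ t ∪ {i}: the edges s(a j, c j), s(b j, d j) are not in R.edgeSet and a j ≠ c j, b j ≠ d j: otherwise a j, c j would be R-reachable (a j - b j - d j - c j), but R ≤ link R (..) a c, against hac.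
(1) R'.Adj (a i) (b i), R'.Adj (c i) (d i): these edges are in R and by hne not removed by t.
(2) ¬ R'.Reachable (a i) (c i): by the induction hypothesis it would give (link R t a c).Reachable (a i) (c i), and t ⊆ (t ∪ {i}) \ {i}: contradiction with hac.
(3) plumb R (t ∪ {i}) .. = sw R' (a i) (b i) (c i) (d i): compare edge sets: ((E \ Rem_t) ∪ Add_t) \ {ab_i, cd_i} ∪ {ac_i, bd_i} = (E \ Rem_{t ∪ i}) ∪ Add_{t ∪ i}, because ab_i, cd_i ∈ E are not in Add_t (by (0)).
(4) A1 gives Two, A2 gives reachability = that of R' ⊔ ac_i = that of link R (t ∪ {i}) a c (both directions edge by edge: the edges of R' are link R t - reachable and conversely by the induction hypothesis).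
-/

set_option autoImplicit false

namespace Pool.Agent.LibHP88

open scoped Classical

theorem A3_reach_of {X : Type*} {G1 G2 : SimpleGraph X} (h : ∀ x y, G1.Adj x y → G2.Reachable x y) {x y : X}
    (hxy : G1.Reachable x y) : G2.Reachable x y := by
  obtain ⟨w⟩ := hxy
  induction w with
  | nil => exact SimpleGraph.Reachable.refl _
  | cons hadj _ ih => exact (h _ _ hadj).trans ih

theorem A3_link_adj {X ι : Type*} {R : SimpleGraph X} {t : Set ι} {a c : ι → X} {x y : X} :
    (link R t a c).Adj x y ↔ R.Adj x y ∨ ((∃ i ∈ t, s(x, y) = s(a i, c i)) ∧ x ≠ y) := by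
  unfold link
  rw [SimpleGraph.sup_adj, SimpleGraph.fromEdgeSet_adj]
  rfl

theorem A3_link_mono {X ι : Type*} {R : SimpleGraph X} {t t' : Set ι} (h : t ⊆ t') (a c : ι → X) :
    link R t a c ≤ link R t' a c := by
  intro x y hxy
  rw [A3_link_adj] at hxy ⊢
  rcases hxy with h1 | ⟨⟨i, hi, h1⟩, h2⟩
  · exact Or.inl h1
  · exact Or.inr ⟨⟨i, h hi, h1⟩, h2⟩

theorem A3_plumb_adj {X ι : Type*} {R : SimpleGraph X} {t : Set ι} {a b c d : ι → X} {x y : X} :
    (plumb R t a b c d).Adj x y ↔
      ((R.Adj x y ∧ ¬ ∃ i ∈ t, s(x, y) = s(a i, b i) ∨ s(x, y) = s(c i, d i)) ∨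
        ∃ i ∈ t, s(x, y) = s(a i, c i) ∨ s(x, y) = s(b i, d i)) ∧ x ≠ y := by
  unfold plumb
  rw [SimpleGraph.fromEdgeSet_adj]
  rfl

/-- A3: plumbing along a forest -/
theorem plumb_main {X ι : Type*} [Finite X] [Finite ι] {R : SimpleGraph X} (hR : Two R) (t : Set ι) (a b c d : ι → X)
    (hab : ∀ i ∈ t, R.Adj (a i) (b i)) (hcd : ∀ i ∈ t, R.Adj (c i) (d i))
    (hne : ∀ i ∈ t, ∀ j ∈ t, i ≠ j → s(a i, b i) ≠ s(a j, b j) ∧ s(a i, b i) ≠ s(c j, d j) ∧ s(c i, d i) ≠ s(c j, d j))
    (hac : ∀ i ∈ t, ¬ (link R (t \ {i}) a c).Reachable (a i) (c i)) :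
    Two (plumb R t a b c d) ∧ ∀ x y, (plumb R t a b c d).Reachable x y ↔ (link R t a c).Reachable x y := by
  revert hab hcd hne hac
  refine Set.Finite.induction_on (motive := fun t _ => (∀ i ∈ t, R.Adj (a i) (b i)) → (∀ i ∈ t, R.Adj (c i) (d i)) →
    (∀ i ∈ t, ∀ j ∈ t, i ≠ j → s(a i, b i) ≠ s(a j, b j) ∧ s(a i, b i) ≠ s(c j, d j) ∧ s(c i, d i) ≠ s(c j, d j)) →
    (∀ i ∈ t, ¬ (link R (t \ {i}) a c).Reachable (a i) (c i)) →
    Two (plumb R t a b c d) ∧ ∀ x y, (plumb R t a b c d).Reachable x y ↔ (link R t a c).Reachable x y)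
    t (Set.toFinite t) ?_ ?_
  · intro _ _ _ _
    have e1 : plumb R ∅ a b c d = R := by
      ext x y
      rw [A3_plumb_adj]
      constructor
      · rintro ⟨⟨h, -⟩ | ⟨i, hi, -⟩, -⟩
        · exact h
        · exact absurd hi (Set.notMem_empty i)
      · intro h
        refine ⟨Or.inl ⟨h, ?_⟩, h.ne⟩
        rintro ⟨i, hi, -⟩
        exact absurd hi (Set.notMem_empty i)
    have e2 : link R ∅ a c = R := by
      ext x y
      rw [A3_link_adj]
      constructor
      · rintro (h | ⟨⟨i, hi, -⟩, -⟩)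
        · exact h
        · exact absurd hi (Set.notMem_empty i)
      · exact Or.inl
    rw [e1, e2]
    exact ⟨hR, fun x y => Iff.rfl⟩
  · intro i t hit _ ih hab hcd hne hac
    have hs : t ⊆ insert i t := Set.subset_insert i t
    have hi : i ∈ insert i t := Set.mem_insert i t
    obtain ⟨ih2, ihr⟩ := ih (fun j hj => hab j (hs hj)) (fun j hj => hcd j (hs hj))
      (fun j hj k hk => hne j (hs hj) k (hs hk))
      (fun j hj h => hac j (hs hj) (h.mono (A3_link_mono (Set.sdiff_subset_sdiff_left hs) a c)))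
    -- (0)
    have hRl : ∀ s : Set ι, R ≤ link R s a c := fun s x y h => A3_link_adj.2 (Or.inl h)
    have h0 : ∀ j ∈ insert i t, ¬ R.Reachable (a j) (c j) := fun j hj h => hac j hj (h.mono (hRl _))
    have h0' : ∀ j ∈ insert i t, ¬ R.Reachable (b j) (d j) := fun j hj h =>
      h0 j hj (((hab j hj).reachable.trans h).trans (hcd j hj).symm.reachable)
    -- (1)
    have h1 : (plumb R t a b c d).Adj (a i) (b i) := by
      rw [A3_plumb_adj]
      refine ⟨Or.inl ⟨hab i hi, ?_⟩, (hab i hi).ne⟩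
      rintro ⟨j, hj, h | h⟩
      · exact (hne i hi j (hs hj) (fun e => hit (e ▸ hj))).1 h
      · exact (hne i hi j (hs hj) (fun e => hit (e ▸ hj))).2.1 h
    have h1' : (plumb R t a b c d).Adj (c i) (d i) := by
      rw [A3_plumb_adj]
      refine ⟨Or.inl ⟨hcd i hi, ?_⟩, (hcd i hi).ne⟩
      rintro ⟨j, hj, h | h⟩
      · exact (hne j (hs hj) i hi (fun e => hit (e ▸ hj))).2.1 h.symm
      · exact (hne i hi j (hs hj) (fun e => hit (e ▸ hj))).2.2 h
    -- (2)
    have h2 : ¬ (plumb R t a b c d).Reachable (a i) (c i) := by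
      intro h
      refine hac i hi (((ihr _ _).1 h).mono (A3_link_mono ?_ a c))
      intro j hj
      exact ⟨hs hj, fun e => hit (by rw [Set.mem_singleton_iff] at e; exact e ▸ hj)⟩
    -- (3)
    have h3 : plumb R (insert i t) a b c d = sw (plumb R t a b c d) (a i) (b i) (c i) (d i) := by
      ext x y
      unfold sw
      rw [A3_plumb_adj, SimpleGraph.fromEdgeSet_adj, Set.mem_union, Set.mem_sdiff, SimpleGraph.mem_edgeSet,
        A3_plumb_adj]
      simp only [Set.mem_insert_iff, Set.mem_singleton_iff]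
      have nE : ∀ j ∈ insert i t, s(x, y) = s(a j, c j) ∨ s(x, y) = s(b j, d j) → x ≠ y → ¬ R.Adj x y := by
        intro j hj h hxy hadj
        rcases h with h | h
        · have h5 : s(a j, c j) ∈ R.edgeSet := by
            rw [← h]
            exact hadj
          exact h0 j hj (SimpleGraph.Adj.reachable h5)
        · have h5 : s(b j, d j) ∈ R.edgeSet := by
            rw [← h]
            exact hadj
          exact h0' j hj (SimpleGraph.Adj.reachable h5)
      have eab : s(x, y) = s(a i, b i) → R.Adj x y := by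
        intro h
        have h5 : s(a i, b i) ∈ R.edgeSet := hab i hi
        rw [← h] at h5
        exact h5
      have ecd : s(x, y) = s(c i, d i) → R.Adj x y := by
        intro h
        have h5 : s(c i, d i) ∈ R.edgeSet := hcd i hi
        rw [← h] at h5
        exact h5
      constructor
      · rintro ⟨⟨hadj, hn⟩ | ⟨j, hj | hj, h⟩, hxy⟩
        · refine ⟨Or.inl ⟨⟨Or.inl ⟨hadj, ?_⟩, hxy⟩, ?_⟩, hxy⟩
          · rintro ⟨j, hj, h⟩
            exact hn ⟨j, Or.inr hj, h⟩
          · intro h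
            exact hn ⟨i, Or.inl rfl, h⟩
        · subst hj
          exact ⟨Or.inr h, hxy⟩
        · have hnE := nE j (hs hj) h hxy
          refine ⟨Or.inl ⟨⟨Or.inr ⟨j, hj, h⟩, hxy⟩, ?_⟩, hxy⟩
          rintro (h' | h')
          · exact hnE (eab h')
          · exact hnE (ecd h')
      · rintro ⟨⟨⟨⟨hadj, hn⟩ | ⟨j, hj, h⟩, -⟩, hn'⟩ | h, hxy⟩
        · refine ⟨Or.inl ⟨hadj, ?_⟩, hxy⟩
          rintro ⟨j, hj | hj, h⟩
          · subst hj
            exact hn' h
          · exact hn ⟨j, hj, h⟩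
        · exact ⟨Or.inr ⟨j, Or.inr hj, h⟩, hxy⟩
        · exact ⟨Or.inr ⟨i, Or.inl rfl, h⟩, hxy⟩
    rw [h3]
    refine ⟨sw_two ih2 h1 h1' h2, fun x y => ?_⟩
    rw [sw_reach ih2 h1 h1' h2 x y]
    constructor
    · refine A3_reach_of fun u v huv => ?_
      rw [SimpleGraph.sup_adj, SimpleGraph.fromEdgeSet_adj, Set.mem_singleton_iff] at huv
      rcases huv with h | ⟨h, hne'⟩
      · exact ((ihr u v).1 h.reachable).mono (A3_link_mono hs a c)
      · exact SimpleGraph.Adj.reachable (A3_link_adj.2 (Or.inr ⟨⟨i, hi, h⟩, hne'⟩))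
    · refine A3_reach_of fun u v huv => ?_
      rw [A3_link_adj] at huv
      rcases huv with h | ⟨⟨j, hj, h⟩, hne'⟩
      · exact ((ihr u v).2 (SimpleGraph.Adj.reachable (hRl t h))).mono le_sup_left
      · rcases Set.mem_insert_iff.1 hj with rfl | hj'
        · refine SimpleGraph.Adj.reachable ?_
          rw [SimpleGraph.sup_adj, SimpleGraph.fromEdgeSet_adj, Set.mem_singleton_iff]
          exact Or.inr ⟨h, hne'⟩
        · exact ((ihr u v).2 (SimpleGraph.Adj.reachable
            (A3_link_adj.2 (Or.inr ⟨⟨j, hj', h⟩, hne'⟩)))).mono le_sup_left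

end Pool.Agent.LibHP88
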