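import Mathlib
import Pool.Agent.LibHP88.Defs

/-! Row A4.
R.IsCycles. Pick v; c := R.connectedComponentMk v, c.supp = univ because R is connected. SimpleGraph.IsCycles.exists_cycle_toSubgraph_verts_eq_connectedComponentSupp (neighbour set nonempty: ncard 2) gives a cycle q : R.Walk v v with q.toSubgraph.verts = univ, so every vertex lies in q.support (Walk.mem_verts_toSubgraph). So q is a Hamiltonian cycle: use Walk.isHamiltonianCycle_iff_isCycle_and_support_count_tail_eq_one (or IsHamiltonianCycle.mk with tail: q.tail is a path, IsPath.isHamiltonian_of_mem). Then R.IsHamiltonian, and SimpleGraph.IsHamiltonian.mono hle.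
-/

set_option autoImplicit false

namespace Pool.Agent.LibHP88

open scoped Classical

/-- A4: a connected spanning 2-regular subgraph is a Hamiltonian cycle -/
theorem ham_of_two {X : Type*} [Fintype X] [DecidableEq X] {R Γ : SimpleGraph X} (hle : R ≤ Γ) (hR : Two R)
    (hc : R.Connected) : Γ.IsHamiltonian := by
  have hcyc : R.IsCycles := fun v _ => hR v
  have hRH : R.IsHamiltonian := by
    intro _
    obtain ⟨v⟩ := hc.nonempty
    have hn : (R.neighborSet v).Nonempty := Set.nonempty_of_ncard_ne_zero (by rw [hR v]; norm_num)
    have hv : v ∈ (R.connectedComponentMk v).supp := by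
      rw [SimpleGraph.ConnectedComponent.mem_supp_iff]
    obtain ⟨q, hq, hqs⟩ := hcyc.exists_cycle_toSubgraph_verts_eq_connectedComponentSupp hv hn
    have hall : ∀ w, w ∈ q.support := by
      intro w
      rw [← SimpleGraph.Walk.mem_verts_toSubgraph, hqs, SimpleGraph.ConnectedComponent.mem_supp_iff,
        SimpleGraph.ConnectedComponent.eq]
      exact hc.preconnected w v
    refine ⟨v, q, ⟨hq, ?_⟩⟩
    refine hq.isPath_tail.isHamiltonian_of_mem (fun w => ?_)
    rw [SimpleGraph.Walk.support_tail_of_not_nil _ hq.not_nil]
    by_cases hwv : w = v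
    · rw [hwv]
      exact SimpleGraph.Walk.end_mem_tail_support hq.not_nil
    · rcases SimpleGraph.Walk.mem_support_iff _ |>.1 (hall w) with h | h
      · exact absurd h hwv
      · exact h
  exact hRH.mono hle

/-- A4b: transport along a bijective homomorphism (Walk.IsHamiltonianCycle.map) -/
theorem ham_map {X Y : Type*} [Fintype X] [Fintype Y] [DecidableEq X] [DecidableEq Y] {G : SimpleGraph X}
    {H : SimpleGraph Y} (f : G →g H) (hf : Function.Bijective f) (h : G.IsHamiltonian) : H.IsHamiltonian := by
  intro hY
  have hc : Fintype.card X = Fintype.card Y := Fintype.card_of_bijective hf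
  obtain ⟨a, p, hp⟩ := h (by rw [hc]; exact hY)
  exact ⟨f a, p.map f, hp.map hf⟩

end Pool.Agent.LibHP88
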