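import Mathlib
import Pool.Agent.LibHP88.Defs

/-! Row B0.
The relation a → b :⟺ a ≠ ρ ∧ p a = b is functional.
desc_self: ReflTransGen.refl. desc_step: for h ≠ ρ, h ≠ y: h ∈ desc y ⟺ p h ∈ desc y: → Relation.ReflTransGen.cases_head: h = y (excluded) or a step h → b with b = p h; ← ReflTransGen.head. desc_le: induct (head_induction_on): dep y ≤ dep h for h ∈ desc y; so p y ∉ desc y.
desc_root: if ρ ∈ desc y then y = ρ (cases_head: a step from ρ is impossible).
-/

set_option autoImplicit false

namespace Pool.Agent.LibHP88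

open scoped Classical

theorem desc_self {U : Type*} (ρ : U) (p : U → U) (y : U) : y ∈ desc ρ p y :=
  Relation.ReflTransGen.refl

theorem desc_step {U : Type*} (ρ : U) (p : U → U) {y h : U} (h1 : h ≠ ρ) (h2 : h ≠ y) :
    h ∈ desc ρ p y ↔ p h ∈ desc ρ p y := by
  constructor
  · intro h3
    rcases Relation.ReflTransGen.cases_head h3 with h4 | ⟨b, ⟨_, h5⟩, h6⟩
    · exact absurd h4 h2
    · change Relation.ReflTransGen _ (p h) y
      rw [h5]
      exact h6
  · intro h3
    exact Relation.ReflTransGen.head ⟨h1, rfl⟩ h3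

private theorem B0_desc_le {U : Type*} {ρ : U} {p : U → U} {dep : U → ℕ}
    (hlt : ∀ v, v ≠ ρ → dep (p v) < dep v) {y h : U} (hh : h ∈ desc ρ p y) : dep y ≤ dep h := by
  induction hh using Relation.ReflTransGen.head_induction_on with
  | refl => exact le_rfl
  | head h1 _ ih =>
    have h2 := hlt _ h1.1
    rw [h1.2] at h2
    exact ih.trans h2.le

/-- B0: the parent is not a descendant -/
theorem not_desc {U : Type*} {ρ : U} {p : U → U} {dep : U → ℕ} (hlt : ∀ v, v ≠ ρ → dep (p v) < dep v) {y : U}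
    (hy : y ≠ ρ) : p y ∉ desc ρ p y := by
  intro h
  have h1 := B0_desc_le hlt h
  have h2 := hlt y hy
  omega

theorem desc_root {U : Type*} (ρ : U) (p : U → U) {y : U} (h : ρ ∈ desc ρ p y) : y = ρ := by
  rcases Relation.ReflTransGen.cases_head h with h4 | ⟨b, ⟨h5, _⟩, _⟩
  · exact h4.symm
  · exact absurd rfl h5

end Pool.Agent.LibHP88
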