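import Mathlib
import Pool.Agent.LibHP88.Defs

/-! Row B1.
base_adj: SimpleGraph.fromRel_adj; x ≠ y is automatic because σ v ≠ v (otherwise σ (σ v) = v). base_two: the neighbours of (h, v) are (h, σ v) and (h, σ⁻¹ v) (σ.symm v), which are different because σ (σ v) ≠ v; Set.ncard_pair. base_reach: → induct on the walk (SameCycle is an equivalence relation; v, σ v are SameCycle); ← SameCycle v v' means (σ ^ i) v = v' for an integer i; since V is finite there is a natural number n with (σ ^ n) v = v' (Equiv.Perm.SameCycle.exists_pow_eq' or exists_nat_pow_eq); induct on n.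
-/

set_option autoImplicit false

namespace Pool.Agent.LibHP88

open scoped Classical

theorem base_adj {U V : Type*} {σ : Equiv.Perm V} (h2 : ∀ v, σ (σ v) ≠ v) (x y : U × V) :
    (base σ).Adj x y ↔ x.1 = y.1 ∧ (y.2 = σ x.2 ∨ x.2 = σ y.2) := by
  unfold base
  rw [SimpleGraph.fromRel_adj]
  constructor
  · rintro ⟨-, h | h⟩
    · exact ⟨h.1, Or.inl h.2⟩
    · exact ⟨h.1.symm, Or.inr h.2⟩
  · rintro ⟨h1, h | h⟩
    · refine ⟨?_, Or.inl ⟨h1, h⟩⟩
      rintro rfl
      exact h2 x.2 (by rw [← h, ← h])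
    · refine ⟨?_, Or.inr ⟨h1.symm, h⟩⟩
      rintro rfl
      exact h2 x.2 (by rw [← h, ← h])

/-- B1: the copies of the cycles -/
theorem base_two {U V : Type*} {σ : Equiv.Perm V} (h2 : ∀ v, σ (σ v) ≠ v) : Two (base (U := U) σ) := by
  rintro ⟨h, v⟩
  have h1 : (base (U := U) σ).neighborSet (h, v) = {(h, σ v), (h, σ.symm v)} := by
    ext ⟨h', v'⟩
    rw [SimpleGraph.mem_neighborSet, base_adj h2, Set.mem_insert_iff, Set.mem_singleton_iff,
      Prod.mk.injEq, Prod.mk.injEq, Equiv.eq_symm_apply]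
    constructor
    · rintro ⟨h3, h4 | h4⟩
      · exact Or.inl ⟨h3.symm, h4⟩
      · exact Or.inr ⟨h3.symm, h4.symm⟩
    · rintro (⟨h3, h4⟩ | ⟨h3, h4⟩)
      · exact ⟨h3.symm, Or.inl h4⟩
      · exact ⟨h3.symm, Or.inr h4.symm⟩
  rw [h1, Set.ncard_pair]
  intro h3
  rw [Prod.mk.injEq, Equiv.eq_symm_apply] at h3
  exact h2 v h3.2

private theorem b1_step {U V : Type*} {σ : Equiv.Perm V} (h2 : ∀ v, σ (σ v) ≠ v) (h : U) (v : V)
    (n : ℕ) : (base σ).Reachable (h, v) (h, (σ ^ n) v) := by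
  induction n with
  | zero => exact SimpleGraph.Reachable.refl _
  | succ n ih =>
    refine ih.trans (SimpleGraph.Adj.reachable ?_)
    rw [base_adj h2]
    refine ⟨rfl, Or.inl ?_⟩
    rw [pow_succ', Equiv.Perm.mul_apply]

theorem base_reach {U V : Type*} [Finite V] {σ : Equiv.Perm V} (h2 : ∀ v, σ (σ v) ≠ v) (x y : U × V) :
    (base σ).Reachable x y ↔ x.1 = y.1 ∧ σ.SameCycle x.2 y.2 := by
  constructor
  · rintro ⟨w⟩
    induction w with
    | nil => exact ⟨rfl, Equiv.Perm.SameCycle.refl _ _⟩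
    | cons hadj w ih =>
      rw [base_adj h2] at hadj
      refine ⟨hadj.1.trans ih.1, Equiv.Perm.SameCycle.trans ?_ ih.2⟩
      rcases hadj.2 with h | h
      · exact ⟨1, by rw [zpow_one]; exact h.symm⟩
      · exact Equiv.Perm.SameCycle.symm ⟨1, by rw [zpow_one]; exact h.symm⟩
  · rintro ⟨h1, h3⟩
    obtain ⟨hx, vx⟩ := x
    obtain ⟨hy, vy⟩ := y
    dsimp only at h1 h3
    subst h1
    obtain ⟨n, hn⟩ := h3.exists_nat_pow_eq
    rw [← hn]
    exact b1_step h2 _ _ _

end Pool.Agent.LibHP88
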