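import Mathlib
import Pool.Agent.LibHP88.Defs

/-! Row B2.
Key: if s((h, k), (h, σ k)) = s((h', k'), (h', σ k')) then h = h' and k = k' (Sym2.eq_iff; in the crossed case k = σ k' and σ k = k', so σ (σ k') = k', excluded by h2). And c w y = c w' y' implies w = w' (apply o, hc).
Now with i = (y, w), j = (y', w'): (1) p y = p y' and c w y = c w' y' give w = w', so y ≠ y' and hyp sib gives a contradiction. (2) p y = y' and c w y = c w y': y' ≠ ρ, so par (y ≠ ρ, p y ≠ ρ) gives c w y ≠ c w (p y): contradiction. (3) y = y', w = w': i = j, contradiction.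
-/

set_option autoImplicit false

namespace Pool.Agent.LibHP88

open scoped Classical

private theorem hpB2_key {U V : Type*} {σ : Equiv.Perm V} (h2 : ∀ v, σ (σ v) ≠ v) {h h' : U}
    {k k' : V} (he : s((h, k), (h, σ k)) = s((h', k'), (h', σ k'))) : h = h' ∧ k = k' := by
  rw [Sym2.eq_iff] at he
  rcases he with ⟨h1, _⟩ | ⟨h1, h3⟩
  · exact ⟨congrArg Prod.fst h1, congrArg Prod.snd h1⟩
  · have e1 : k = σ k' := congrArg Prod.snd h1
    have e2 : σ k = k' := congrArg Prod.snd h3
    exfalso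
    rw [e1] at e2
    exact h2 k' e2

/-- B2: the edges removed in the first stage are different -/
theorem stage1_ne {U V I : Type*} {H : SimpleGraph U} {G : SimpleGraph V} {σ : Equiv.Perm V} {o : V → I} {ρ : U}
    {p : U → U} {dep : U → ℕ} {c : I → U → V} (D : Data1 H G σ o ρ p dep c) (i j : U × I) (hi : i.1 ≠ ρ) (hj : j.1 ≠ ρ)
    (hij : i ≠ j) :
    s((p i.1, c i.2 i.1), (p i.1, σ (c i.2 i.1))) ≠ s((p j.1, c j.2 j.1), (p j.1, σ (c j.2 j.1))) ∧
      s((p i.1, c i.2 i.1), (p i.1, σ (c i.2 i.1))) ≠ s((j.1, c j.2 j.1), (j.1, σ (c j.2 j.1))) ∧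
      s((i.1, c i.2 i.1), (i.1, σ (c i.2 i.1))) ≠ s((j.1, c j.2 j.1), (j.1, σ (c j.2 j.1))) := by
  obtain ⟨y, w⟩ := i
  obtain ⟨y', w'⟩ := j
  have hw : c w y = c w' y' → w = w' := by
    intro h
    have h1 := D.hc w y
    have h3 := D.hc w' y'
    rw [← h1, ← h3, h]
  refine ⟨?_, ?_, ?_⟩
  · intro he
    obtain ⟨h1, h3⟩ := hpB2_key D.h2 he
    have h4 : w = w' := hw h3
    subst h4
    have hne : y ≠ y' := by
      rintro rfl
      exact hij rfl
    exact D.sib w y y' hi hj h1 hne h3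
  · intro he
    obtain ⟨h1, h3⟩ := hpB2_key D.h2 he
    have h4 : w = w' := hw h3
    subst h4
    have h5 : p y = y' := h1
    subst h5
    exact D.par w y hi hj h3
  · intro he
    obtain ⟨h1, h3⟩ := hpB2_key D.h2 he
    have h4 : w = w' := hw h3
    have h5 : y = y' := h1
    subst h4
    subst h5
    exact hij rfl

end Pool.Agent.LibHP88
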