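import Mathlib
import Pool.Agent.LibHP88.Defs
import Pool.Agent.LibHP88.B0
import Pool.Agent.LibHP88.B1

/-! Row B3.
i = (y, w), y ≠ ρ. Let K := {x : U × V | x.1 ∈ desc ρ p y ∧ o x.2 = w}. Claim: every edge x x' of link (base σ) ({i | i.1 ≠ ρ} \ {i}) satisfies x ∈ K ⟺ x' ∈ K. Base edges (base_adj): same first coordinate, and x.2, x'.2 are SameCycle, so same o (D.ho). Link edges for j = (y', w') ≠ (y, w), y' ≠ ρ: the ends (p y', c w' y'), (y', c w' y') have o = w' (D.hc). If w' ≠ w both ends are outside K. If w' = w then y' ≠ y and desc_step (B0) gives p y' ∈ desc y ⟺ y' ∈ desc y.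
So K is closed under reachability (induct on the walk). (y, c w y) ∈ K (desc_self), (p y, c w y) ∉ K (not_desc with D.lt). Hence not reachable.
-/

set_option autoImplicit false

namespace Pool.Agent.LibHP88

open scoped Classical

/-- B3: the merges of the first stage are acyclic -/
theorem stage1_acyclic {U V I : Type*} {H : SimpleGraph U} {G : SimpleGraph V} {σ : Equiv.Perm V} {o : V → I} {ρ : U}
    {p : U → U} {dep : U → ℕ} {c : I → U → V} (D : Data1 H G σ o ρ p dep c) (i : U × I) (hi : i.1 ≠ ρ) :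
    ¬ (link (base σ) ({i : U × I | i.1 ≠ ρ} \ {i}) (fun i => (p i.1, c i.2 i.1)) (fun i => (i.1, c i.2 i.1))).Reachable
      (p i.1, c i.2 i.1) (i.1, c i.2 i.1) := by
  obtain ⟨y, w⟩ := i
  have hy : y ≠ ρ := hi
  obtain ⟨K, hK⟩ : ∃ K : Set (U × V), K = {x | x.1 ∈ desc ρ p y ∧ o x.2 = w} := ⟨_, rfl⟩
  have hstep : ∀ a b : U × V, (link (base σ) ({i : U × I | i.1 ≠ ρ} \ {(y, w)})
      (fun i => (p i.1, c i.2 i.1)) (fun i => (i.1, c i.2 i.1))).Adj a b → (a ∈ K ↔ b ∈ K) := by
    intro a b hab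
    rw [hK]
    simp only [Set.mem_ofPred_eq]
    unfold link at hab
    rw [SimpleGraph.sup_adj] at hab
    rcases hab with hab | hab
    · rw [base_adj D.h2] at hab
      obtain ⟨h1, h3⟩ := hab
      have h4 : o a.2 = o b.2 := by
        rcases h3 with h3 | h3
        · rw [h3]
          exact (D.ho _ _).2 ((Equiv.Perm.sameCycle_apply_right).2 (Equiv.Perm.SameCycle.refl _ _))
        · rw [h3]
          exact (D.ho _ _).2 ((Equiv.Perm.sameCycle_apply_left).2 (Equiv.Perm.SameCycle.refl _ _))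
      rw [h1, h4]
    · rw [SimpleGraph.fromEdgeSet_adj] at hab
      obtain ⟨⟨j, hj, hj'⟩, _⟩ := hab
      obtain ⟨y', w'⟩ := j
      have hjρ : y' ≠ ρ := hj.1
      have hjne : ¬ ((y', w') = (y, w)) := hj.2
      have h1 : ((p y', c w' y').1 ∈ desc ρ p y ∧ o (p y', c w' y').2 = w) ↔
          ((y', c w' y').1 ∈ desc ρ p y ∧ o (y', c w' y').2 = w) := by
        change (p y' ∈ desc ρ p y ∧ o (c w' y') = w) ↔ (y' ∈ desc ρ p y ∧ o (c w' y') = w)
        rw [D.hc]
        by_cases hw : w' = w
        · have hne : y' ≠ y := by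
            intro h
            exact hjne (by rw [h, hw])
          rw [desc_step ρ p hjρ hne]
        · constructor
          · intro h
            exact absurd h.2 hw
          · intro h
            exact absurd h.2 hw
      rw [Sym2.eq_iff] at hj'
      rcases hj' with ⟨h3, h4⟩ | ⟨h3, h4⟩
      · rw [h3, h4]
        exact h1
      · rw [h3, h4]
        exact h1.symm
  have hreach : ∀ a b : U × V, (link (base σ) ({i : U × I | i.1 ≠ ρ} \ {(y, w)})
      (fun i => (p i.1, c i.2 i.1)) (fun i => (i.1, c i.2 i.1))).Reachable a b → (a ∈ K ↔ b ∈ K) := by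
    rintro a b ⟨q⟩
    induction q with
    | nil => exact Iff.rfl
    | cons hab _ ih => exact (hstep _ _ hab).trans ih
  intro hr
  have h1 := (hreach _ _ hr).2 (by
    rw [hK]
    exact ⟨desc_self ρ p y, D.hc w y⟩)
  rw [hK] at h1
  exact not_desc D.lt hy h1.1

end Pool.Agent.LibHP88
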