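import Mathlib
import Pool.Agent.LibHP88.Defs
import Pool.Agent.LibHP88.A3
import Pool.Agent.LibHP88.B1
import Pool.Agent.LibHP88.B2
import Pool.Agent.LibHP88.B3

/-! Row B4.
plumb_main (A3) with R = base σ (base_two, B1), t = {i | i.1 ≠ ρ}, edges: (h, k) and (h, σ k) are adjacent in base (base_adj); hne = stage1_ne (B2), hac = stage1_acyclic (B3). It gives Two (stage1 ..) and: stage1-reachability = link-reachability. It remains: (link (base σ) t ..).Reachable x y ⟺ o x.2 = o y.2.
→: base edges preserve o (base_adj and D.ho: v, σ v are SameCycle); link edges have the same second coordinate.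
←: enough: every (h, v) with o v = w is link-reachable to (ρ, c w ρ). Induct on dep h: (h, v) is base-reachable to (h, c w h) (base_reach: o v = w = o (c w h), D.ho, D.hc). If h = ρ done; otherwise (h, c w h) - (p h, c w h) is a link edge (index (h, w)) and dep (p h) < dep h (D.lt).
-/

set_option autoImplicit false

namespace Pool.Agent.LibHP88

open scoped Classical

theorem B4_link_adj {X ι : Type*} {R : SimpleGraph X} {t : Set ι} {a c : ι → X} {x y : X} :
    (link R t a c).Adj x y ↔ R.Adj x y ∨ ((∃ i ∈ t, s(x, y) = s(a i, c i)) ∧ x ≠ y) := by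
  unfold link
  rw [SimpleGraph.sup_adj, SimpleGraph.fromEdgeSet_adj]
  rfl

/-- B4: after the first stage the components are the cycles of `σ` -/
theorem stage1_main {U V I : Type*} [Finite U] [Finite V] [Finite I] {H : SimpleGraph U} {G : SimpleGraph V}
    {σ : Equiv.Perm V} {o : V → I} {ρ : U} {p : U → U} {dep : U → ℕ} {c : I → U → V} (D : Data1 H G σ o ρ p dep c) :
    Two (stage1 σ ρ p c) ∧ ∀ x y, (stage1 σ ρ p c).Reachable x y ↔ o x.2 = o y.2 := by
  have hb : ∀ (h : U) (k : V), (base (U := U) σ).Adj (h, k) (h, σ k) := fun h k =>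
    (base_adj D.h2 _ _).2 ⟨rfl, Or.inl rfl⟩
  obtain ⟨h2, hr⟩ := plumb_main (base_two (U := U) D.h2) {i : U × I | i.1 ≠ ρ}
    (fun i => (p i.1, c i.2 i.1)) (fun i => (p i.1, σ (c i.2 i.1)))
    (fun i => (i.1, c i.2 i.1)) (fun i => (i.1, σ (c i.2 i.1)))
    (fun i _ => hb _ _) (fun i _ => hb _ _)
    (fun i hi j hj hij => stage1_ne D i j hi hj hij) (fun i hi => stage1_acyclic D i hi)
  refine ⟨h2, fun x y => (hr x y).trans ?_⟩
  have hσo : ∀ v, o v = o (σ v) := fun v => (D.ho _ _).2 ⟨1, by simp⟩
  constructor
  · rintro ⟨w⟩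
    induction w with
    | nil => rfl
    | cons hadj _ ih =>
      refine Eq.trans ?_ ih
      rw [B4_link_adj] at hadj
      rcases hadj with h | ⟨⟨i, -, h⟩, -⟩
      · rcases ((base_adj D.h2 _ _).1 h).2 with h' | h'
        · rw [h']
          exact hσo _
        · rw [h']
          exact (hσo _).symm
      · rw [Sym2.eq_iff] at h
        rcases h with ⟨h1, h2⟩ | ⟨h1, h2⟩
        · rw [h1, h2]
        · rw [h1, h2]
  · have key : ∀ (n : ℕ) (h : U) (v : V), dep h = n →
        (link (base σ) {i : U × I | i.1 ≠ ρ} (fun i => (p i.1, c i.2 i.1))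
          (fun i => (i.1, c i.2 i.1))).Reachable (h, v) (ρ, c (o v) ρ) := by
      intro n
      induction n using Nat.strong_induction_on with
      | _ n ih =>
        intro h v hn
        have h1 : (link (base σ) {i : U × I | i.1 ≠ ρ} (fun i => (p i.1, c i.2 i.1))
            (fun i => (i.1, c i.2 i.1))).Reachable (h, v) (h, c (o v) h) := by
          have h3 : (base (U := U) σ).Reachable (h, v) (h, c (o v) h) := by
            rw [base_reach D.h2]
            exact ⟨rfl, (D.ho _ _).1 (D.hc _ _).symm⟩
          exact h3.mono fun x y hxy => B4_link_adj.2 (Or.inl hxy)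
        refine h1.trans ?_
        by_cases hρ : h = ρ
        · subst hρ
          exact SimpleGraph.Reachable.refl _
        · have hlt := D.lt h hρ
          have h4 : (link (base σ) {i : U × I | i.1 ≠ ρ} (fun i => (p i.1, c i.2 i.1))
              (fun i => (i.1, c i.2 i.1))).Adj (h, c (o v) h) (p h, c (o v) h) := by
            refine B4_link_adj.2 (Or.inr ⟨⟨(h, o v), hρ, Sym2.eq_swap⟩, ?_⟩)
            intro e
            have e1 : h = p h := congrArg Prod.fst e
            rw [← e1] at hlt
            exact lt_irrefl _ hlt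
          have h5 := ih (dep (p h)) (hn ▸ hlt) (p h) (c (o v) h) rfl
          rw [D.hc] at h5
          exact h4.reachable.trans h5
    intro hxy
    have h6 := key _ x.1 x.2 rfl
    have h7 := key _ y.1 y.2 rfl
    rw [hxy] at h6
    exact h6.trans h7.symm

end Pool.Agent.LibHP88
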