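import Mathlib
import Pool.Agent.LibHP88.Defs
import Pool.Agent.LibHP88.B1

/-! Row B5.
stage1_le: an edge of stage1 is an edge of base (same first coordinate, second coordinates v, σ v adjacent in G by D.hσ: SimpleGraph.boxProd_adj), or an added edge (p y, v)(y, v) with v = c w y or σ (c w y), y ≠ ρ: H.Adj y (p y) by D.adj.
rung: for y ≠ ρ and v = c w y or v = σ (c w y) the pair (p y, v), (y, v) is an added edge of stage1 (index (y, w)); p y ≠ y because D.adj.
-/

set_option autoImplicit false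

namespace Pool.Agent.LibHP88

open scoped Classical

/-- B5: the first stage lies in the Cartesian product -/
theorem stage1_le {U V I : Type*} {H : SimpleGraph U} {G : SimpleGraph V} {σ : Equiv.Perm V} {o : V → I} {ρ : U}
    {p : U → U} {dep : U → ℕ} {c : I → U → V} (D : Data1 H G σ o ρ p dep c) : stage1 σ ρ p c ≤ H.boxProd G := by
  have key : ∀ (y : U) (v : V), y ≠ ρ → ∀ x x' : U × V, s(x, x') = s((p y, v), (y, v)) → (H.boxProd G).Adj x x' := by
    intro y v hy x x' hs
    rw [SimpleGraph.boxProd_adj]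
    left
    rcases Sym2.eq_iff.1 hs with ⟨h1, h2⟩ | ⟨h1, h2⟩
    · rw [h1, h2]
      exact ⟨(D.adj y hy).symm, rfl⟩
    · rw [h1, h2]
      exact ⟨D.adj y hy, rfl⟩
  intro x x' hx
  unfold stage1 plumb at hx
  rw [SimpleGraph.fromEdgeSet_adj] at hx
  obtain ⟨h1, -⟩ := hx
  rcases h1 with h1 | h1
  · have h2 : (base σ).Adj x x' := h1.1
    rw [base_adj D.h2] at h2
    obtain ⟨e1, e2⟩ := h2
    rw [SimpleGraph.boxProd_adj]
    right
    rcases e2 with e2 | e2
    · refine ⟨?_, e1⟩
      rw [e2]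
      exact D.hσ _
    · refine ⟨?_, e1⟩
      rw [e2]
      exact (D.hσ _).symm
  · obtain ⟨i, hi, h3⟩ := h1
    rcases h3 with h3 | h3
    · exact key i.1 _ hi x x' h3
    · exact key i.1 _ hi x x' h3

/-- B5: the rungs -/
theorem rung {U V I : Type*} {H : SimpleGraph U} {G : SimpleGraph V} {σ : Equiv.Perm V} {o : V → I} {ρ : U}
    {p : U → U} {dep : U → ℕ} {c : I → U → V} (D : Data1 H G σ o ρ p dep c) {y : U} (hy : y ≠ ρ) {w : I} {v : V}
    (hv : c w y = v ∨ σ (c w y) = v) : (stage1 σ ρ p c).Adj (p y, v) (y, v) := by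
  unfold stage1 plumb
  rw [SimpleGraph.fromEdgeSet_adj]
  constructor
  · right
    refine ⟨(y, w), hy, ?_⟩
    rcases hv with hv | hv
    · left
      rw [← hv]
    · right
      rw [← hv]
  · intro h
    exact (D.adj y hy).ne (congrArg Prod.fst h).symm

end Pool.Agent.LibHP88
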