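import Mathlib
import Pool.Agent.LibHP88.Defs
import Pool.Agent.LibHP88.B0
import Pool.Agent.LibHP88.B4

/-! Row C1.
stage2_ne: key: if s((p y, v), (y, v)) = s((p y', v'), (y', v')) with y, y' ≠ ρ then y = y' and v = v' (Sym2.eq_iff; the crossed case y = p y', p y = y' contradicts D.lt: dep (p y) < dep y, dep (p y') < dep y'). With y w = y w' hyp yinj gives w = w'. So all three are immediate for w ≠ w'.
stage2_acyclic: K := {x : U × V | o x.2 ∈ desc ω P w}. Every edge of link (stage1 ..) ({w | w ≠ ω} \ {w}) .. preserves membership: stage1 edges preserve o x.2 (B4 applied to D.toData1: adjacent vertices are reachable). Link edges for w' ≠ w, w' ≠ ω: ends (p (y w'), l w'), (p (y w'), r w') with o (l w') = w', o (r w') = P w' (ol, or), and w' ∈ desc w ⟺ P w' ∈ desc w (desc_step). (p (y w), l w) ∈ K (desc_self), (p (y w), r w) ∉ K (not_desc with Plt).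
-/

set_option autoImplicit false

namespace Pool.Agent.LibHP88

open scoped Classical

theorem C1_key {U V : Type*} {ρ : U} {p : U → U} {dep : U → ℕ} (hlt : ∀ v, v ≠ ρ → dep (p v) < dep v) {y y' : U}
    (hy : y ≠ ρ) (hy' : y' ≠ ρ) {v v' : V} (h : s((p y, v), (y, v)) = s((p y', v'), (y', v'))) : y = y' := by
  rcases Sym2.eq_iff.1 h with ⟨-, h2⟩ | ⟨h1, h2⟩
  · exact congrArg Prod.fst h2
  · have e1 : p y = y' := congrArg Prod.fst h1
    have e2 : y = p y' := congrArg Prod.fst h2
    have l1 := hlt y hy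
    have l2 := hlt y' hy'
    rw [e1] at l1
    rw [← e2] at l2
    omega

/-- C1: the edges removed in the second stage are different -/
theorem stage2_ne {U V I : Type*} {H : SimpleGraph U} {G : SimpleGraph V} {σ : Equiv.Perm V} {o : V → I} {ρ : U}
    {p : U → U} {dep : U → ℕ} {c : I → U → V} {ω : I} {P : I → I} {depI : I → ℕ} {l r : I → V} {y : I → U}
    (D : Data2 H G σ o ρ p dep c ω P depI l r y) (w w' : I) (hw : w ≠ ω) (hw' : w' ≠ ω) (h : w ≠ w') :
    s((p (y w), l w), (y w, l w)) ≠ s((p (y w'), l w'), (y w', l w')) ∧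
      s((p (y w), l w), (y w, l w)) ≠ s((p (y w'), r w'), (y w', r w')) ∧
      s((p (y w), r w), (y w, r w)) ≠ s((p (y w'), r w'), (y w', r w')) := by
  refine ⟨fun e => ?_, fun e => ?_, fun e => ?_⟩
  · exact h (D.yinj w w' hw hw' (C1_key D.lt (D.yρ w hw) (D.yρ w' hw') e))
  · exact h (D.yinj w w' hw hw' (C1_key D.lt (D.yρ w hw) (D.yρ w' hw') e))
  · exact h (D.yinj w w' hw hw' (C1_key D.lt (D.yρ w hw) (D.yρ w' hw') e))

theorem C1_closed {X : Type*} {R : SimpleGraph X} {K : Set X} (h : ∀ x x', R.Adj x x' → x ∈ K → x' ∈ K) {a b : X}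
    (hab : R.Reachable a b) (ha : a ∈ K) : b ∈ K := by
  obtain ⟨q⟩ := hab
  induction q with
  | nil => exact ha
  | cons e _ ih => exact ih (h _ _ e ha)

/-- C1: the merges of the second stage are acyclic -/
theorem stage2_acyclic {U V I : Type*} [Finite U] [Finite V] [Finite I] {H : SimpleGraph U} {G : SimpleGraph V}
    {σ : Equiv.Perm V} {o : V → I} {ρ : U} {p : U → U} {dep : U → ℕ} {c : I → U → V} {ω : I} {P : I → I} {depI : I → ℕ}
    {l r : I → V} {y : I → U} (D : Data2 H G σ o ρ p dep c ω P depI l r y) (w : I) (hw : w ≠ ω) :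
    ¬ (link (stage1 σ ρ p c) ({w : I | w ≠ ω} \ {w}) (fun w => (p (y w), l w)) (fun w => (p (y w), r w))).Reachable
      (p (y w), l w) (p (y w), r w) := by
  intro hreach
  have hcl : ∀ x x' : U × V, (link (stage1 σ ρ p c) ({w : I | w ≠ ω} \ {w}) (fun w => (p (y w), l w))
      (fun w => (p (y w), r w))).Adj x x' → x ∈ {x : U × V | o x.2 ∈ desc ω P w} →
      x' ∈ {x : U × V | o x.2 ∈ desc ω P w} := by
    intro x x' hx hK
    simp only [Set.mem_ofPred_eq] at hK ⊢
    unfold link at hx
    rw [SimpleGraph.sup_adj, SimpleGraph.fromEdgeSet_adj] at hx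
    rcases hx with hx | ⟨⟨w', ⟨hw'ω, hw'w⟩, he⟩, -⟩
    · have h1 := ((stage1_main D.toData1).2 x x').1 hx.reachable
      rw [← h1]
      exact hK
    · have hne : w' ≠ w := hw'w
      have hst := desc_step ω P (y := w) (h := w') hw'ω hne
      rcases Sym2.eq_iff.1 he with ⟨e1, e2⟩ | ⟨e1, e2⟩
      · rw [e1] at hK
        rw [e2]
        change o (l w') ∈ desc ω P w at hK
        change o (r w') ∈ desc ω P w
        rw [D.ol w' hw'ω] at hK
        rw [D.or w' hw'ω]
        exact hst.1 hK
      · rw [e1] at hK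
        rw [e2]
        change o (r w') ∈ desc ω P w at hK
        change o (l w') ∈ desc ω P w
        rw [D.or w' hw'ω] at hK
        rw [D.ol w' hw'ω]
        exact hst.2 hK
  have h1 : (p (y w), l w) ∈ {x : U × V | o x.2 ∈ desc ω P w} := by
    change o (l w) ∈ desc ω P w
    rw [D.ol w hw]
    exact desc_self ω P w
  have h2 := C1_closed hcl hreach h1
  change o (r w) ∈ desc ω P w at h2
  rw [D.or w hw] at h2
  exact not_desc D.Plt hw h2

end Pool.Agent.LibHP88
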