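import Mathlib
import Pool.Agent.LibHP88.Defs
import Pool.Agent.LibHP88.A3
import Pool.Agent.LibHP88.A4
import Pool.Agent.LibHP88.B4
import Pool.Agent.LibHP88.B5
import Pool.Agent.LibHP88.C1

/-! Row C2.
plumb_main (A3) with R = stage1 (Two by B4), t = {w | w ≠ ω}: the edges (p (y w), l w)(y w, l w) and (p (y w), r w)(y w, r w) are rungs of stage1 (B5 rung with cl, cr); hne, hac from C1. So Two (stage2 ..) and stage2-reachability = link-reachability.
Connected: nonempty (V × U nonempty because w0 = ω: take c ω ρ). Every x is link-reachable to (ρ, c ω ρ): induct on depI (o x.2): if o x.2 = ω then stage1-reachable (B4: same o; hc). Otherwise w := o x.2 ≠ ω: x is stage1-reachable to (p (y w), l w) (same o by ol), link edge to (p (y w), r w), with o = P w, depI (P w) < depI w.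
stage2 ≤ H □ G: stage1_le (B5) for the stage1 edges, added edges (p (y w), l w)(p (y w), r w) and (y w, l w)(y w, r w): G.Adj (l w) (r w) (lr). Then ham_of_two (A4).
-/

set_option autoImplicit false

namespace Pool.Agent.LibHP88

open scoped Classical

/-- C2: the core theorem: from the data to a Hamiltonian cycle -/
theorem ham_core {U V I : Type*} [Fintype U] [Fintype V] [Finite I] [DecidableEq (U × V)] {H : SimpleGraph U}
    {G : SimpleGraph V} {σ : Equiv.Perm V} {o : V → I} {ρ : U} {p : U → U} {dep : U → ℕ} {c : I → U → V} {ω : I}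
    {P : I → I} {depI : I → ℕ} {l r : I → V} {y : I → U} (D : Data2 H G σ o ρ p dep c ω P depI l r y) :
    (H.boxProd G).IsHamiltonian := by
  obtain ⟨hT1, hR1⟩ := stage1_main D.toData1
  obtain ⟨hT2, hR2⟩ := plumb_main hT1 {w : I | w ≠ ω} (fun w => (p (y w), l w)) (fun w => (y w, l w))
    (fun w => (p (y w), r w)) (fun w => (y w, r w))
    (fun w hw => rung D.toData1 (D.yρ w hw) (D.cl w hw))
    (fun w hw => rung D.toData1 (D.yρ w hw) (D.cr w hw))
    (fun w hw w' hw' h => stage2_ne D w w' hw hw' h)
    (fun w hw => stage2_acyclic D w hw)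
  -- connectedness
  have hconn : ∀ (n : ℕ) (x : U × V), depI (o x.2) = n →
      (link (stage1 σ ρ p c) {w : I | w ≠ ω} (fun w => (p (y w), l w)) (fun w => (p (y w), r w))).Reachable
        x (ρ, c ω ρ) := by
    intro n
    induction n using Nat.strong_induction_on with
    | _ n ih =>
      intro x hx
      have hmono : stage1 σ ρ p c ≤ link (stage1 σ ρ p c) {w : I | w ≠ ω} (fun w => (p (y w), l w))
          (fun w => (p (y w), r w)) := by
        unfold link
        exact le_sup_left
      by_cases hω : o x.2 = ω
      · refine SimpleGraph.Reachable.mono hmono ((hR1 x (ρ, c ω ρ)).2 ?_)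
        rw [hω]
        exact (D.hc ω ρ).symm
      · set w : I := o x.2 with hw
        have h1 : (stage1 σ ρ p c).Reachable x (p (y w), l w) := by
          refine (hR1 _ _).2 ?_
          exact (D.ol w hω).symm
        have hlr : (p (y w), l w) ≠ (p (y w), r w) := by
          intro e
          exact (D.lr w hω).ne (congrArg Prod.snd e)
        have h2 : (link (stage1 σ ρ p c) {w : I | w ≠ ω} (fun w => (p (y w), l w))
            (fun w => (p (y w), r w))).Adj (p (y w), l w) (p (y w), r w) := by
          unfold link
          rw [SimpleGraph.sup_adj, SimpleGraph.fromEdgeSet_adj]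
          right
          exact ⟨⟨w, hω, rfl⟩, hlr⟩
        have h3 : depI (o (r w)) < n := by
          rw [D.or w hω, ← hx]
          exact D.Plt w hω
        exact ((h1.mono hmono).trans h2.reachable).trans (ih _ h3 (p (y w), r w) rfl)
  have hC : (stage2 σ ρ p c ω l r y).Connected := by
    have : Nonempty (U × V) := ⟨(ρ, c ω ρ)⟩
    refine ⟨fun x x' => ?_⟩
    refine (hR2 x x').2 ?_
    exact (hconn _ x rfl).trans (hconn _ x' rfl).symm
  have hle : stage2 σ ρ p c ω l r y ≤ H.boxProd G := by
    intro x x' hx
    unfold stage2 plumb at hx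
    rw [SimpleGraph.fromEdgeSet_adj] at hx
    obtain ⟨h1, -⟩ := hx
    rcases h1 with h1 | ⟨w, hw, h1⟩
    · exact stage1_le D.toData1 h1.1
    · have key : ∀ u : U, s(x, x') = s((u, l w), (u, r w)) → (H.boxProd G).Adj x x' := by
        intro u hs
        rw [SimpleGraph.boxProd_adj]
        right
        rcases Sym2.eq_iff.1 hs with ⟨e1, e2⟩ | ⟨e1, e2⟩
        · rw [e1, e2]
          exact ⟨D.lr w hw, rfl⟩
        · rw [e1, e2]
          exact ⟨(D.lr w hw).symm, rfl⟩
      rcases h1 with h1 | h1
      · exact key _ h1
      · exact key _ h1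
  exact ham_of_two hle hT2 hC

end Pool.Agent.LibHP88
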