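import Mathlib
import Pool.Agent.LibHP88.Defs

/-! Row F1.
exists_rooted: dep v := G.dist ρ v. For v ≠ ρ take a shortest walk from v to ρ (G.dist_comm; Reachable.exists_walk_length_eq_dist), not nil: cons of an edge v u and a walk of length dist - 1, so dist ρ u < dist ρ v (dist_le). Choose p v := u (p ρ := ρ).
tree_rooted: for a tree T, with dep v := T.dist ρ v. Adjacent vertices of a tree have distances differing by exactly one (SimpleGraph.IsTree.dist_ne_of_adj or: IsAcyclic is bipartite; Adj.diff_dist_adj), and a vertex v ≠ ρ has exactly ONE neighbour u with dist ρ u < dist ρ v (two such neighbours would give two different paths from v to ρ: IsAcyclic.path_unique / IsTree.existsUnique_path: the second vertex of the unique path from v to ρ). Take p from exists_rooted. Then T.Adj x y: one of the two is farther from ρ, say dist ρ y < dist ρ x: x ≠ ρ and y = p x. So N(x) = ch x ∪ {p x} (disjoint: a child is farther) for x ≠ ρ and N(ρ) = ch ρ. ncard (finite).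
-/

set_option autoImplicit false

namespace Pool.Agent.LibHP88

open scoped Classical

private theorem F1_aux {U : Type*} {G : SimpleGraph U} (hG : G.Connected) (ρ : U) :
    ∃ p : U → U, ∀ v, v ≠ ρ → G.Adj v (p v) ∧ G.dist ρ (p v) < G.dist ρ v := by
  have key : ∀ v, v ≠ ρ → ∃ u, G.Adj v u ∧ G.dist ρ u < G.dist ρ v := by
    intro v hv
    obtain ⟨w, hw⟩ := hG.exists_walk_length_eq_dist v ρ
    cases w with
    | nil => exact absurd rfl hv
    | cons h w' =>
      rename_i u
      refine ⟨u, h, ?_⟩
      rw [SimpleGraph.dist_comm (u := ρ) (v := u), SimpleGraph.dist_comm (u := ρ) (v := v), ← hw,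
        SimpleGraph.Walk.length_cons]
      exact Nat.lt_succ_of_le (SimpleGraph.dist_le w')
  choose! p hp using key
  exact ⟨p, hp⟩

private theorem F1_pen {U : Type*} {T : SimpleGraph U} (hT : T.IsTree) (ρ v : U) :
    ∃ z, ∀ u, T.Adj v u → T.dist ρ u < T.dist ρ v → u = z := by
  obtain ⟨q, hq, hq'⟩ := (hT.connected ρ v).exists_path_of_dist
  refine ⟨q.penultimate, fun u hu hd => ?_⟩
  obtain ⟨p, hp, hp'⟩ := (hT.connected ρ u).exists_path_of_dist
  have hv : v ∉ p.support := by
    intro hv
    have h1 := p.length_takeUntil_le_length hv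
    have h2 := SimpleGraph.dist_le (p.takeUntil v hv)
    omega
  have h3 := hT.isAcyclic.mem_support_of_ne_mem_support_of_adj_of_isPath hq hp hu hv
  exact hT.isAcyclic.eq_penultimate_of_adj_end hq hu h3

/-- F1: a connected graph has a rooted spanning tree -/
theorem exists_rooted {U : Type*} {G : SimpleGraph U} (hG : G.Connected) (ρ : U) : ∃ p dep, Rooted G ρ p dep := by
  obtain ⟨p, hp⟩ := F1_aux hG ρ
  exact ⟨p, fun v => G.dist ρ v, ⟨fun v hv => (hp v hv).1, fun v hv => (hp v hv).2⟩⟩

/-- F1: rooting a tree -/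
theorem tree_rooted {U : Type*} [Finite U] {T : SimpleGraph U} (hT : T.IsTree) (ρ : U) :
    ∃ p dep, Rooted T ρ p dep ∧ (∀ x y, T.Adj x y → (x ≠ ρ ∧ p x = y) ∨ (y ≠ ρ ∧ p y = x)) ∧
      (∀ x, x ≠ ρ → (ch ρ p x).ncard + 1 = dg T x) ∧ (ch ρ p ρ).ncard = dg T ρ := by
  obtain ⟨p, hp⟩ := F1_aux hT.connected ρ
  have hadj : ∀ x y, T.Adj x y → (x ≠ ρ ∧ p x = y) ∨ (y ≠ ρ ∧ p y = x) := by
    have one : ∀ x y, T.Adj x y → T.dist ρ x = T.dist ρ y + 1 → x ≠ ρ ∧ p x = y := by
      intro x y hxy hd
      have hx : x ≠ ρ := by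
        rintro rfl
        rw [SimpleGraph.dist_self] at hd
        omega
      obtain ⟨z, hz⟩ := F1_pen hT ρ x
      exact ⟨hx, (hz _ (hp x hx).1 (hp x hx).2).trans (hz _ hxy (by omega)).symm⟩
    intro x y hxy
    rcases hT.dist_eq_dist_add_one_of_adj ρ hxy with h | h
    · exact Or.inl (one x y hxy h)
    · exact Or.inr (one y x hxy.symm h)
  refine ⟨p, fun v => T.dist ρ v, ⟨fun v hv => (hp v hv).1, fun v hv => (hp v hv).2⟩, hadj,
    fun x hx => ?_, ?_⟩
  · have h1 : T.neighborSet x = insert (p x) (ch ρ p x) := by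
      ext y
      constructor
      · intro hy
        rcases hadj x y hy with h | h
        · exact Set.mem_insert_iff.2 (Or.inl h.2.symm)
        · exact Set.mem_insert_iff.2 (Or.inr h)
      · intro hy
        rcases Set.mem_insert_iff.1 hy with h | h
        · rw [h]
          exact (hp x hx).1
        · have h2 := (hp y h.1).1
          rw [h.2] at h2
          exact h2.symm
    have h2 : p x ∉ ch ρ p x := by
      rintro ⟨h3, h4⟩
      have h5 := (hp _ h3).2
      have h6 := (hp _ hx).2
      rw [h4] at h5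
      omega
    unfold dg
    rw [h1, Set.ncard_insert_of_notMem h2 (Set.toFinite _)]
  · have h1 : T.neighborSet ρ = ch ρ p ρ := by
      ext y
      constructor
      · intro hy
        rcases hadj ρ y hy with h | h
        · exact absurd rfl h.1
        · exact h
      · intro h
        have h2 := (hp y h.1).1
        rw [h.2] at h2
        exact h2.symm
    unfold dg
    rw [h1]

end Pool.Agent.LibHP88
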