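import Mathlib
import Pool.Agent.LibHP88.Defs

/-! Row F2.
Let Int := {x | (ch ρ p x).Nonempty}. Every y ≠ ρ lies in exactly one ch ρ p x (x = p y), so card U - 1 = Σ_x (ch x).ncard ≤ 2 |Int| + 1 (the root contributes at most 3, the others at most 2 and only if they are in Int; if U = {ρ} trivial). So 2 |Int| ≥ card U - 2 ≥ 3 card I - 2, hence |Int| ≥ card I - 1 (omega). So there is an injection ψ from {w // w ≠ ω} to Int (Function.Embedding.nonempty_of_card_le or Finset version). y w := a chosen element of ch ρ p (ψ w) for w ≠ ω, y ω := ρ. Then p (y w) = ψ w is injective.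
-/

set_option autoImplicit false

namespace Pool.Agent.LibHP88

open scoped Classical

/-- F2: tree edges with different parents -/
theorem pick {U I : Type*} [Fintype U] [Fintype I] {H : SimpleGraph U} {ρ : U} {p : U → U} {dep : U → ℕ}
    (hT : Tree3 H ρ p dep) (hcard : 3 * Fintype.card I ≤ Fintype.card U) (ω : I) :
    ∃ y : I → U, (∀ w, w ≠ ω → y w ≠ ρ) ∧ ∀ w w', w ≠ ω → w' ≠ ω → p (y w) = p (y w') → w = w' := by
  set S : Finset U := (Finset.univ.erase ρ).image p with hS
  have hfib : ∀ b : U, ((Finset.univ.erase ρ).filter (fun a => p a = b)).card = (ch ρ p b).ncard := by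
    intro b
    rw [← Set.ncard_coe_finset]
    congr 1
    ext a
    simp [ch]
  have h1 : (Finset.univ.erase ρ).card = ∑ b ∈ S, (ch ρ p b).ncard := by
    rw [Finset.card_eq_sum_card_image p (Finset.univ.erase ρ)]
    exact Finset.sum_congr rfl (fun b _ => hfib b)
  have h2 : ∑ b ∈ S, (ch ρ p b).ncard ≤ ∑ b ∈ S, (2 + if b = ρ then 1 else 0) := by
    refine Finset.sum_le_sum (fun b _ => ?_)
    by_cases hb : b = ρ
    · rw [if_pos hb, hb]
      exact hT.root
    · rw [if_neg hb]
      exact hT.inner b hb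
  have h3 : ∑ b ∈ S, (2 + if b = ρ then 1 else 0) ≤ 2 * S.card + 1 := by
    rw [Finset.sum_add_distrib, Finset.sum_const, smul_eq_mul, mul_comm, Finset.sum_ite_eq']
    split_ifs <;> omega
  have h4 : (Finset.univ.erase ρ).card = Fintype.card U - 1 := by
    rw [Finset.card_erase_of_mem (Finset.mem_univ ρ), Finset.card_univ]
  have h5 : 1 ≤ Fintype.card I := Fintype.card_pos_iff.2 ⟨ω⟩
  have h6 : Fintype.card I - 1 ≤ S.card := by omega
  have h7 : Fintype.card {w : I // w ≠ ω} ≤ Fintype.card S := by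
    rw [Fintype.card_coe]
    have h8 : Fintype.card {w : I // w ≠ ω} = Fintype.card I - 1 := by
      rw [Fintype.card_subtype_compl, Fintype.card_subtype_eq]
    omega
  obtain ⟨ψ⟩ := Function.Embedding.nonempty_of_card_le h7
  have h9 : ∀ x : S, ∃ a : U, a ≠ ρ ∧ p a = x := by
    intro x
    obtain ⟨a, ha, hax⟩ := Finset.mem_image.1 x.2
    exact ⟨a, Finset.ne_of_mem_erase ha, hax⟩
  choose g hg1 hg2 using h9
  refine ⟨fun w => if h : w ≠ ω then g (ψ ⟨w, h⟩) else ρ, ?_, ?_⟩
  · intro w hw
    simp only [dif_pos hw]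
    exact hg1 _
  · intro w w' hw hw' h
    simp only [dif_pos hw, dif_pos hw'] at h
    rw [hg2, hg2] at h
    have h10 := ψ.injective (Subtype.ext h)
    exact congrArg Subtype.val h10

end Pool.Agent.LibHP88
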