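import Mathlib
import Pool.Agent.LibHP88.Defs

/-! Row F3.
local_col: A finite, |K| ≥ 3; F = ∅ and |A| ≤ 3, or F a singleton and |A| ≤ 2: in both cases |A| + |F| ≤ 3 (F = forbidden colours). At most one element y0 of A lies in Q; L y0 has at least two elements, so (L y0) \ F is nonempty if F.ncard ≤ 1: choose f y0 in it. The other elements of A get distinct colours from K \ (F ∪ {f y0}): there are at most 3 - |F| - 1 of them (injection: Finset/Set card, e.g. Function.Embedding.nonempty_of_card_le, or Set.exists_injOn_... ). If A ∩ Q = ∅: an injection of A into K \ F.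
colour: define c by recursion along the parent function (well founded: WellFounded.fix for measure dep on vertices, or strong induction on n for the statement: there is c which satisfies all conditions for the vertices of dep ≤ n, then take n large; the first is easier): for every x : U and colour k let f x k := a function from local_col for A = ch ρ p x, F = ∅ if x = ρ and F = {k} if x ≠ ρ. Put c ρ := any colour and c y := f (p y) (c (p y)) y for y ≠ ρ. Siblings: same parent x and same k: injective on ch x. Parent: c y ≠ c (p y) for p y ≠ ρ because F = {c (p y)}. Lists: f y ∈ L y for y ∈ Q. Hypothesis of local_col: Q ∩ ch x has at most one element because p is injective on Q.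
-/

set_option autoImplicit false

namespace Pool.Agent.LibHP88

open scoped Classical

theorem F3_inj {U K : Type*} [Finite U] [Finite K] (hK : 3 ≤ Nat.card K) (A : Set U) (F : Set K)
    (hA : A.ncard + F.ncard ≤ 3) : ∃ f : U → K, Set.InjOn f A ∧ ∀ y ∈ A, f y ∉ F := by
  have : Nonempty K := (Nat.card_pos_iff.1 (by omega)).1
  have h1 : A.ncard ≤ Fᶜ.ncard := by
    have h2 := Set.ncard_add_ncard_compl F
    omega
  have h2 : A.encard ≤ Fᶜ.encard := by
    rw [← (Set.toFinite A).cast_ncard_eq, ← (Set.toFinite Fᶜ).cast_ncard_eq]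
    exact_mod_cast h1
  obtain ⟨f, hf, hfi⟩ := (Set.toFinite A).exists_injOn_of_encard_le h2
  exact ⟨f, hfi, fun y hy => hf hy⟩

/-- F3: colouring the children of one vertex -/
theorem local_col {U K : Type*} [Finite U] [Finite K] (hK : 3 ≤ Nat.card K) (A Q : Set U) (F : Set K) (L : U → Set K)
    (hA : A.ncard + F.ncard ≤ 3) (hF : F.ncard ≤ 1) (hQ : ∀ y ∈ A, ∀ y' ∈ A, y ∈ Q → y' ∈ Q → y = y')
    (hL : ∀ y ∈ Q, 2 ≤ (L y).ncard) :
    ∃ f : U → K, Set.InjOn f A ∧ (∀ y ∈ A, f y ∉ F) ∧ ∀ y ∈ A, y ∈ Q → f y ∈ L y := by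
  by_cases h0 : ∃ y0 ∈ A, y0 ∈ Q
  · obtain ⟨y0, hy0A, hy0Q⟩ := h0
    have h1 : ∃ k0, k0 ∈ L y0 ∧ k0 ∉ F := by
      by_contra hcon
      push Not at hcon
      have h2 : (L y0).ncard ≤ F.ncard := Set.ncard_le_ncard (fun k hk => hcon k hk) (Set.toFinite F)
      have h3 := hL y0 hy0Q
      omega
    obtain ⟨k0, hk0L, hk0F⟩ := h1
    have hA0 : 0 < A.ncard := (Set.ncard_pos (Set.toFinite A)).2 ⟨y0, hy0A⟩
    obtain ⟨g, hg, hgF⟩ := F3_inj hK (A \ {y0}) (insert k0 F) (by
      have h4 := Set.ncard_insert_le k0 F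
      have h5 := Set.ncard_sdiff_singleton_of_mem hy0A
      omega)
    refine ⟨Function.update g y0 k0, ?_, ?_, ?_⟩
    · intro y hy y' hy' hyy
      by_cases h6 : y = y0
      · by_cases h7 : y' = y0
        · rw [h6, h7]
        · exfalso
          rw [h6, Function.update_self, Function.update_of_ne h7] at hyy
          exact hgF y' ⟨hy', h7⟩ (Or.inl hyy.symm)
      · by_cases h7 : y' = y0
        · exfalso
          rw [h7, Function.update_self, Function.update_of_ne h6] at hyy
          exact hgF y ⟨hy, h6⟩ (Or.inl hyy)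
        · rw [Function.update_of_ne h6, Function.update_of_ne h7] at hyy
          exact hg ⟨hy, h6⟩ ⟨hy', h7⟩ hyy
    · intro y hy
      by_cases h6 : y = y0
      · rw [h6, Function.update_self]
        exact hk0F
      · rw [Function.update_of_ne h6]
        exact fun h => hgF y ⟨hy, h6⟩ (Or.inr h)
    · intro y hy hyQ
      have h6 : y = y0 := hQ y hy y0 hy0A hyQ hy0Q
      rw [h6, Function.update_self]
      exact hk0L
  · obtain ⟨g, hg, hgF⟩ := F3_inj hK A F hA
    exact ⟨g, hg, hgF, fun y hy hyQ => absurd ⟨y, hy, hyQ⟩ h0⟩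

/-- F3: greedy colouring of a rooted tree with lists at edges with different parents -/
theorem colour {U K : Type*} [Finite U] [Finite K] (hK : 3 ≤ Nat.card K) {H : SimpleGraph U} {ρ : U} {p : U → U}
    {dep : U → ℕ} (hT : Tree3 H ρ p dep) (Q : Set U) (L : U → Set K) (hQ : ∀ y ∈ Q, y ≠ ρ)
    (hQp : ∀ y ∈ Q, ∀ y' ∈ Q, p y = p y' → y = y') (hL : ∀ y ∈ Q, 2 ≤ (L y).ncard) :
    ∃ c : U → K, (∀ y ∈ Q, c y ∈ L y) ∧ (∀ y, y ≠ ρ → p y ≠ ρ → c y ≠ c (p y)) ∧
      ∀ y y', y ≠ ρ → y' ≠ ρ → p y = p y' → y ≠ y' → c y ≠ c y' := by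
  have : Nonempty K := (Nat.card_pos_iff.1 (by omega)).1
  have h1 : ∀ (x : U) (k : K), ∃ f : U → K, Set.InjOn f (ch ρ p x) ∧
      (∀ y ∈ ch ρ p x, x ≠ ρ → f y ≠ k) ∧ ∀ y ∈ ch ρ p x, y ∈ Q → f y ∈ L y := by
    intro x k
    by_cases hx : x = ρ
    · obtain ⟨f, h1, _, h3⟩ := local_col hK (ch ρ p x) Q (∅ : Set K) L (by
        rw [hx, Set.ncard_empty]
        exact hT.root) (by rw [Set.ncard_empty]; omega)
        (fun y hy y' hy' hyQ hyQ' => hQp y hyQ y' hyQ' (hy.2.trans hy'.2.symm)) hL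
      exact ⟨f, h1, fun y _ h => absurd hx h, h3⟩
    · obtain ⟨f, h1, h2, h3⟩ := local_col hK (ch ρ p x) Q ({k} : Set K) L (by
        rw [Set.ncard_singleton]
        have := hT.inner x hx
        omega) (by rw [Set.ncard_singleton])
        (fun y hy y' hy' hyQ hyQ' => hQp y hyQ y' hyQ' (hy.2.trans hy'.2.symm)) hL
      exact ⟨f, h1, fun y hy _ => h2 y hy, h3⟩
  choose f hf1 hf2 hf3 using h1
  obtain ⟨c, hc⟩ : ∃ c : U → K, ∀ y, y ≠ ρ → c y = f (p y) (c (p y)) y := by
    refine ⟨(measure dep).wf.fix (C := fun _ => K) (fun y ih =>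
      if h : y = ρ then Classical.arbitrary K else f (p y) (ih (p y) (hT.lt y h)) y), ?_⟩
    intro y hy
    rw [WellFounded.fix_eq]
    rw [dif_neg hy]
  refine ⟨c, ?_, ?_, ?_⟩
  · intro y hyQ
    rw [hc y (hQ y hyQ)]
    exact hf3 (p y) (c (p y)) y ⟨hQ y hyQ, rfl⟩ hyQ
  · intro y hy hpy
    rw [hc y hy]
    exact hf2 (p y) (c (p y)) y ⟨hy, rfl⟩ hpy
  · intro y y' hy hy' hpp hne heq
    rw [hc y hy, hc y' hy', ← hpp] at heq
    exact hne (hf1 (p y) (c (p y)) ⟨hy, rfl⟩ ⟨hy', hpp.symm⟩ heq)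

end Pool.Agent.LibHP88
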