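import Mathlib
import Pool.Agent.LibHP88.Defs
import Pool.Agent.LibHP88.F1

/-! Row F4.
card_orbits: every fibre {v | o v = w} contains v, σ v, σ (σ v) (v any element, o surjective), three different elements (σ v = v would give σ (σ v) = v). So 3 card I ≤ Σ_w |fibre w| = card V (Finset.card_eq_sum_card_fiberwise).
orbit_tree: let Q be the graph on I with Q.Adj w w' :⟺ w ≠ w' ∧ ∃ v v', G.Adj v v' ∧ o v = w ∧ o v' = w' (SimpleGraph.fromRel or directly). Q is connected: for w = o v, w' = o v' map a walk of G from v to v' (each G-edge maps to a Q-edge or to a point). exists_rooted (F1) gives P, depI; for w ≠ ω: Q.Adj w (P w) gives l w, r w.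
-/

set_option autoImplicit false

namespace Pool.Agent.LibHP88

open scoped Classical

/-- F4: the number of cycles -/
theorem card_orbits {V I : Type*} [Fintype V] [Fintype I] {σ : Equiv.Perm V} {o : V → I} (hs : Function.Surjective o)
    (ho : ∀ v v', o v = o v' ↔ σ.SameCycle v v') (h2 : ∀ v, σ (σ v) ≠ v) :
    3 * Fintype.card I ≤ Fintype.card V ∧ ∀ w, 3 ≤ Nat.card {v // o v = w} := by
  have key : ∀ w, 3 ≤ (Finset.univ.filter (fun v => o v = w)).card := by
    intro w
    obtain ⟨v, rfl⟩ := hs w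
    have h1 : o (σ v) = o v := ((ho v (σ v)).2 ⟨1, by simp⟩).symm
    have h2' : o (σ (σ v)) = o v := ((ho v (σ (σ v))).2 ⟨2, by simp [pow_two]⟩).symm
    have n1 : v ≠ σ v := fun h => h2 v (by rw [← h, ← h])
    have n2 : v ≠ σ (σ v) := fun h => h2 v h.symm
    have n3 : σ v ≠ σ (σ v) := fun h => n1 (σ.injective h)
    have hc : ({v, σ v, σ (σ v)} : Finset V).card = 3 :=
      Finset.card_eq_three.2 ⟨v, σ v, σ (σ v), n1, n2, n3, rfl⟩
    rw [← hc]
    refine Finset.card_le_card (fun x hx => ?_)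
    simp only [Finset.mem_insert, Finset.mem_singleton] at hx
    simp only [Finset.mem_filter, Finset.mem_univ, true_and]
    rcases hx with rfl | rfl | rfl
    · rfl
    · exact h1
    · exact h2'
  refine ⟨?_, fun w => ?_⟩
  · have h := Finset.card_eq_sum_card_fiberwise (f := o) (s := (Finset.univ : Finset V))
      (t := (Finset.univ : Finset I)) (fun x _ => by simp)
    rw [Finset.card_univ] at h
    rw [h]
    calc 3 * Fintype.card I = ∑ _w : I, 3 := by simp [mul_comm]
      _ ≤ _ := Finset.sum_le_sum (fun w _ => key w)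
  · rw [Nat.card_eq_fintype_card, Fintype.card_subtype]
    exact key w

/-- F4: a rooted tree on the cycles -/
theorem orbit_tree {V I : Type*} {G : SimpleGraph V} (hG : G.Connected) {o : V → I} (hs : Function.Surjective o) (ω : I) :
    ∃ (P : I → I) (depI : I → ℕ) (l r : I → V), (∀ w, w ≠ ω → depI (P w) < depI w) ∧ (∀ w, w ≠ ω → o (l w) = w) ∧
      (∀ w, w ≠ ω → o (r w) = P w) ∧ ∀ w, w ≠ ω → G.Adj (l w) (r w) := by
  let Q : SimpleGraph I :=
    { Adj := fun w w' => w ≠ w' ∧ ∃ v v', G.Adj v v' ∧ o v = w ∧ o v' = w'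
      symm := ⟨fun w w' h => ⟨h.1.symm, by
        obtain ⟨v, v', h1, h2, h3⟩ := h.2
        exact ⟨v', v, h1.symm, h3, h2⟩⟩⟩
      loopless := ⟨fun w h => h.1 rfl⟩ }
  have hwalk : ∀ (v v' : V), G.Walk v v' → Q.Reachable (o v) (o v') := by
    intro v v' W
    induction W with
    | nil => exact SimpleGraph.Reachable.refl _
    | @cons a b c h _ ih =>
      by_cases hab : o a = o b
      · rw [hab]; exact ih
      · have : Q.Adj (o a) (o b) := ⟨hab, a, b, h, rfl, rfl⟩
        exact this.reachable.trans ih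
  have hQ : Q.Connected := by
    have : Nonempty I := ⟨ω⟩
    refine ⟨fun w w' => ?_⟩
    obtain ⟨v, rfl⟩ := hs w
    obtain ⟨v', rfl⟩ := hs w'
    obtain ⟨W⟩ := hG.preconnected v v'
    exact hwalk v v' W
  obtain ⟨P, depI, hR⟩ := exists_rooted hQ ω
  have hx : ∀ w, ∃ v v', w ≠ ω → (G.Adj v v' ∧ o v = w ∧ o v' = P w) := by
    intro w
    by_cases hw : w = ω
    · obtain ⟨v, -⟩ := hs ω
      exact ⟨v, v, fun h => absurd hw h⟩
    · obtain ⟨-, v, v', h⟩ := hR.adj w hw
      exact ⟨v, v', fun _ => h⟩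
  choose l r hlr using hx
  exact ⟨P, depI, l, r, hR.lt, fun w hw => (hlr w hw).2.1, fun w hw => (hlr w hw).2.2,
    fun w hw => (hlr w hw).1⟩

end Pool.Agent.LibHP88
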