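import Mathlib
import Pool.Agent.LibHP88.Defs
import Pool.Agent.LibHP88.C2
import Pool.Agent.LibHP88.F1
import Pool.Agent.LibHP88.F2
import Pool.Agent.LibHP88.F3
import Pool.Agent.LibHP88.F4

/-! Row F5.
I := Quotient (Equiv.Perm.SameCycle.setoid σ) (check the name), o := Quotient.mk _, surjective, ho by Quotient.eq. Fintype I (finite quotient; classical). ω := o of any vertex (V nonempty: hG.nonempty). F4: card_orbits gives 3 card I ≤ card V ≤ card U; orbit_tree gives P, depI, l, r. F2 pick gives y : I → U.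
For every w : I apply F3 colour with K := {v // o v = w} (card ≥ 3 by F4), Q_w := {y w' | w' ≠ ω ∧ (w' = w ∨ P w' = w)}, and the list of z ∈ Q_w: L_w z := {k | ∃ w', w' ≠ ω ∧ y w' = z ∧ ((w' = w ∧ ((k : V) = l w' ∨ σ k = l w')) ∨ (P w' = w ∧ ((k : V) = r w' ∨ σ k = r w')))}. For z = y w' (w' is unique by pick: y w' = y w'' implies p .. equal, so w' = w''), e := l w' if w' = w, r w' if P w' = w (o e = w): the list contains e and σ⁻¹ e (σ.symm e), both in the fibre of w (SameCycle), different because σ e ≠ e: ncard ≥ 2 (finite). hQp by pick. w' = w and P w' = w do not occur together (Plt), but this is not needed for ncard ≥ 2.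
c w z := (c_w z : V). Data2: toRooted from hT; hc: the subtype; par, sib: from colour (Subtype.ext); cl w (w ≠ ω): c w (y w) ∈ L_w (y w): gives w' with y w' = y w, so w' = w (pick) and w' = w branch: c w (y w) = l w ∨ σ .. = l w; the branch P w' = w, i.e. P w = w, is impossible by Plt. cr w: c (P w) (y w) ∈ L_{P w} (y w): w' = w; the branch w' = P w, i.e. w = P w, is impossible; so P w' = P w branch: c (P w) (y w) = r w or σ .. = r w. Then ham_core (C2).
-/

set_option autoImplicit false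

namespace Pool.Agent.LibHP88

open scoped Classical

private theorem f5_two {V I : Type*} [Finite V] {σ : Equiv.Perm V} {o : V → I}
    (ho : ∀ v v', o v = o v' ↔ σ.SameCycle v v') (h2 : ∀ v, σ (σ v) ≠ v) {w : I} (A : Set {v // o v = w})
    (e : V) (he : o e = w) (hA : ∀ k : {v // o v = w}, (k.1 = e ∨ σ k.1 = e) → k ∈ A) : 2 ≤ A.ncard := by
  have h1 : o (σ.symm e) = w := by
    rw [← he, ho]
    refine ⟨1, ?_⟩
    rw [zpow_one]
    exact σ.apply_symm_apply e
  have hne : (⟨e, he⟩ : {v // o v = w}) ≠ ⟨σ.symm e, h1⟩ := by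
    intro h
    have h3 : e = σ.symm e := congrArg Subtype.val h
    have h4 : σ e = e := by
      rw [Equiv.eq_symm_apply] at h3
      exact h3
    apply h2 e
    rw [h4, h4]
  have hsub : ({⟨e, he⟩, ⟨σ.symm e, h1⟩} : Set {v // o v = w}) ⊆ A := by
    intro k hk
    rcases hk with hk | hk
    · rw [hk]
      exact hA _ (Or.inl rfl)
    · rw [Set.mem_singleton_iff] at hk
      rw [hk]
      exact hA _ (Or.inr (σ.apply_symm_apply e))
  have h5 := Set.ncard_le_ncard hsub (Set.toFinite A)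
  rw [Set.ncard_pair hne] at h5
  exact h5

private theorem f5_quot.{v} {V : Type v} [Fintype V] (σ : Equiv.Perm V) :
    ∃ (I : Type v) (_ : Fintype I) (o : V → I), Function.Surjective o ∧
      ∀ v v', o v = o v' ↔ σ.SameCycle v v' := by
  refine ⟨Quotient (Equiv.Perm.SameCycle.setoid σ), Fintype.ofFinite _, Quotient.mk _,
    Quotient.mk_surjective, ?_⟩
  intro v v'
  exact Quotient.eq

/-- F5: the main construction -/
theorem ham_of_tree3 {U V : Type*} [Fintype U] [Fintype V] [DecidableEq (U × V)] {H : SimpleGraph U} {G : SimpleGraph V}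
    {σ : Equiv.Perm V} (hσ : ∀ v, G.Adj v (σ v)) (h2 : ∀ v, σ (σ v) ≠ v) (hG : G.Connected) {ρ : U} {p : U → U}
    {dep : U → ℕ} (hT : Tree3 H ρ p dep) (hcard : Fintype.card V ≤ Fintype.card U) : (H.boxProd G).IsHamiltonian := by
  obtain ⟨I, _, o, hs, ho⟩ := f5_quot σ
  obtain ⟨v0⟩ := hG.nonempty
  obtain ⟨hc3, hK⟩ := card_orbits hs ho h2
  obtain ⟨P, depI, l, r, hP, hl, hr, hlr⟩ := orbit_tree hG hs (o v0)
  obtain ⟨y, hyρ, hyp⟩ := pick hT (hc3.trans hcard) (o v0)
  have hyinj : ∀ w w', w ≠ o v0 → w' ≠ o v0 → y w = y w' → w = w' := fun w w' h h' he =>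
    hyp w w' h h' (congrArg p he)
  have hcol : ∀ w : I, ∃ c : U → {v // o v = w},
      (∀ z, (∃ w', w' ≠ o v0 ∧ y w' = z ∧ (w' = w ∨ P w' = w)) →
        ∃ w', w' ≠ o v0 ∧ y w' = z ∧ ((w' = w ∧ ((c z).1 = l w' ∨ σ (c z).1 = l w')) ∨
          (P w' = w ∧ ((c z).1 = r w' ∨ σ (c z).1 = r w')))) ∧
      (∀ z, z ≠ ρ → p z ≠ ρ → c z ≠ c (p z)) ∧
      ∀ z z', z ≠ ρ → z' ≠ ρ → p z = p z' → z ≠ z' → c z ≠ c z' := by
    intro w
    have q1 : ∀ z ∈ {z : U | ∃ w', w' ≠ o v0 ∧ y w' = z ∧ (w' = w ∨ P w' = w)}, z ≠ ρ := by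
      rintro z ⟨w', hw', rfl, _⟩
      exact hyρ w' hw'
    have q2 : ∀ z ∈ {z : U | ∃ w', w' ≠ o v0 ∧ y w' = z ∧ (w' = w ∨ P w' = w)},
        ∀ z' ∈ {z : U | ∃ w', w' ≠ o v0 ∧ y w' = z ∧ (w' = w ∨ P w' = w)}, p z = p z' → z = z' := by
      rintro z ⟨w', hw', rfl, _⟩ z' ⟨w'', hw'', rfl, _⟩ hp
      rw [hyp w' w'' hw' hw'' hp]
    have q3 : ∀ z ∈ {z : U | ∃ w', w' ≠ o v0 ∧ y w' = z ∧ (w' = w ∨ P w' = w)},
        2 ≤ ({k : {v // o v = w} | ∃ w', w' ≠ o v0 ∧ y w' = z ∧
          ((w' = w ∧ (k.1 = l w' ∨ σ k.1 = l w')) ∨ (P w' = w ∧ (k.1 = r w' ∨ σ k.1 = r w')))}).ncard := by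
      rintro z ⟨w', hw', rfl, hcase⟩
      rcases hcase with hcase | hcase
      · refine f5_two ho h2 _ (l w') ((hl w' hw').trans hcase) ?_
        intro k hk
        exact ⟨w', hw', rfl, Or.inl ⟨hcase, hk⟩⟩
      · refine f5_two ho h2 _ (r w') ((hr w' hw').trans hcase) ?_
        intro k hk
        exact ⟨w', hw', rfl, Or.inr ⟨hcase, hk⟩⟩
    obtain ⟨c, h1, h3, h4⟩ := colour (K := {v // o v = w}) (hK w) hT
      {z | ∃ w', w' ≠ o v0 ∧ y w' = z ∧ (w' = w ∨ P w' = w)}
      (fun z => {k | ∃ w', w' ≠ o v0 ∧ y w' = z ∧ ((w' = w ∧ (k.1 = l w' ∨ σ k.1 = l w')) ∨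
          (P w' = w ∧ (k.1 = r w' ∨ σ k.1 = r w')))}) q1 q2 q3
    exact ⟨c, fun z hz => h1 z hz, h3, h4⟩
  choose c hc1 hc2 hc4 using hcol
  have D : Data2 H G σ o ρ p dep (fun w z => (c w z).1) (o v0) P depI l r y :=
    { adj := hT.toRooted.adj
      lt := hT.toRooted.lt
      hσ := hσ
      h2 := h2
      ho := ho
      hc := fun w z => (c w z).2
      par := fun w z hz hpz h => hc2 w z hz hpz (Subtype.ext h)
      sib := fun w z z' hz hz' hpz hne h => hc4 w z z' hz hz' hpz hne (Subtype.ext h)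
      Plt := hP
      ol := hl
      or := hr
      lr := hlr
      yρ := hyρ
      yinj := hyinj
      cl := by
        intro w hw
        obtain ⟨w', hw', h1, h3⟩ := hc1 w (y w) ⟨w, hw, rfl, Or.inl rfl⟩
        have h4 := hyinj w' w hw' hw h1
        subst h4
        rcases h3 with h3 | h3
        · exact h3.2
        · have h5 := hP w' hw'
          rw [h3.1] at h5
          exact absurd h5 (lt_irrefl _)
      cr := by
        intro w hw
        obtain ⟨w', hw', h1, h3⟩ := hc1 (P w) (y w) ⟨w, hw, rfl, Or.inr rfl⟩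
        have h4 := hyinj w' w hw' hw h1
        subst h4
        rcases h3 with h3 | h3
        · have h5 := hP w' hw'
          rw [← h3.1] at h5
          exact absurd h5 (lt_irrefl _)
        · exact h3.2 }
  exact ham_core D

end Pool.Agent.LibHP88
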