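import Mathlib
import Pool.Agent.LibHP88.Defs

/-! Row G1.
Hall's theorem (Finset.all_card_le_biUnion_card_iff_exists_injective) for ι := G.edgeSet (a fintype) and t e := {(v, i) : V × Fin k | v ∈ e}: for a finite set F of edges let V(F) be the set of the vertices of the edges in F; biUnion = V(F) × Fin k. Double counting of the pairs (e, v), e ∈ F, v ∈ e: 2 |F| ≤ Σ_{v ∈ V(F)} dg v = 2 k |V(F)|. So |F| ≤ k |V(F)|: there is an injective f : G.edgeSet → V × Fin k with (f e).1 ∈ e (the tail of e). Every vertex is the tail of at most k edges (injectivity: the second coordinates differ), and the number of edges is k |V| (2 |E| = Σ dg = 2 k |V|: SimpleGraph.sum_degrees_eq_twice_card_edges), so every vertex is the tail of exactly k edges (Finset.sum_eq_sum_iff_of_le or similar).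
t u v := ∃ h : G.Adj u v, (f ⟨s(u,v), h⟩).1 = u. Exactly one of t u v, t v u holds for an edge uv (the tail is u or v, u ≠ v; s(u,v) = s(v,u)). Out-neighbours of u ↔ edges with tail u (v ↦ s(u,v) is injective): k. In-neighbours = neighbours minus out-neighbours: 2k - k = k.
-/

set_option autoImplicit false

namespace Pool.Agent.LibHP88

open scoped Classical

theorem G1_dg {V : Type*} [Fintype V] (G : SimpleGraph V) (v : V) : dg G v = G.degree v := by
  unfold dg
  rw [← SimpleGraph.card_neighborSet_eq_degree, Set.ncard_eq_toFinset_card', Set.toFinset_card]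

theorem G1_hall {V : Type*} [Fintype V] {G : SimpleGraph V} {k : ℕ} (h : Reg G (2 * k)) :
    ∃ f : G.edgeSet → V × Fin k, Function.Injective f ∧ ∀ e : G.edgeSet, (f e).1 ∈ (e : Sym2 V) := by
  have key := (Finset.all_card_le_biUnion_card_iff_exists_injective
    (fun e : G.edgeSet => (Finset.univ.filter (fun x : V × Fin k => x.1 ∈ (e : Sym2 V))))).1 ?_
  · obtain ⟨f, hf, hf2⟩ := key
    refine ⟨f, hf, fun e => ?_⟩
    have := hf2 e
    simpa using this
  · intro s
    set VF : Finset V := Finset.univ.filter (fun v => ∃ e ∈ s, v ∈ (e : Sym2 V)) with hVF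
    have e1 : s.biUnion (fun e : G.edgeSet => (Finset.univ.filter (fun x : V × Fin k => x.1 ∈ (e : Sym2 V)))) =
        VF ×ˢ (Finset.univ : Finset (Fin k)) := by
      ext ⟨v, i⟩
      simp [hVF]
    rw [e1, Finset.card_product, Finset.card_univ, Fintype.card_fin]
    have e2 := Finset.card_mul_le_card_mul (s := s) (t := VF) (m := 2) (n := 2 * k)
      (fun (e : G.edgeSet) (v : V) => v ∈ (e : Sym2 V)) ?_ ?_
    · nlinarith
    · rintro ⟨e, he⟩ hes
      induction e using Sym2.ind with
      | _ a b =>
        have hab : a ≠ b := G.ne_of_adj ((SimpleGraph.mem_edgeSet G).1 he)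
        have : ({a, b} : Finset V) ⊆ VF.bipartiteAbove (fun (e : G.edgeSet) (v : V) => v ∈ (e : Sym2 V)) ⟨s(a, b), he⟩ := by
          intro x hx
          rw [Finset.mem_bipartiteAbove]
          have hx' : x ∈ s(a, b) := by
            simpa using hx
          refine ⟨?_, hx'⟩
          rw [hVF, Finset.mem_filter]
          exact ⟨Finset.mem_univ _, _, hes, hx'⟩
        calc 2 = ({a, b} : Finset V).card := (Finset.card_pair hab).symm
          _ ≤ _ := Finset.card_le_card this
    · intro v hv
      have hle : ((s.bipartiteBelow (fun (e : G.edgeSet) (v : V) => v ∈ (e : Sym2 V)) v).image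
          (Subtype.val : G.edgeSet → Sym2 V)) ⊆ G.incidenceFinset v := by
        intro e he
        rw [Finset.mem_image] at he
        obtain ⟨⟨e', he'⟩, h1, rfl⟩ := he
        rw [Finset.mem_bipartiteBelow] at h1
        rw [SimpleGraph.mem_incidenceFinset]
        exact ⟨he', h1.2⟩
      have h3 := Finset.card_le_card hle
      rw [Finset.card_image_of_injective _ Subtype.val_injective, SimpleGraph.card_incidenceFinset_eq_degree,
        ← G1_dg, h v] at h3
      exact h3

/-- G1: a balanced orientation -/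
theorem orient {V : Type*} [Fintype V] {G : SimpleGraph V} {k : ℕ} (h : Reg G (2 * k)) :
    ∃ t : V → V → Prop, (∀ u v, t u v → G.Adj u v) ∧ (∀ u v, t u v → ¬ t v u) ∧ (∀ u, {v | t u v}.ncard = k) ∧
      ∀ u, {v | t v u}.ncard = k := by
  obtain ⟨f, hf, hf2⟩ := G1_hall h
  -- number of edges
  have hE : Fintype.card G.edgeSet = k * Fintype.card V := by
    have h1 := SimpleGraph.sum_degrees_eq_twice_card_edges G
    have h2 : ∑ v : V, G.degree v = 2 * k * Fintype.card V := by
      rw [Finset.sum_congr rfl (fun v _ => ((G1_dg G v).symm.trans (h v)))]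
      rw [Finset.sum_const, Finset.card_univ, smul_eq_mul, mul_comm]
    rw [h2] at h1
    have h3 : G.edgeFinset.card = Fintype.card G.edgeSet := by
      rw [SimpleGraph.edgeFinset, Set.toFinset_card]
    rw [h3] at h1
    nlinarith
  -- tails
  set T : V → Finset G.edgeSet := fun v => Finset.univ.filter (fun e => (f e).1 = v) with hT
  have hTle : ∀ v, (T v).card ≤ k := by
    intro v
    have : (T v).card ≤ (Finset.univ : Finset (Fin k)).card := by
      refine Finset.card_le_card_of_injOn (fun e => (f e).2) (fun _ _ => Finset.mem_coe.2 (Finset.mem_univ _)) ?_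
      intro e he e' he' hee
      have h1 : (f e).1 = v := by simpa [hT] using he
      have h2 : (f e').1 = v := by simpa [hT] using he'
      exact hf (Prod.ext (h1.trans h2.symm) hee)
    simpa using this
  have hTsum : ∑ v : V, (T v).card = k * Fintype.card V := by
    rw [← hE, ← Finset.card_univ]
    exact (Finset.card_eq_sum_card_fiberwise (f := fun e => (f e).1) (s := Finset.univ) (t := Finset.univ)
      (fun _ _ => Finset.mem_coe.2 (Finset.mem_univ _))).symm
  have hTeq : ∀ v, (T v).card = k := by
    have h1 : ∑ v : V, (T v).card = ∑ v : V, k := by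
      rw [hTsum, Finset.sum_const, Finset.card_univ, smul_eq_mul, mul_comm]
    intro v
    exact (Finset.sum_eq_sum_iff_of_le (fun v _ => hTle v)).1 h1 v (Finset.mem_univ v)
  set t : V → V → Prop := fun u v => ∃ h : G.Adj u v, (f ⟨s(u, v), h⟩).1 = u with ht
  have t1 : ∀ u v, t u v → G.Adj u v := fun u v h => h.1
  have t2 : ∀ u v, t u v → ¬ t v u := by
    rintro u v ⟨h1, h2⟩ ⟨h3, h4⟩
    have e1 : (⟨s(u, v), h1⟩ : G.edgeSet) = ⟨s(v, u), h3⟩ := Subtype.ext Sym2.eq_swap
    rw [e1, h4] at h2
    exact h1.ne h2.symm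
  have t3 : ∀ u v, G.Adj u v → t u v ∨ t v u := by
    intro u v h1
    have h2 := hf2 ⟨s(u, v), h1⟩
    have h2' : (f ⟨s(u, v), h1⟩).1 ∈ s(u, v) := h2
    rw [Sym2.mem_iff] at h2'
    rcases h2' with h3 | h3
    · exact Or.inl ⟨h1, h3⟩
    · right
      have e1 : (⟨s(u, v), h1⟩ : G.edgeSet) = ⟨s(v, u), h1.symm⟩ := Subtype.ext Sym2.eq_swap
      rw [e1] at h3
      exact ⟨h1.symm, h3⟩
  have c1 : ∀ u, {v | t u v}.ncard = k := by
    intro u
    rw [← hTeq u]
    rw [← Set.ncard_coe_finset (T u)]
    refine Set.ncard_congr (fun v hv => ⟨s(u, v), (hv : t u v).1⟩) ?_ ?_ ?_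
    · intro v hv
      obtain ⟨h1, h2⟩ := hv
      simp only [hT, Finset.coe_filter, Finset.mem_univ, true_and, Set.mem_ofPred_eq]
      exact h2
    · intro v w hv hw hvw
      have := congrArg Subtype.val hvw
      simp only [] at this
      have h3 := Sym2.eq_iff.1 this
      rcases h3 with h3 | h3
      · exact h3.2
      · rw [h3.2, ← h3.1]
    · rintro ⟨e, he⟩ hb
      have hb' : (f ⟨e, he⟩).1 = u := by simpa [hT] using hb
      have hm := hf2 ⟨e, he⟩
      rw [hb'] at hm
      obtain ⟨w, hw⟩ := Sym2.mem_iff_exists.1 hm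
      have hw' : e = s(u, w) := hw
      subst hw'
      exact ⟨w, ⟨he, hb'⟩, rfl⟩
  refine ⟨t, t1, t2, c1, ?_⟩
  intro u
  have hu : {v | t v u} = G.neighborSet u \ {v | t u v} := by
    ext v
    simp only [Set.mem_ofPred_eq, Set.mem_sdiff, SimpleGraph.mem_neighborSet]
    constructor
    · intro hv
      exact ⟨(t1 _ _ hv).symm, t2 _ _ hv⟩
    · rintro ⟨h1, h2⟩
      rcases t3 _ _ h1 with h3 | h3
      · exact absurd h3 h2
      · exact h3
  have hsub : {v | t u v} ⊆ G.neighborSet u := fun v hv => t1 _ _ hv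
  rw [hu, Set.ncard_sdiff hsub (Set.toFinite _), c1 u]
  have := h u
  unfold dg at this
  rw [this]
  omega

end Pool.Agent.LibHP88
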