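import Mathlib
import Pool.Agent.LibHP88.Defs
import Pool.Agent.LibHP88.G1

/-! Row G2.
perm_of: Hall with t u := {v | t u v}.
even_factor: orient (G1) and perm_of.
-/

set_option autoImplicit false

namespace Pool.Agent.LibHP88

open scoped Classical

/-- G2: a permutation in a regular relation -/
theorem perm_of {V : Type*} [Fintype V] {t : V → V → Prop} {k : ℕ} (hk : 1 ≤ k) (hout : ∀ u, {v | t u v}.ncard = k)
    (hin : ∀ u, {v | t v u}.ncard = k) : ∃ σ : Equiv.Perm V, ∀ v, t v (σ v) := by
  let T : V → Finset V := fun u => Finset.univ.filter (fun v => t u v)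
  have hT : ∀ u, (T u).card = k := by
    intro u
    rw [← hout u, Set.ncard_eq_toFinset_card']
    congr 1
    ext v
    simp [T]
  have hI : ∀ v, (Finset.univ.filter (fun u => t u v)).card = k := by
    intro v
    rw [← hin v, Set.ncard_eq_toFinset_card']
    congr 1
    ext u
    simp
  have hall : ∀ s : Finset V, s.card ≤ (s.biUnion T).card := by
    intro s
    have h1 : ∑ u ∈ s, (T u).card ≤ ∑ v ∈ s.biUnion T, (Finset.univ.filter (fun u => t u v)).card := by
      have e1 : ∑ u ∈ s, (T u).card = ∑ u ∈ s, ∑ v ∈ s.biUnion T, if t u v then 1 else 0 := by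
        refine Finset.sum_congr rfl fun u hu => ?_
        rw [← Finset.card_filter]
        congr 1
        ext v
        simp only [T, Finset.mem_filter, Finset.mem_univ, true_and, Finset.mem_biUnion]
        exact ⟨fun h => ⟨⟨u, hu, h⟩, h⟩, fun h => h.2⟩
      rw [e1, Finset.sum_comm]
      refine Finset.sum_le_sum fun v _ => ?_
      rw [← Finset.card_filter]
      refine Finset.card_le_card ?_
      intro u hu
      simp only [Finset.mem_filter, Finset.mem_univ, true_and] at hu ⊢
      exact hu.2
    rw [Finset.sum_congr rfl (fun u _ => hT u), Finset.sum_congr rfl (fun v _ => hI v)] at h1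
    simp only [Finset.sum_const, smul_eq_mul] at h1
    exact Nat.le_of_mul_le_mul_right h1 hk
  obtain ⟨f, hf, hft⟩ := (Finset.all_card_le_biUnion_card_iff_exists_injective T).1 hall
  refine ⟨Equiv.ofBijective f (Finite.injective_iff_bijective.1 hf), fun v => ?_⟩
  have := hft v
  simpa [T] using this

/-- G2: a 2-factor of a graph which is regular of even degree (Petersen) -/
theorem even_factor {V : Type*} [Fintype V] {G : SimpleGraph V} {k : ℕ} (hk : 1 ≤ k) (h : Reg G (2 * k)) :
    ∃ σ : Equiv.Perm V, (∀ v, G.Adj v (σ v)) ∧ ∀ v, σ (σ v) ≠ v := by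
  obtain ⟨t, ht1, ht2, ht3, ht4⟩ := orient h
  obtain ⟨σ, hσ⟩ := perm_of hk ht3 ht4
  refine ⟨σ, fun v => ht1 _ _ (hσ v), fun v hv => ?_⟩
  have h1 := hσ v
  have h2 := hσ (σ v)
  rw [hv] at h2
  exact ht2 _ _ h1 h2

end Pool.Agent.LibHP88
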