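import Mathlib
import Pool.Agent.LibHP88.Defs

/-! Row G3.
Unfold SimpleGraph.IsTutteViolator: assume u.ncard < ((⊤ : G.Subgraph).deleteVerts u).coe.oddComponents.ncard. Case u nonempty: to every component K of the graph (⊤.deleteVerts u).coe (vertices: the subtype of uᶜ) associate the Finset A_K := image of K.supp in V (Set.toFinset / classical). They are nonempty, disjoint from u, pairwise disjoint (for different K), injective in K, and closed: x ∈ A_K, G.Adj x y, y ∉ u gives adjacency in the deleted graph, so y ∈ A_K. Tough with S = u.toFinset and C = image of the odd components: number of odd components ≤ u.ncard: contradiction. Case u = ∅: the graph (⊤.deleteVerts ∅).coe is isomorphic to G, connected: at most one component, and if there is an odd component then it is everything, so card V is odd: contradiction with heven; otherwise 0 < 0.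
(For u = ∅ perhaps easier: an odd component K has A_K closed under G-adjacency and nonempty, so A_K = univ by connectedness, so card V = |A_K| = K.supp.ncard is odd.)
-/

set_option autoImplicit false

namespace Pool.Agent.LibHP88

open scoped Classical

/-- G3: the vertex set of a component of the deleted graph, as a finite set of vertices of `G` -/
private noncomputable def G3_A {V : Type*} [Fintype V] {G : SimpleGraph V} {u : Set V}
    (K : ((⊤ : G.Subgraph).deleteVerts u).coe.ConnectedComponent) : Finset V :=
  (Subtype.val '' K.supp).toFinset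

private theorem G3_mem {V : Type*} [Fintype V] {G : SimpleGraph V} {u : Set V}
    (K : ((⊤ : G.Subgraph).deleteVerts u).coe.ConnectedComponent) (x : V) :
    x ∈ G3_A K ↔ ∃ h : x ∈ ((⊤ : G.Subgraph).deleteVerts u).verts,
      ((⊤ : G.Subgraph).deleteVerts u).coe.connectedComponentMk ⟨x, h⟩ = K := by
  unfold G3_A
  rw [Set.mem_toFinset]
  constructor
  · rintro ⟨a, ha, rfl⟩
    exact ⟨a.2, ha⟩
  · rintro ⟨h, hK⟩
    exact ⟨⟨x, h⟩, hK, rfl⟩

private theorem G3_closed {V : Type*} [Fintype V] {G : SimpleGraph V} {u : Set V}
    (K : ((⊤ : G.Subgraph).deleteVerts u).coe.ConnectedComponent) (x y : V) (hx : x ∈ G3_A K)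
    (hxy : G.Adj x y) : y ∈ G3_A K ∨ y ∈ u := by
  by_cases hy : y ∈ u
  · exact Or.inr hy
  left
  rw [G3_mem] at hx ⊢
  obtain ⟨h, hK⟩ := hx
  have hxu : x ∉ u := by
    simpa using h
  have hyv : y ∈ ((⊤ : G.Subgraph).deleteVerts u).verts := by
    simpa using hy
  refine ⟨hyv, ?_⟩
  rw [← hK, SimpleGraph.ConnectedComponent.eq]
  apply SimpleGraph.Adj.reachable
  rw [SimpleGraph.Subgraph.coe_adj, SimpleGraph.Subgraph.deleteVerts_adj]
  refine ⟨by simp, hy, by simp, hxu, ?_⟩
  simpa using hxy.symm

private theorem G3_card {V : Type*} [Fintype V] {G : SimpleGraph V} {u : Set V}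
    (K : ((⊤ : G.Subgraph).deleteVerts u).coe.ConnectedComponent) :
    (G3_A K).card = K.supp.ncard := by
  unfold G3_A
  rw [← Set.ncard_eq_toFinset_card', Set.ncard_image_of_injective _ Subtype.val_injective]

/-- G3: Tutte's condition from toughness -/
theorem no_tutte {V : Type*} [Fintype V] {G : SimpleGraph V} (hT : Tough G) (hc : G.Connected)
    (heven : Even (Fintype.card V)) (u : Set V) : ¬ G.IsTutteViolator u := by
  intro hv
  unfold SimpleGraph.IsTutteViolator at hv
  rcases Set.eq_empty_or_nonempty u with hu | hu
  · subst hu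
    have h0 : 0 < ((⊤ : G.Subgraph).deleteVerts ∅).coe.oddComponents.ncard := by
      simpa using hv
    obtain ⟨K, hK⟩ := (Set.ncard_pos (Set.toFinite _)).1 h0
    have hodd : Odd K.supp.ncard := hK
    have huniv : G3_A K = Finset.univ := by
      rw [Finset.eq_univ_iff_forall]
      obtain ⟨a, ha⟩ := K.nonempty_supp
      have ha' : (a : V) ∈ G3_A K := (G3_mem K a).2 ⟨a.2, ha⟩
      intro x
      obtain ⟨w⟩ := hc.preconnected (a : V) x
      have key : ∀ (p q : V) (w : G.Walk p q), p ∈ G3_A K → q ∈ G3_A K := by
        intro p q w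
        induction w with
        | nil => exact id
        | cons h _ ih =>
          intro hp
          rcases G3_closed K _ _ hp h with h' | h'
          · exact ih h'
          · exact absurd h' (Set.notMem_empty _)
      exact key _ _ w ha'
    have hcard : K.supp.ncard = Fintype.card V := by
      rw [← G3_card, huniv, Finset.card_univ]
    rw [hcard] at hodd
    exact (Nat.not_odd_iff_even.2 heven) hodd
  · have hS : u.toFinset.Nonempty := Set.toFinset_nonempty.2 hu
    have hle := hT u.toFinset (((⊤ : G.Subgraph).deleteVerts u).coe.oddComponents.toFinset.image G3_A) hS ?_ ?_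
    · rw [Finset.card_image_of_injOn, ← Set.ncard_eq_toFinset_card', ← Set.ncard_eq_toFinset_card'] at hle
      · omega
      · intro K _ L _ hKL
        obtain ⟨a, ha⟩ := K.nonempty_supp
        have ha' : (a : V) ∈ G3_A K := (G3_mem K a).2 ⟨a.2, ha⟩
        rw [show G3_A K = G3_A L from hKL, G3_mem] at ha'
        obtain ⟨_, h2⟩ := ha'
        have h1 : ((⊤ : G.Subgraph).deleteVerts u).coe.connectedComponentMk a = K := ha
        rw [← h1, ← h2]
    · intro A hA
      obtain ⟨K, _, rfl⟩ := Finset.mem_image.1 hA
      refine ⟨?_, ?_, ?_⟩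
      · obtain ⟨a, ha⟩ := K.nonempty_supp
        exact ⟨a, (G3_mem K a).2 ⟨a.2, ha⟩⟩
      · rw [Finset.disjoint_left]
        intro x hx hxu
        rw [G3_mem] at hx
        obtain ⟨h, _⟩ := hx
        rw [Set.mem_toFinset] at hxu
        have : x ∉ u := by simpa using h
        exact this hxu
      · intro x hx y hxy
        rcases G3_closed K x y hx hxy with h | h
        · exact Or.inl h
        · exact Or.inr (Set.mem_toFinset.2 h)
    · intro A hA B hB hAB
      obtain ⟨K, _, rfl⟩ := Finset.mem_image.1 hA
      obtain ⟨L, _, rfl⟩ := Finset.mem_image.1 hB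
      rw [Finset.disjoint_left]
      intro x hx hx'
      rw [G3_mem] at hx hx'
      obtain ⟨_, h1⟩ := hx
      obtain ⟨_, h2⟩ := hx'
      exact hAB (by rw [← h1, ← h2])

end Pool.Agent.LibHP88
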