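import Mathlib
import Pool.Agent.LibHP88.Defs
import Pool.Agent.LibHP88.G2
import Pool.Agent.LibHP88.G3

/-! Row G4.
Even degree d = 2k: G2. Odd degree d = 2k+1, k ≥ 1: Σ dg = d card V is even (SimpleGraph.sum_degrees_eq_twice_card_edges; degree = ncard of the neighbour set), d odd: card V even. no_tutte (G3) and SimpleGraph.tutte give M : G.Subgraph with M.IsPerfectMatching. G' := G \ M.spanningCoe is regular of degree 2k: every v has exactly one M-neighbour, which is a G-neighbour (M.adj_sub). even_factor (G2) for G' gives σ with G'.Adj v (σ v), hence G.Adj.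
-/

set_option autoImplicit false

namespace Pool.Agent.LibHP88

open scoped Classical

private theorem G4_even {V : Type*} [Fintype V] {G : SimpleGraph V} {k : ℕ} (h : Reg G (2 * k + 1)) :
    Even (Fintype.card V) := by
  have h1 := G.sum_degrees_eq_twice_card_edges
  have h2 : ∀ v, G.degree v = 2 * k + 1 := by
    intro v
    rw [← h v]
    unfold dg
    rw [Set.ncard_eq_toFinset_card']
    rfl
  rw [Finset.sum_congr rfl (fun v _ => h2 v), Finset.sum_const, Finset.card_univ, smul_eq_mul] at h1
  by_contra hodd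
  rw [Nat.not_even_iff_odd] at hodd
  have h3 : Odd (Fintype.card V * (2 * k + 1)) := hodd.mul ⟨k, rfl⟩
  rw [h1] at h3
  exact (Nat.not_odd_iff_even.2 ⟨_, two_mul _⟩) h3

/-- G4: a 2-factor of a regular 1-tough graph -/
theorem two_factor {V : Type*} [Fintype V] {G : SimpleGraph V} {d : ℕ} (hd : 2 ≤ d) (h : Reg G d) (hT : Tough G)
    (hc : G.Connected) : ∃ σ : Equiv.Perm V, (∀ v, G.Adj v (σ v)) ∧ ∀ v, σ (σ v) ≠ v := by
  rcases Nat.even_or_odd' d with ⟨k, rfl | rfl⟩
  · exact even_factor (by omega) h
  · have hev := G4_even h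
    obtain ⟨M, hM⟩ := (SimpleGraph.tutte (G := G)).2 (fun u => no_tutte hT hc hev u)
    have hreg : Reg (G \ M.spanningCoe) (2 * k) := by
      intro v
      obtain ⟨w, hw, huniq⟩ := (SimpleGraph.Subgraph.isPerfectMatching_iff.1 hM) v
      have hset : (G \ M.spanningCoe).neighborSet v = G.neighborSet v \ {w} := by
        ext x
        simp only [SimpleGraph.mem_neighborSet, SimpleGraph.sdiff_adj, SimpleGraph.Subgraph.spanningCoe_adj,
          Set.mem_sdiff, Set.mem_singleton_iff]
        constructor
        · rintro ⟨h1, h2⟩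
          exact ⟨h1, fun hx => h2 (hx ▸ hw)⟩
        · rintro ⟨h1, h2⟩
          exact ⟨h1, fun hx => h2 (huniq x hx)⟩
      have hwG : w ∈ G.neighborSet v := M.adj_sub hw
      unfold dg
      rw [hset, Set.ncard_sdiff_singleton_of_mem hwG]
      have := h v
      unfold dg at this
      omega
    obtain ⟨σ, hσ, hσ2⟩ := even_factor (by omega) hreg
    exact ⟨σ, fun v => (hσ v).1, hσ2⟩

end Pool.Agent.LibHP88
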