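import Mathlib
import Pool.Agent.LibHP88.Defs

/-! Row W5.
te_exch: pointwise dg T' v - 3 ≤ dg T v - 3: for v ≠ x, y monotone; for v = x: dg T' x ≤ 3 so the left side is 0. Sum over v. If 4 ≤ dg T z and dg T' z + 1 = dg T z then at z the inequality is strict by one (z ≠ x, y because dg T x ≤ 2): Finset.sum_lt_sum.
te_mono: T' ≤ T gives dg T' v ≤ dg T v (finite), so te T' ≤ te T.
comp facts: comp_conn: a, b ∈ comp T S x with x ∉ S: there is a walk of ins T Sᶜ from a to b; all its vertices are in comp T S x, so (ins T (comp T S x)).Reachable a b. comp_notin: if x ∉ S then every element of comp T S x is ∉ S (the last edge of the walk). comp_eq: z ∈ comp T S x → comp T S z = comp T S x. comp_anti: S ⊆ S' → comp T S' x ⊆ comp T S x.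
-/

set_option autoImplicit false

namespace Pool.Agent.LibHP88

open scoped Classical

/-- W5: the excess under an exchange -/
theorem te_exch {V : Type*} [Fintype V] {T T' : SimpleGraph V} {x y z : V} (hx : dg T x ≤ 2) (hy : dg T y ≤ 2)
    (h1 : dg T' x ≤ dg T x + 1) (h2 : dg T' y ≤ dg T y + 1) (h3 : ∀ v, v ≠ x → v ≠ y → dg T' v ≤ dg T v) :
    te T' ≤ te T ∧ (4 ≤ dg T z → dg T' z + 1 = dg T z → te T' < te T) := by
  have hpt : ∀ v, dg T' v - 3 ≤ dg T v - 3 := by
    intro v
    by_cases hvx : v = x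
    · subst hvx; omega
    by_cases hvy : v = y
    · subst hvy; omega
    have := h3 v hvx hvy
    omega
  refine ⟨Finset.sum_le_sum (fun v _ => hpt v), fun h4 h5 => ?_⟩
  exact Finset.sum_lt_sum (fun v _ => hpt v) ⟨z, Finset.mem_univ z, by omega⟩

theorem te_mono {V : Type*} [Fintype V] {T T' : SimpleGraph V} (h : T' ≤ T) : te T' ≤ te T := by
  refine Finset.sum_le_sum (fun v _ => ?_)
  have h1 : dg T' v ≤ dg T v := by
    unfold dg
    exact Set.ncard_le_ncard (fun w hw => h hw) (Set.toFinite _)
  omega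

theorem comp_notin {V : Type*} {T : SimpleGraph V} {S : Set V} {x z : V} (hx : x ∉ S) (hz : z ∈ comp T S x) : z ∉ S := by
  have h1 : (ins T Sᶜ).Reachable x z := hz
  rw [SimpleGraph.reachable_iff_reflTransGen] at h1
  cases h1 with
  | refl => exact hx
  | tail _ h => exact h.2.2

private theorem w5_reach {V : Type*} {T : SimpleGraph V} {S : Set V} {x a b : V} (ha : a ∈ comp T S x)
    (hb : Relation.ReflTransGen (ins T Sᶜ).Adj a b) : b ∈ comp T S x ∧ (ins T (comp T S x)).Reachable a b := by
  induction hb with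
  | refl => exact ⟨ha, SimpleGraph.Reachable.refl _⟩
  | @tail c c' _ h ih =>
    have h1 : c' ∈ comp T S x := by
      have h2 : (ins T Sᶜ).Reachable x c := ih.1
      exact h2.trans (SimpleGraph.Adj.reachable h)
    refine ⟨h1, ih.2.trans (SimpleGraph.Adj.reachable ?_)⟩
    exact ⟨h.1, ih.1, h1⟩

theorem comp_conn {V : Type*} {T : SimpleGraph V} {S : Set V} {x : V} (hx : x ∉ S) :
    ∀ a ∈ comp T S x, ∀ b ∈ comp T S x, (ins T (comp T S x)).Reachable a b := by
  intro a ha b hb
  have h1 : (ins T Sᶜ).Reachable x a := ha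
  have h2 : (ins T Sᶜ).Reachable x b := hb
  have h3 : (ins T Sᶜ).Reachable a b := h1.symm.trans h2
  rw [SimpleGraph.reachable_iff_reflTransGen] at h3
  exact (w5_reach ha h3).2

theorem comp_eq {V : Type*} {T : SimpleGraph V} {S : Set V} {x z : V} (hz : z ∈ comp T S x) :
    comp T S z = comp T S x := by
  have h1 : (ins T Sᶜ).Reachable x z := hz
  ext y
  constructor
  · intro hy
    have h2 : (ins T Sᶜ).Reachable z y := hy
    exact h1.trans h2
  · intro hy
    have h2 : (ins T Sᶜ).Reachable x y := hy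
    exact h1.symm.trans h2

theorem comp_anti {V : Type*} {T : SimpleGraph V} {S S' : Set V} (h : S ⊆ S') (x : V) :
    comp T S' x ⊆ comp T S x := by
  intro y hy
  have h1 : (ins T S'ᶜ).Reachable x y := hy
  refine SimpleGraph.Reachable.mono ?_ h1
  intro a b hab
  exact ⟨hab.1, fun hc => hab.2.1 (h hc), fun hc => hab.2.2 (h hc)⟩

end Pool.Agent.LibHP88
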