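import Mathlib
import Pool.Agent.LibHP88.Defs

/-! Row W6.
St_mono: St i ⊆ St j for i ≤ j (union). St_u: u ∈ St i. St_deg: z ∈ St i → z = u ∨ 3 ≤ dg T z: induct on i; for z ∈ St (i+1), z not good for St i: if dg T z ≤ 2 then T itself is a witness of Good (T ≤ G, connected, te T ≤ te T, Agree T T K trivially): contradiction. St_stab: a monotone sequence of subsets of a finite type: there is N with St (N+1) = St N (otherwise ncard increases strictly forever; e.g. monotone_stabilizes_iff_noetherian, or a bound ncard (St i) ≥ i).
-/

set_option autoImplicit false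

namespace Pool.Agent.LibHP88

open scoped Classical

theorem St_mono {V : Type*} [Fintype V] (G T : SimpleGraph V) (u : V) {i j : ℕ} (h : i ≤ j) : St G T u i ⊆ St G T u j := by
  induction h with
  | refl => exact subset_rfl
  | step _ ih => exact ih.trans Set.subset_union_left

theorem St_u {V : Type*} [Fintype V] (G T : SimpleGraph V) (u : V) (i : ℕ) : u ∈ St G T u i :=
  St_mono G T u (Nat.zero_le i) (Set.mem_singleton u)

/-- W6: vertices of the closure have large degree -/
theorem St_deg {V : Type*} [Fintype V] {G T : SimpleGraph V} (hTG : T ≤ G) (hT : T.Connected) {u z : V} {i : ℕ}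
    (hz : z ∈ St G T u i) : z = u ∨ 3 ≤ dg T z := by
  induction i with
  | zero => exact Or.inl hz
  | succ i ih =>
    rcases hz with hz | hz
    · exact ih hz
    · right
      by_contra h
      exact hz ⟨T, hTG, hT, le_rfl, by omega, fun a b _ => Iff.rfl⟩

theorem St_stab {V : Type*} [Fintype V] (G T : SimpleGraph V) (u : V) : ∃ N, St G T u (N + 1) = St G T u N := by
  obtain ⟨n, hn⟩ := WellFoundedGT.monotone_chain_condition
    (⟨fun i => St G T u i, fun i j h => St_mono G T u h⟩ : ℕ →o Set V)
  exact ⟨n, (hn (n + 1) (Nat.le_succ n)).symm⟩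

end Pool.Agent.LibHP88
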