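import Mathlib
import Pool.Agent.LibHP88.Defs

/-! Row W1.
K may be assumed nonempty (a ∈ K given). (1) If a, b ∈ K and (off T K).Reachable a b then a = b: take a path in off T K from a to b and a path in ins T K from a to b (hK); both are paths of T (Walk.mapLe / Path.map), so equal by T acyclic (hT.IsAcyclic.path_unique or IsTree.existsUnique_path). If a ≠ b the path has an edge, which is in off T K and in ins T K: contradiction. (2) For every v there is k ∈ K with (off T K).Reachable v k: induct on a walk of T from v to a: if v ∈ K take k = v; otherwise the first edge v v' is in off T K (v ∉ K), and use the induction hypothesis for v'. Choose rt v := such a k; rt v = v for v ∈ K by (1).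
(3) For an edge u v of T' : if u, v ∈ K then (ins T' K).Adj u v and rt u = u, rt v = v. Otherwise T.Adj u v by Agree, so (off T K).Adj u v and rt u = rt v by (1). So along a walk of T' from a to b: (ins T' K).Reachable (rt a) (rt b), i.e. Reachable a b.
-/

set_option autoImplicit false

namespace Pool.Agent.LibHP88

open scoped Classical

private theorem W1_off_le {V : Type*} (T : SimpleGraph V) (K : Set V) : off T K ≤ T :=
  fun _ _ h => h.1

private theorem W1_ins_le {V : Type*} (T : SimpleGraph V) (K : Set V) : ins T K ≤ T :=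
  fun _ _ h => h.1

private theorem W1_eq {V : Type*} {T : SimpleGraph V} (hT : T.IsTree) {K : Set V}
    (hK : ∀ a ∈ K, ∀ b ∈ K, (ins T K).Reachable a b) {a b : V} (ha : a ∈ K) (hb : b ∈ K)
    (h : (off T K).Reachable a b) : a = b := by
  obtain ⟨p0⟩ := h
  obtain ⟨q0⟩ := hK a ha b hb
  obtain ⟨p, hp⟩ := p0.toPath
  obtain ⟨q, hq⟩ := q0.toPath
  have h1 := hT.isAcyclic.path_unique
    ⟨p.mapLe (W1_off_le T K), (SimpleGraph.Walk.isPath_mapLe (W1_off_le T K)).2 hp⟩
    ⟨q.mapLe (W1_ins_le T K), (SimpleGraph.Walk.isPath_mapLe (W1_ins_le T K)).2 hq⟩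
  have h2 : p.mapLe (W1_off_le T K) = q.mapLe (W1_ins_le T K) := congrArg Subtype.val h1
  have h3 : p.edges = q.edges := by
    have h4 := congrArg SimpleGraph.Walk.edges h2
    rwa [SimpleGraph.Walk.edges_mapLe_eq_edges, SimpleGraph.Walk.edges_mapLe_eq_edges] at h4
  cases p with
  | nil => rfl
  | cons hadj p' =>
    exfalso
    rename_i v
    have h5 : s(a, v) ∈ q.edges := by
      rw [← h3, SimpleGraph.Walk.edges_cons]
      exact List.mem_cons_self
    have h6 : (ins T K).Adj a v := q.adj_of_mem_edges h5
    exact hadj.2 ⟨h6.2.1, h6.2.2⟩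

private theorem W1_exists {V : Type*} {T : SimpleGraph V} {K : Set V} {v a : V}
    (w : T.Walk v a) (ha : a ∈ K) : ∃ k ∈ K, (off T K).Reachable v k := by
  induction w with
  | nil => exact ⟨_, ha, SimpleGraph.Reachable.refl _⟩
  | @cons u v' _ hadj w' ih =>
    by_cases hu : u ∈ K
    · exact ⟨u, hu, SimpleGraph.Reachable.refl _⟩
    · obtain ⟨k, hk, hr⟩ := ih ha
      have h1 : (off T K).Adj u v' := ⟨hadj, fun h => hu h.1⟩
      exact ⟨k, hk, h1.reachable.trans hr⟩

/-- W1: a change of a tree inside a subtree -/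
theorem tree_retract {V : Type*} {T T' : SimpleGraph V} (hT : T.IsTree) {K : Set V}
    (hK : ∀ a ∈ K, ∀ b ∈ K, (ins T K).Reachable a b) (hT' : T'.Connected) (hA : Agree T T' K) :
    ∀ a ∈ K, ∀ b ∈ K, (ins T' K).Reachable a b := by
  intro a ha b hb
  have hex : ∀ v, ∃ k ∈ K, (off T K).Reachable v k := by
    intro v
    obtain ⟨w⟩ := hT.connected.preconnected v a
    exact W1_exists w ha
  choose rt hrt hr using hex
  have hid : ∀ v ∈ K, rt v = v := fun v hv => (W1_eq hT hK hv (hrt v) (hr v)).symm
  have hstep : ∀ u v, T'.Adj u v → (ins T' K).Reachable (rt u) (rt v) := by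
    intro u v huv
    by_cases h : u ∈ K ∧ v ∈ K
    · rw [hid u h.1, hid v h.2]
      have h1 : (ins T' K).Adj u v := ⟨huv, h.1, h.2⟩
      exact h1.reachable
    · have h1 : T.Adj u v := (hA u v h).1 huv
      have h2 : (off T K).Adj u v := ⟨h1, h⟩
      have h3 : rt u = rt v := W1_eq hT hK (hrt u) (hrt v)
        ((hr u).symm.trans (h2.reachable.trans (hr v)))
      rw [h3]
  have hwalk : ∀ u v (_ : T'.Walk u v), (ins T' K).Reachable (rt u) (rt v) := by
    intro u v w
    induction w with
    | nil => exact SimpleGraph.Reachable.refl _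
    | cons hadj _ ih => exact (hstep _ _ hadj).trans ih
  obtain ⟨w⟩ := hT'.preconnected a b
  have h := hwalk a b w
  rwa [hid a ha, hid b hb] at h

end Pool.Agent.LibHP88
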