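import Mathlib
import Pool.Agent.LibHP88.Defs
import Pool.Agent.LibHP88.W1

/-! Row W2.
mix_conn: mix T T1 T2 K1 K2 = ins T1 K1 ⊔ ins T2 K2 ⊔ (off T K1 ⊓ off T K2). Enough: every edge ab of T is mix-Reachable (then walks of T transfer; nonempty from hT). If a, b ∈ K1: (ins T1 K1).Reachable a b by tree_retract (W1), and ins T1 K1 ≤ mix. If a, b ∈ K2: same. Otherwise ab is an edge of off T K1 ⊓ off T K2 ≤ mix.
mix_agree: for a pair a, b with ¬ (a, b ∈ K) where K1 ⊆ K, K2 ⊆ K: not both in K1, not both in K2, so mix.Adj a b ⟺ T.Adj a b.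
-/

set_option autoImplicit false

namespace Pool.Agent.LibHP88

open scoped Classical

/-- W2: replacing two disjoint subtrees keeps the graph connected -/
theorem mix_conn {V : Type*} {T T1 T2 : SimpleGraph V} (hT : T.IsTree) {K1 K2 : Set V}
    (h1 : ∀ a ∈ K1, ∀ b ∈ K1, (ins T K1).Reachable a b) (h2 : ∀ a ∈ K2, ∀ b ∈ K2, (ins T K2).Reachable a b)
    (hT1 : T1.Connected) (hT2 : T2.Connected) (hA1 : Agree T T1 K1) (hA2 : Agree T T2 K2) :
    (mix T T1 T2 K1 K2).Connected := by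
  have e1 : ins T1 K1 ≤ mix T T1 T2 K1 K2 := le_sup_left.trans le_sup_left
  have e2 : ins T2 K2 ≤ mix T T1 T2 K1 K2 := le_sup_right.trans le_sup_left
  have e3 : off T K1 ⊓ off T K2 ≤ mix T T1 T2 K1 K2 := le_sup_right
  have key : ∀ a b, T.Adj a b → (mix T T1 T2 K1 K2).Reachable a b := by
    intro a b hab
    by_cases hk1 : a ∈ K1 ∧ b ∈ K1
    · exact (tree_retract hT h1 hT1 hA1 a hk1.1 b hk1.2).mono e1
    by_cases hk2 : a ∈ K2 ∧ b ∈ K2
    · exact (tree_retract hT h2 hT2 hA2 a hk2.1 b hk2.2).mono e2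
    · have h : (off T K1 ⊓ off T K2).Adj a b := ⟨⟨hab, hk1⟩, ⟨hab, hk2⟩⟩
      exact (e3 h).reachable
  have := hT.1.nonempty
  refine ⟨fun a b => ?_⟩
  obtain ⟨w⟩ := hT.1.preconnected a b
  induction w with
  | nil => exact SimpleGraph.Reachable.refl _
  | cons h _ ih => exact (key _ _ h).trans ih

theorem mix_agree {V : Type*} (T T1 T2 : SimpleGraph V) {K1 K2 K : Set V} (h1 : K1 ⊆ K) (h2 : K2 ⊆ K) :
    Agree T (mix T T1 T2 K1 K2) K := by
  intro a b hab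
  constructor
  · rintro ((h | h) | h)
    · exact absurd ⟨h1 h.2.1, h1 h.2.2⟩ hab
    · exact absurd ⟨h2 h.2.1, h2 h.2.2⟩ hab
    · exact h.1.1
  · intro h
    exact Or.inr ⟨⟨h, fun h' => hab ⟨h1 h'.1, h1 h'.2⟩⟩, ⟨h, fun h' => hab ⟨h2 h'.1, h2 h'.2⟩⟩⟩

theorem mix_le {V : Type*} {G T T1 T2 : SimpleGraph V} (K1 K2 : Set V) (h : T ≤ G) (h1 : T1 ≤ G) (h2 : T2 ≤ G) :
    mix T T1 T2 K1 K2 ≤ G := by
  intro a b hab
  rcases hab with (h' | h') | h'
  · exact h1 h'.1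
  · exact h2 h'.1
  · exact h h'.1.1

end Pool.Agent.LibHP88
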