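import Mathlib
import Pool.Agent.LibHP88.Defs

/-! Row W3.
mix_dg: for v ∈ K1 (so v ∉ K2): mix.Adj v w ⟺ (w ∈ K1 ∧ T1.Adj v w) ∨ (w ∉ K1 ∧ T.Adj v w) ⟺ T1.Adj v w (Agree T T1 K1 for w ∉ K1). Same for K2. For v in neither: mix.Adj v w ⟺ T.Adj v w.
mix_te: dg T1 v = dg T v for v ∉ K1 (Agree), dg T2 v = dg T v for v ∉ K2. With e(T, v) := dg T v - 3: te T1 = Σ_{v ∈ K1} e(T1, v) + Σ_{v ∉ K1} e(T, v) ≤ te T gives Σ_{K1} e(T1) ≤ Σ_{K1} e(T); same for K2; te mix = Σ_{K1} e(T1) + Σ_{K2} e(T2) + Σ_{rest} e(T) ≤ te T. (Convenient: write all sums over univ with if-then-else, or prove the identity te mix + 2 te T = te T1 + te T2 + te T pointwise: e(mix, v) + e(T, v) = e(T1, v) + e(T2, v) for every v (three cases), so te mix + te T = te T1 + te T2.)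
-/

set_option autoImplicit false

namespace Pool.Agent.LibHP88

open scoped Classical

/-- W3: degrees of the mixed graph -/
theorem mix_dg {V : Type*} {T T1 T2 : SimpleGraph V} {K1 K2 : Set V} (hA1 : Agree T T1 K1) (hA2 : Agree T T2 K2)
    (hd : Disjoint K1 K2) : (∀ v ∈ K1, dg (mix T T1 T2 K1 K2) v = dg T1 v) ∧
      (∀ v ∈ K2, dg (mix T T1 T2 K1 K2) v = dg T2 v) ∧
      ∀ v, v ∉ K1 → v ∉ K2 → dg (mix T T1 T2 K1 K2) v = dg T v := by
  have hd' : ∀ v, v ∈ K1 → v ∉ K2 := fun v h1 h2 => Set.disjoint_left.1 hd h1 h2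
  refine ⟨fun v hv => ?_, fun v hv => ?_, fun v hv1 hv2 => ?_⟩
  · have h2 := hd' v hv
    have h3 : (mix T T1 T2 K1 K2).neighborSet v = T1.neighborSet v := by
      ext w
      have := hA1 v w
      simp only [SimpleGraph.mem_neighborSet, mix, SimpleGraph.sup_adj, SimpleGraph.inf_adj, ins, off]
      tauto
    unfold dg; rw [h3]
  · have h2 : v ∉ K1 := fun h => hd' v h hv
    have h3 : (mix T T1 T2 K1 K2).neighborSet v = T2.neighborSet v := by
      ext w
      have := hA2 v w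
      simp only [SimpleGraph.mem_neighborSet, mix, SimpleGraph.sup_adj, SimpleGraph.inf_adj, ins, off]
      tauto
    unfold dg; rw [h3]
  · have h3 : (mix T T1 T2 K1 K2).neighborSet v = T.neighborSet v := by
      ext w
      simp only [SimpleGraph.mem_neighborSet, mix, SimpleGraph.sup_adj, SimpleGraph.inf_adj, ins, off]
      tauto
    unfold dg; rw [h3]

/-- W3: excess of the mixed graph -/
theorem mix_te {V : Type*} [Fintype V] {T T1 T2 : SimpleGraph V} {K1 K2 : Set V} (hA1 : Agree T T1 K1)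
    (hA2 : Agree T T2 K2) (hd : Disjoint K1 K2) (h1 : te T1 ≤ te T) (h2 : te T2 ≤ te T) :
    te (mix T T1 T2 K1 K2) ≤ te T := by
  obtain ⟨m1, m2, m3⟩ := mix_dg hA1 hA2 hd
  have hT1 : ∀ v, v ∉ K1 → dg T1 v = dg T v := by
    intro v hv
    have h3 : T1.neighborSet v = T.neighborSet v := by
      ext w
      exact hA1 v w (fun h => hv h.1)
    unfold dg; rw [h3]
  have hT2 : ∀ v, v ∉ K2 → dg T2 v = dg T v := by
    intro v hv
    have h3 : T2.neighborSet v = T.neighborSet v := by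
      ext w
      exact hA2 v w (fun h => hv h.1)
    unfold dg; rw [h3]
  have key : te (mix T T1 T2 K1 K2) + te T = te T1 + te T2 := by
    unfold te
    rw [← Finset.sum_add_distrib, ← Finset.sum_add_distrib]
    refine Finset.sum_congr rfl (fun v _ => ?_)
    by_cases h1 : v ∈ K1
    · have h2 : v ∉ K2 := fun h2 => Set.disjoint_left.1 hd h1 h2
      rw [m1 v h1, hT2 v h2]
    · by_cases h2 : v ∈ K2
      · rw [m2 v h2, hT1 v h1]; omega
      · rw [m3 v h1 h2, hT1 v h1, hT2 v h2]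
  omega

end Pool.Agent.LibHP88
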