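import Mathlib
import Pool.Agent.LibHP88.Defs

/-! Row W4.
Take a path q of ins T K from x to y (hK). It has a vertex z ∈ Z: otherwise all its edges have both ends in Zᶜ and q would be a walk of ins T Zᶜ, against hZ (Walk.transfer, or an induction). z ≠ x, y; z ∈ K: z is an end of an edge of ins T K (z ≠ x). Split q at z (takeUntil, dropUntil): q = q1 ++ q2, q2 from z to y not nil: q2 = cons (z z') q3. Since q is a path, the edge zz' is not an edge of q1 or q3. T' := (T \ {zz'}) ⊔ xy = (T.deleteEdges {s(z,z')}) ⊔ SimpleGraph.fromEdgeSet {s(x,y)}.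
Connected: every edge of T is T'-Reachable: an edge different from zz' is in T'; z and z' are joined by q1 reversed (z to x), the edge xy, q3 reversed (y to z'). Agree T T' K: x, y ∈ K and z, z' ∈ K (edges of ins T K), so pairs not inside K are unchanged. T' ≤ G.
Degrees: N_{T'}(z) = N_T(z) minus z' (z ≠ x, y): dg T' z + 1 = dg T z. N_{T'}(x) ⊆ N_T(x) ∪ {y}, N_{T'}(y) ⊆ N_T(y) ∪ {x}, N_{T'}(v) ⊆ N_T(v) for the others (Set.ncard_le_ncard, finite; Set.ncard_insert_le).
-/

set_option autoImplicit false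

namespace Pool.Agent.LibHP88

open scoped Classical

/-- W4: the exchange -/
theorem exch {V : Type*} [Finite V] {G T : SimpleGraph V} (hT : T.Connected) (hTG : T ≤ G) {K Z : Set V} {x y : V}
    (hG : G.Adj x y) (hxy : ¬ T.Adj x y) (hx : x ∈ K) (hy : y ∈ K) (hxZ : x ∉ Z) (hyZ : y ∉ Z)
    (hK : (ins T K).Reachable x y) (hZ : ¬ (ins T Zᶜ).Reachable x y) :
    ∃ z ∈ Z, z ∈ K ∧ ∃ T' : SimpleGraph V, T' ≤ G ∧ T'.Connected ∧ Agree T T' K ∧ dg T' z + 1 = dg T z ∧
      dg T' x ≤ dg T x + 1 ∧ dg T' y ≤ dg T y + 1 ∧ ∀ v, v ≠ x → v ≠ y → dg T' v ≤ dg T v := by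
  obtain ⟨q, hq⟩ := hK.exists_isPath
  have hzex : ∃ z ∈ q.support, z ∈ Z := by
    by_contra hcon
    push Not at hcon
    apply hZ
    refine ⟨q.transfer (ins T Zᶜ) ?_⟩
    intro e he
    induction e using Sym2.ind with
    | _ a b =>
      have h1 := q.adj_of_mem_edges he
      exact ⟨h1.1, hcon a (q.fst_mem_support_of_mem_edges he),
        hcon b (q.snd_mem_support_of_mem_edges he)⟩
  obtain ⟨z, hzq, hzZ⟩ := hzex
  have hzx : z ≠ x := fun h => hxZ (h ▸ hzZ)
  have hzy : z ≠ y := fun h => hyZ (h ▸ hzZ)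
  have hspec := q.take_spec hzq
  set q1 := q.takeUntil z hzq with hq1
  set q2 := q.dropUntil z hzq with hq2
  clear_value q1 q2
  cases q2 with
  | nil => exact absurd rfl hzy
  | @cons _ z' _ hadj q3 =>
    have hnd : (q1.edges ++ (s(z, z') :: q3.edges)).Nodup := by
      have h1 := hq.isTrail.edges_nodup
      rw [← hspec, SimpleGraph.Walk.edges_append, SimpleGraph.Walk.edges_cons] at h1
      exact h1
    obtain ⟨-, hnd2, hnd3⟩ := List.nodup_append.1 hnd
    have hq1e : ∀ e ∈ q1.edges, e ≠ s(z, z') := fun e he => hnd3 e he _ List.mem_cons_self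
    have hq3e : ∀ e ∈ q3.edges, e ≠ s(z, z') := by
      intro e he h
      subst h
      exact (List.nodup_cons.1 hnd2).1 he
    have hzz : T.Adj z z' := hadj.1
    have hzK : z ∈ K := hadj.2.1
    have hzK' : z' ∈ K := hadj.2.2
    let T' : SimpleGraph V := T.deleteEdges {s(z, z')} ⊔ SimpleGraph.fromEdgeSet {s(x, y)}
    have hadj' : ∀ a b, T'.Adj a b ↔ (T.Adj a b ∧ s(a, b) ≠ s(z, z')) ∨ (s(a, b) = s(x, y) ∧ a ≠ b) := by
      intro a b
      change (T.deleteEdges {s(z, z')} ⊔ SimpleGraph.fromEdgeSet {s(x, y)}).Adj a b ↔ _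
      rw [SimpleGraph.sup_adj, SimpleGraph.deleteEdges_adj, SimpleGraph.fromEdgeSet_adj,
        Set.mem_singleton_iff, Set.mem_singleton_iff]
    have hG' : T' ≤ G := by
      intro a b hab
      rcases (hadj' a b).1 hab with h | h
      · exact hTG h.1
      · rw [← SimpleGraph.mem_edgeSet, h.1, SimpleGraph.mem_edgeSet]
        exact hG
    have htr : ∀ {a b : V} (w : (ins T K).Walk a b), (∀ e ∈ w.edges, e ≠ s(z, z')) →
        T'.Reachable a b := by
      intro a b w hw
      refine ⟨w.transfer T' ?_⟩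
      intro e he
      induction e using Sym2.ind with
      | _ a b =>
        rw [SimpleGraph.mem_edgeSet, hadj']
        exact Or.inl ⟨(w.adj_of_mem_edges he).1, hw _ he⟩
    have hr : T'.Reachable z z' := by
      have h1 : T'.Adj x y := (hadj' x y).2 (Or.inr ⟨rfl, hG.ne⟩)
      exact ((htr q1 hq1e).symm.trans h1.reachable).trans (htr q3 hq3e).symm
    have hedge : ∀ a b, T.Adj a b → T'.Reachable a b := by
      intro a b hab
      by_cases h : s(a, b) = s(z, z')
      · rcases Sym2.eq_iff.1 h with ⟨rfl, rfl⟩ | ⟨rfl, rfl⟩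
        · exact hr
        · exact hr.symm
      · exact ((hadj' a b).2 (Or.inl ⟨hab, h⟩)).reachable
    have hconn : T'.Connected := by
      haveI := hT.nonempty
      refine ⟨fun a b => ?_⟩
      obtain ⟨w⟩ := hT.preconnected a b
      induction w with
      | nil => exact SimpleGraph.Reachable.refl _
      | cons h _ ih => exact (hedge _ _ h).trans ih
    refine ⟨z, hzZ, hzK, T', hG', hconn, ?_, ?_, ?_, ?_, ?_⟩
    · intro a b hab
      rw [hadj']
      constructor
      · rintro (h | h)
        · exact h.1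
        · exfalso
          rcases Sym2.eq_iff.1 h.1 with ⟨rfl, rfl⟩ | ⟨rfl, rfl⟩
          · exact hab ⟨hx, hy⟩
          · exact hab ⟨hy, hx⟩
      · intro h
        refine Or.inl ⟨h, fun h2 => hab ?_⟩
        rcases Sym2.eq_iff.1 h2 with ⟨rfl, rfl⟩ | ⟨rfl, rfl⟩
        · exact ⟨hzK, hzK'⟩
        · exact ⟨hzK', hzK⟩
    · have h1 : T'.neighborSet z = T.neighborSet z \ {z'} := by
        ext w
        rw [SimpleGraph.mem_neighborSet, hadj', Set.mem_sdiff, SimpleGraph.mem_neighborSet,
          Set.mem_singleton_iff]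
        constructor
        · rintro (h | h)
          · exact ⟨h.1, fun hw => h.2 (by rw [hw])⟩
          · exfalso
            rcases Sym2.eq_iff.1 h.1 with ⟨h2, _⟩ | ⟨h2, _⟩
            · exact hzx h2
            · exact hzy h2
        · rintro ⟨h, h2⟩
          refine Or.inl ⟨h, fun h3 => ?_⟩
          rcases Sym2.eq_iff.1 h3 with ⟨_, h4⟩ | ⟨h4, h5⟩
          · exact h2 h4
          · exact h2 (h5.trans h4)
      unfold dg
      rw [h1]
      exact Set.ncard_diff_singleton_add_one (by exact hzz) (Set.toFinite _)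
    · unfold dg
      refine le_trans (Set.ncard_le_ncard (t := insert y (T.neighborSet x)) ?_ (Set.toFinite _))
        (Set.ncard_insert_le _ _)
      intro w hw
      rcases (hadj' x w).1 hw with h | h
      · exact Or.inr h.1
      · rcases Sym2.eq_iff.1 h.1 with ⟨_, h2⟩ | ⟨h2, _⟩
        · exact Or.inl h2
        · exact absurd h2 hG.ne
    · unfold dg
      refine le_trans (Set.ncard_le_ncard (t := insert x (T.neighborSet y)) ?_ (Set.toFinite _))
        (Set.ncard_insert_le _ _)
      intro w hw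
      rcases (hadj' y w).1 hw with h | h
      · exact Or.inr h.1
      · rcases Sym2.eq_iff.1 h.1 with ⟨h2, _⟩ | ⟨_, h2⟩
        · exact absurd h2.symm hG.ne
        · exact Or.inl h2
    · intro v hvx hvy
      unfold dg
      refine Set.ncard_le_ncard ?_ (Set.toFinite _)
      intro w hw
      rcases (hadj' v w).1 hw with h | h
      · exact h.1
      · exfalso
        rcases Sym2.eq_iff.1 h.1 with ⟨h2, _⟩ | ⟨h2, _⟩
        · exact hvx h2
        · exact hvy h2

end Pool.Agent.LibHP88
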