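import Mathlib
import Pool.Agent.LibHP88.Defs
import Pool.Agent.LibHP88.W2
import Pool.Agent.LibHP88.W3
import Pool.Agent.LibHP88.W4
import Pool.Agent.LibHP88.W5
import Pool.Agent.LibHP88.W6

/-! Row W7.
Write S := St N. By contradiction: ¬ (ins T Sᶜ).Reachable x y. Since x, y ∉ S = St (N+1), x and y are Good for S: T1 (for x, Agree T T1 K1, K1 := comp T S x, dg T1 x ≤ 2, te T1 ≤ te T), T2 (for y, K2 := comp T S y). K1, K2 are disjoint. M := mix T T1 T2 K1 K2: connected (W2 mix_conn with comp_conn), ≤ G, te M ≤ te T (mix_te), dg M x = dg T1 x ≤ 2, dg M y ≤ 2 (mix_dg); for z ∈ S: dg M z = dg T z (z ∉ K1, K2 by comp_notin). ¬ M.Adj x y: mix_agree-type: x, y are not both in K1 nor both in K2, so M.Adj x y ⟺ T.Adj x y, which would make them reachable in ins T Sᶜ.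
(*) For every set Z ⊆ S: (ins M Zᶜ).Reachable a b → (ins T Zᶜ).Reachable a b: an edge ab of ins M Zᶜ is a T-edge or both ends are in K1 (or in K2), and then a, b are reachable in ins T Sᶜ ≤ ins T Zᶜ.
Let j be the least index with ¬ (ins T (St j)ᶜ).Reachable x y (Nat.find; j ≤ N; St j ⊆ S by St_mono).
Case j = 0: W4 exch for M with K := univ, Z := St 0 = {u} (u ∈ S, so x, y ≠ u): (ins M univ).Reachable x y because M is connected; ¬ (ins M Zᶜ).Reachable x y by (*). It gives z = u and T' with dg T' u + 1 = dg M u = dg T u ≥ 4: te T' < te M ≤ te T (te_exch), T' ≤ G connected: contradiction to hmin.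
Case j = i + 1: (ins T (St i)ᶜ).Reachable x y; K := comp T (St i) x ∋ x, y. x ∉ St i. K1, K2 ⊆ K (comp_anti with St i ⊆ S; comp_eq for y). Agree T M K (mix_agree). (ins M K).Reachable x y by tree_retract (W1) with comp_conn. exch with Z := St (i+1): z ∈ St (i+1), z ∈ K, so z ∉ St i (comp_notin), hence ¬ Good G T (St i) z. T' : Agree M T' K, so Agree T T' K, and K = comp T (St i) z (comp_eq). If dg M z ≥ 4: te T' < te T, contradiction to hmin. Otherwise dg T' z ≤ 2, te T' ≤ te M ≤ te T: Good G T (St i) z, contradiction.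
-/

set_option autoImplicit false

namespace Pool.Agent.LibHP88

open scoped Classical

/-- W7: no edge of `G` joins different components of `T - S`, `S` the closure -/
theorem claim {V : Type*} [Fintype V] {G T : SimpleGraph V} (hT : T.IsTree) (hTG : T ≤ G)
    (hmin : ∀ T' : SimpleGraph V, T' ≤ G → T'.Connected → te T ≤ te T') {u : V} (hu : 4 ≤ dg T u) {N : ℕ}
    (hN : St G T u (N + 1) = St G T u N) {x y : V} (hx : x ∉ St G T u N) (hy : y ∉ St G T u N) (hxy : G.Adj x y) :
    (ins T (St G T u N)ᶜ).Reachable x y := by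
  by_contra hne
  have good : ∀ v, v ∉ St G T u N → Good G T (St G T u N) v := by
    intro v hv
    by_contra hb
    have h : v ∈ St G T u (N + 1) := Or.inr hb
    rw [hN] at h
    exact hv h
  obtain ⟨T1, l1, c1, te1, d1, A1⟩ := good x hx
  obtain ⟨T2, l2, c2, te2, d2, A2⟩ := good y hy
  have hxK1 : x ∈ comp T (St G T u N) x := SimpleGraph.Reachable.refl x
  have hyK2 : y ∈ comp T (St G T u N) y := SimpleGraph.Reachable.refl y
  have hdis : Disjoint (comp T (St G T u N) x) (comp T (St G T u N) y) := by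
    rw [Set.disjoint_left]
    intro z h1 h2
    exact hne (SimpleGraph.Reachable.trans (h1 : (ins T (St G T u N)ᶜ).Reachable x z)
      (SimpleGraph.Reachable.symm (h2 : (ins T (St G T u N)ᶜ).Reachable y z)))
  have hMc := mix_conn hT (comp_conn hx) (comp_conn hy) c1 c2 A1 A2
  have hMG := mix_le (comp T (St G T u N) x) (comp T (St G T u N) y) hTG l1 l2
  have hMte := mix_te A1 A2 hdis te1 te2
  obtain ⟨g1, g2, g3⟩ := mix_dg A1 A2 hdis
  have hdx := g1 x hxK1
  have hdy := g2 y hyK2
  have hMxy : ¬ (mix T T1 T2 (comp T (St G T u N) x) (comp T (St G T u N) y)).Adj x y := by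
    rintro ((h | h) | h)
    · exact hne h.2.2
    · exact hne (SimpleGraph.Reachable.symm h.2.1)
    · have : (ins T (St G T u N)ᶜ).Adj x y := ⟨h.1.1, hx, hy⟩
      exact hne this.reachable
  have hstar : ∀ Z : Set V, Z ⊆ St G T u N → ∀ a b,
      (ins (mix T T1 T2 (comp T (St G T u N) x) (comp T (St G T u N) y)) Zᶜ).Reachable a b →
      (ins T Zᶜ).Reachable a b := by
    intro Z hZ a b hab
    have hmono : ins T (St G T u N)ᶜ ≤ ins T Zᶜ := by
      intro p q hpq
      exact ⟨hpq.1, fun h => hpq.2.1 (hZ h), fun h => hpq.2.2 (hZ h)⟩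
    obtain ⟨w⟩ := hab
    induction w with
    | nil => exact SimpleGraph.Reachable.refl _
    | cons h _ ih =>
      refine SimpleGraph.Reachable.trans ?_ ih
      obtain ⟨h0, ha, hb⟩ := h
      rcases h0 with (h' | h') | h'
      · exact (SimpleGraph.Reachable.trans (SimpleGraph.Reachable.symm h'.2.1) h'.2.2).mono hmono
      · exact (SimpleGraph.Reachable.trans (SimpleGraph.Reachable.symm h'.2.1) h'.2.2).mono hmono
      · exact SimpleGraph.Adj.reachable (G := ins T Zᶜ) ⟨h'.1.1, ha, hb⟩
  have hex : ∃ j, ¬ (ins T (St G T u j)ᶜ).Reachable x y := ⟨N, hne⟩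
  have hj := Nat.find_spec hex
  have hjN : Nat.find hex ≤ N := Nat.find_min' hex hne
  generalize hjj : Nat.find hex = j at hj hjN
  cases j with
  | zero =>
    have hus : u ∈ St G T u N := St_u G T u N
    have hxu : x ∉ St G T u 0 := fun h => hx (by rw [show x = u from h]; exact hus)
    have hyu : y ∉ St G T u 0 := fun h => hy (by rw [show y = u from h]; exact hus)
    have hr : (ins (mix T T1 T2 (comp T (St G T u N) x) (comp T (St G T u N) y)) Set.univ).Reachable x y := by
      refine (hMc.preconnected x y).mono ?_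
      intro p q hpq
      exact ⟨hpq, trivial, trivial⟩
    obtain ⟨z, hz, -, T', hT'G, hT'c, -, hd, e1, e2, e3⟩ := exch hMc hMG hxy hMxy (Set.mem_univ x)
      (Set.mem_univ y) hxu hyu hr (fun h => hj (hstar _ (St_mono G T u (Nat.zero_le N)) _ _ h))
    have hzu : z = u := hz
    subst hzu
    have hz1 : z ∉ comp T (St G T z N) x := fun h => comp_notin hx h hus
    have hz2 : z ∉ comp T (St G T z N) y := fun h => comp_notin hy h hus
    have hdz := g3 z hz1 hz2
    obtain ⟨-, hlt⟩ := te_exch (z := z) (hdx.le.trans d1) (hdy.le.trans d2) e1 e2 e3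
    have h1 := hlt (by rw [hdz]; exact hu) hd
    have h2 := hmin T' hT'G hT'c
    omega
  | succ i =>
    have hi : (ins T (St G T u i)ᶜ).Reachable x y := by
      by_contra h
      have := Nat.find_min' hex h
      omega
    have hiN : St G T u i ⊆ St G T u N := St_mono G T u (by omega)
    have hi1N : St G T u (i + 1) ⊆ St G T u N := St_mono G T u hjN
    have hxi : x ∉ St G T u i := fun h => hx (hiN h)
    have hyK : y ∈ comp T (St G T u i) x := hi
    have hxK : x ∈ comp T (St G T u i) x := SimpleGraph.Reachable.refl x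
    have hK1 : comp T (St G T u N) x ⊆ comp T (St G T u i) x := comp_anti hiN x
    have hK2 : comp T (St G T u N) y ⊆ comp T (St G T u i) x := by
      rw [← comp_eq hyK]; exact comp_anti hiN y
    have hag := mix_agree T T1 T2 hK1 hK2
    have hr := tree_retract hT (comp_conn hxi) hMc hag x hxK y hyK
    obtain ⟨z, hz, hzK, T', hT'G, hT'c, hA', hd, e1, e2, e3⟩ := exch hMc hMG hxy hMxy hxK hyK
      (fun h => hx (hi1N h)) (fun h => hy (hi1N h)) hr (fun h => hj (hstar _ hi1N _ _ h))
    have hzi : z ∉ St G T u i := comp_notin hxi hzK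
    have hzb : ¬ Good G T (St G T u i) z := by
      rcases hz with h | h
      · exact absurd h hzi
      · exact h
    obtain ⟨hle, hlt⟩ := te_exch (z := z) (hdx.le.trans d1) (hdy.le.trans d2) e1 e2 e3
    have h2 := hmin T' hT'G hT'c
    by_cases h4 : 4 ≤ dg (mix T T1 T2 (comp T (St G T u N) x) (comp T (St G T u N) y)) z
    · have h1 := hlt h4 hd
      omega
    · refine hzb ⟨T', hT'G, hT'c, hle.trans hMte, by omega, ?_⟩
      rw [comp_eq hzK]
      intro a b hab
      exact (hA' a b hab).trans (hag a b hab)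

end Pool.Agent.LibHP88
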