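import Mathlib
import Pool.Agent.LibHP88.Defs
import Pool.Agent.LibHP88.F1

/-! Row W8.
Root T at u: tree_rooted (F1): p, dep, every edge is {v, p v}, (ch x).ncard + 1 = dg T x for x ≠ u, (ch u).ncard = dg T u. Σ_{s ∈ S} (ch s).ncard ≥ 4 + 2 (|S| - 1) = 2 |S| + 2. The sets ch s are disjoint; their union is {y ≠ u | p y ∈ S}; at most |S| - 1 of its elements are in S (they are in S minus u). So Tops := {y | y ∉ S ∧ p y ∈ S} (y ≠ u automatic) has at least |S| + 3 elements.
top v for v ∉ S: defined by recursion on dep: top v = v if p v ∈ S, otherwise top (p v) (terminates because u ∈ S; v ≠ u). Easier: prove: for every v ∉ S there is y ∈ Tops with (ins T Sᶜ).Reachable v y (induct on dep v). And: for y ∈ Tops let A_y := {v | (ins T Sᶜ).Reachable y v} = comp T S y. Disjoint for different tops: use the invariant `desc`-free argument: show that if (ins T Sᶜ).Reachable y v, y ∈ Tops then v is obtained from y by going down, i.e. there is n with p^[n] v = y and p^[m] v ∉ S for m ≤ n. (induct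 on the walk: an edge of ins T Sᶜ from v to v' is p v' = v (then n + 1) or p v = v': then n > 0 because p y ∈ S but v' = p v ∉ S; so n - 1 works.) If two tops y, y' have a common v: p^[n] v = y, p^[n'] v = y' with n < n' say: then p y = p^[n+1] v with n + 1 ≤ n' is ∉ S: contradiction; so n = n', y = y'.
C := image of Tops under y ↦ (A_y).toFinset: card C = |Tops| (injective because disjoint and nonempty). Each A_y is nonempty, disjoint from S, closed under ins T Sᶜ-reachability.
-/

set_option autoImplicit false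

namespace Pool.Agent.LibHP88

open scoped Classical

private theorem w8_down {V : Type*} {T : SimpleGraph V} {S : Finset V} {u : V} {p : V → V}
    (hedge : ∀ x y, T.Adj x y → (x ≠ u ∧ p x = y) ∨ (y ≠ u ∧ p y = x)) {y v : V} (hy : y ∉ S)
    (hpy : p y ∈ S) (h : (ins T (S : Set V)ᶜ).Reachable y v) :
    ∃ n : ℕ, p^[n] v = y ∧ ∀ m ≤ n, p^[m] v ∉ S := by
  rw [SimpleGraph.reachable_iff_reflTransGen] at h
  induction h with
  | refl =>
    refine ⟨0, rfl, fun m hm => ?_⟩
    have h0 : m = 0 := by omega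
    rw [h0]
    exact hy
  | @tail v v' _ hadj ih =>
    obtain ⟨n, h1, h2⟩ := ih
    obtain ⟨h3, h4, h5⟩ := hadj
    have h5' : v' ∉ S := fun hc => h5 (Finset.mem_coe.2 hc)
    rcases hedge v v' h3 with ⟨_, h6⟩ | ⟨_, h6⟩
    · rcases n with _ | n
      · exfalso
        have h7 : v = y := h1
        rw [h7] at h6
        rw [h6] at hpy
        exact h5' hpy
      · refine ⟨n, ?_, fun m hm => ?_⟩
        · rw [← h6, ← Function.iterate_succ_apply]
          exact h1
        · rw [← h6, ← Function.iterate_succ_apply]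
          exact h2 (m + 1) (by omega)
    · refine ⟨n + 1, ?_, fun m hm => ?_⟩
      · rw [Function.iterate_succ_apply, h6]
        exact h1
      · rcases m with _ | m
        · exact h5'
        · rw [Function.iterate_succ_apply, h6]
          exact h2 m (by omega)

private theorem w8_uniq {V : Type*} {T : SimpleGraph V} {S : Finset V} {u : V} {p : V → V}
    (hedge : ∀ x y, T.Adj x y → (x ≠ u ∧ p x = y) ∨ (y ≠ u ∧ p y = x)) {y y' v : V} (hy : y ∉ S)
    (hpy : p y ∈ S) (hy' : y' ∉ S) (hpy' : p y' ∈ S) (h : (ins T (S : Set V)ᶜ).Reachable y v)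
    (h' : (ins T (S : Set V)ᶜ).Reachable y' v) : y = y' := by
  obtain ⟨n, h1, h2⟩ := w8_down hedge hy hpy h
  obtain ⟨n', h1', h2'⟩ := w8_down hedge hy' hpy' h'
  rcases lt_trichotomy n n' with hlt | heq | hlt
  · exfalso
    have h3 := h2' (n + 1) (by omega)
    rw [Function.iterate_succ_apply', h1] at h3
    exact h3 hpy
  · rw [← h1, ← h1', heq]
  · exfalso
    have h3 := h2 (n' + 1) (by omega)
    rw [Function.iterate_succ_apply', h1'] at h3
    exact h3 hpy'

private theorem w8_sum {V : Type*} {S : Finset V} {u : V} (hu : u ∈ S) (f : V → ℕ) (h1 : 4 ≤ f u)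
    (h2 : ∀ z ∈ S, z ≠ u → 2 ≤ f z) : 2 * S.card + 2 ≤ ∑ s ∈ S, f s := by
  rw [← Finset.add_sum_erase S f hu]
  have h3 : (S.erase u).card • 2 ≤ ∑ s ∈ S.erase u, f s := by
    apply Finset.card_nsmul_le_sum
    intro z hz
    exact h2 z (Finset.mem_of_mem_erase hz) (Finset.ne_of_mem_erase hz)
  rw [Finset.card_erase_of_mem hu, smul_eq_mul] at h3
  have h4 : 1 ≤ S.card := Finset.card_pos.2 ⟨u, hu⟩
  omega

/-- W8: the number of components of `T - S` -/
theorem count_comp {V : Type*} [Fintype V] {T : SimpleGraph V} (hT : T.IsTree) {S : Finset V} {u : V} (hu : u ∈ S)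
    (hd : 4 ≤ dg T u) (hS : ∀ z ∈ S, z ≠ u → 3 ≤ dg T z) :
    ∃ C : Finset (Finset V), S.card + 3 ≤ C.card ∧
      (∀ A ∈ C, A.Nonempty ∧ Disjoint A S ∧ ∀ x ∈ A, ∀ y, (ins T (S : Set V)ᶜ).Reachable x y → y ∈ A) ∧
      ∀ A ∈ C, ∀ B ∈ C, A ≠ B → Disjoint A B := by
  obtain ⟨p, dep, -, hedge, hch, hchu⟩ := tree_rooted hT u
  let U1 : Finset V := Finset.univ.filter (fun y => y ≠ u ∧ p y ∈ S)
  have hU1 : U1.card = ∑ s ∈ S, (ch u p s).ncard := by
    rw [Finset.card_eq_sum_card_fiberwise (f := p) (t := S)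
      (fun y hy => (Finset.mem_filter.1 (Finset.mem_coe.1 hy)).2.2)]
    apply Finset.sum_congr rfl
    intro s hs
    have h1 : ch u p s = ((U1.filter (fun y => p y = s) : Finset V) : Set V) := by
      ext y
      rw [Finset.mem_coe, Finset.mem_filter, Finset.mem_filter]
      constructor
      · rintro ⟨h1, h2⟩
        exact ⟨⟨Finset.mem_univ _, h1, h2 ▸ hs⟩, h2⟩
      · rintro ⟨⟨_, h1, _⟩, h2⟩
        exact ⟨h1, h2⟩
    rw [h1, Set.ncard_coe_finset]
  have hU1card : 2 * S.card + 2 ≤ U1.card := by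
    rw [hU1]
    apply w8_sum hu
    · rw [hchu]
      exact hd
    · intro z hz hzu
      have h1 := hch z hzu
      have h2 := hS z hz hzu
      omega
  let Tops : Finset V := U1.filter (fun y => ¬ y ∈ S)
  have hTops : S.card + 3 ≤ Tops.card := by
    have h1 := Finset.card_filter_add_card_filter_not (s := U1) (fun y => y ∈ S)
    have h2 : (U1.filter (fun y => y ∈ S)).card ≤ (S.erase u).card := by
      apply Finset.card_le_card
      intro y hy
      obtain ⟨h3, h4⟩ := Finset.mem_filter.1 hy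
      exact Finset.mem_erase.2 ⟨(Finset.mem_filter.1 h3).2.1, h4⟩
    rw [Finset.card_erase_of_mem hu] at h2
    have h4 : 1 ≤ S.card := Finset.card_pos.2 ⟨u, hu⟩
    have h5 : Tops.card = (U1.filter (fun y => ¬ y ∈ S)).card := rfl
    omega
  have hT1 : ∀ y ∈ Tops, y ∉ S ∧ p y ∈ S := by
    intro y hy
    obtain ⟨h1, h2⟩ := Finset.mem_filter.1 hy
    exact ⟨h2, (Finset.mem_filter.1 h1).2.2⟩
  let A : V → Finset V := fun y => Finset.univ.filter (fun v => (ins T (S : Set V)ᶜ).Reachable y v)
  have hA : ∀ y v, v ∈ A y ↔ (ins T (S : Set V)ᶜ).Reachable y v := by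
    intro y v
    show v ∈ Finset.univ.filter (fun v => (ins T (S : Set V)ᶜ).Reachable y v) ↔ _
    rw [Finset.mem_filter]
    exact ⟨fun h => h.2, fun h => ⟨Finset.mem_univ _, h⟩⟩
  have huniq : ∀ y ∈ Tops, ∀ y' ∈ Tops, ∀ v, v ∈ A y → v ∈ A y' → y = y' := by
    intro y hy y' hy' v hv hv'
    exact w8_uniq hedge (hT1 y hy).1 (hT1 y hy).2 (hT1 y' hy').1 (hT1 y' hy').2
      ((hA y v).1 hv) ((hA y' v).1 hv')
  have hself : ∀ y, y ∈ A y := fun y => (hA y y).2 (SimpleGraph.Reachable.refl y)
  refine ⟨Tops.image A, ?_, ?_, ?_⟩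
  · rw [Finset.card_image_of_injOn]
    · exact hTops
    · intro y hy y' hy' heq
      have h1 : y ∈ A y' := by
        have h2 : A y = A y' := heq
        rw [← h2]
        exact hself y
      exact huniq y hy y' hy' y (hself y) h1
  · intro B hB
    obtain ⟨y, hy, rfl⟩ := Finset.mem_image.1 hB
    refine ⟨⟨y, hself y⟩, ?_, ?_⟩
    · rw [Finset.disjoint_left]
      intro v hv hvS
      obtain ⟨n, _, h2⟩ := w8_down hedge (hT1 y hy).1 (hT1 y hy).2 ((hA y v).1 hv)
      exact h2 0 (Nat.zero_le n) hvS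
    · intro x hx z hxz
      exact (hA y z).2 (((hA y x).1 hx).trans hxz)
  · intro B hB B' hB' hne
    obtain ⟨y, hy, rfl⟩ := Finset.mem_image.1 hB
    obtain ⟨y', hy', rfl⟩ := Finset.mem_image.1 hB'
    rw [Finset.disjoint_left]
    intro v hv hv'
    exact hne (congrArg A (huniq y hy y' hy' v hv hv'))

end Pool.Agent.LibHP88
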