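import Mathlib
import Pool.Agent.LibHP88.Defs
import Pool.Agent.LibHP88.F1
import Pool.Agent.LibHP88.W5
import Pool.Agent.LibHP88.W6
import Pool.Agent.LibHP88.W7
import Pool.Agent.LibHP88.W8

/-! Row W9.
win: among the connected T0 ≤ G (G itself is one; finitely many graphs, or minimise te : ℕ with Nat.find / WellFounded.min) take one with te T0 minimal, and a spanning tree T ≤ T0 (SimpleGraph.Connected.exists_isTree_le). te T ≤ te T0 (te_mono), so T is minimal too. If some u has dg T u ≥ 4: N from St_stab, S := (St N).toFinset. count_comp (W8) with St_deg: C with |C| ≥ |S| + 3. For x ∈ A ∈ C and G.Adj x y: y ∈ S or (x ∉ S by Disjoint) claim (W7) gives reachability, so y ∈ A. Tough: |C| ≤ |S|: contradiction. So dg T v ≤ 3 for all v.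
exists_tree3: root T at ρ (tree_rooted F1): (ch ρ).ncard = dg T ρ ≤ 3, (ch x).ncard + 1 = dg T x ≤ 3; adj: T ≤ G.
-/

set_option autoImplicit false

namespace Pool.Agent.LibHP88

open scoped Classical

/-- W9: Win's theorem for 1-tough graphs -/
theorem win {V : Type*} [Fintype V] {G : SimpleGraph V} (hG : G.Connected) (hT : Tough G) :
    ∃ T : SimpleGraph V, T ≤ G ∧ T.IsTree ∧ ∀ v, dg T v ≤ 3 := by
  have hex : ∃ n, ∃ T0 : SimpleGraph V, T0 ≤ G ∧ T0.Connected ∧ te T0 = n := ⟨te G, G, le_refl _, hG, rfl⟩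
  obtain ⟨T0, h0G, h0c, h0⟩ := Nat.find_spec hex
  have hmin0 : ∀ T' : SimpleGraph V, T' ≤ G → T'.Connected → te T0 ≤ te T' := by
    intro T' h1 h2
    rw [h0]
    exact Nat.find_min' hex ⟨T', h1, h2, rfl⟩
  obtain ⟨T, hTT0, hTtree⟩ := h0c.exists_isTree_le
  have hTG : T ≤ G := hTT0.trans h0G
  have hmin : ∀ T' : SimpleGraph V, T' ≤ G → T'.Connected → te T ≤ te T' := fun T' h1 h2 =>
    (te_mono hTT0).trans (hmin0 T' h1 h2)
  refine ⟨T, hTG, hTtree, ?_⟩
  intro u
  by_contra hu
  have hu4 : 4 ≤ dg T u := by omega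
  obtain ⟨N, hN⟩ := St_stab G T u
  have huS : u ∈ (St G T u N).toFinset := by
    rw [Set.mem_toFinset]
    exact St_u G T u N
  obtain ⟨C, hC, hC1, hC2⟩ := count_comp hTtree huS hu4 (by
    intro z hz hzu
    rw [Set.mem_toFinset] at hz
    rcases St_deg hTG hTtree.connected hz with h | h
    · exact absurd h hzu
    · exact h)
  have hle := hT (St G T u N).toFinset C ⟨u, huS⟩ (by
    intro A hA
    obtain ⟨h1, h2, h3⟩ := hC1 A hA
    refine ⟨h1, h2, ?_⟩
    intro x hx y hxy
    by_cases hy : y ∈ (St G T u N).toFinset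
    · exact Or.inr hy
    · left
      have hxS : x ∉ (St G T u N).toFinset := fun h => (Finset.disjoint_left.1 h2 hx h)
      rw [Set.mem_toFinset] at hy hxS
      have hr := claim hTtree hTG hmin hu4 hN hxS hy hxy
      refine h3 x hx y ?_
      rw [Set.coe_toFinset]
      exact hr) hC2
  omega

/-- W9: the rooted form -/
theorem exists_tree3 {V : Type*} [Fintype V] {G : SimpleGraph V} (hG : G.Connected) (hT : Tough G) (ρ : V) :
    ∃ p dep, Tree3 G ρ p dep := by
  obtain ⟨T, hTG, hTt, hd⟩ := win hG hT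
  obtain ⟨p, dep, h1, _, h3, h4⟩ := tree_rooted hTt ρ
  refine ⟨p, dep, ⟨⟨fun v hv => hTG (h1.adj v hv), h1.lt⟩, ?_, ?_⟩⟩
  · rw [h4]
    exact hd ρ
  · intro x hx
    have := h3 x hx
    have := hd x
    omega

end Pool.Agent.LibHP88
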