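import Mathlib
import Pool.Agent.LibHP88.Defs
import Pool.Agent.LibHP88.A4
import Pool.Agent.LibHP88.F5
import Pool.Agent.LibHP88.G4
import Pool.Agent.LibHP88.W9

/-! Row J1.
If card V ≤ card U: two_factor (G4) for G, exists_tree3 (W9) for H (ρ any vertex, Connected gives Nonempty), ham_of_tree3 (F5). If card U ≤ card V: the same with the roles exchanged gives (G.boxProd H).IsHamiltonian on V × U; transport by ham_map (A4) along the isomorphism SimpleGraph.boxProdComm G H (a bijective homomorphism).
-/

set_option autoImplicit false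

namespace Pool.Agent.LibHP88

open scoped Classical

/-- J1: the product of two connected regular 1-tough graphs of degrees at least two is Hamiltonian -/
theorem main_graph {U V : Type*} [Fintype U] [Fintype V] [DecidableEq (U × V)] {H : SimpleGraph U} {G : SimpleGraph V}
    {d e : ℕ} (hd : 2 ≤ d) (he : 2 ≤ e) (hH : Reg H d) (hG : Reg G e) (cH : H.Connected) (cG : G.Connected)
    (tH : Tough H) (tG : Tough G) : (H.boxProd G).IsHamiltonian := by
  obtain ⟨u0⟩ := cH.nonempty
  obtain ⟨v0⟩ := cG.nonempty
  rcases le_total (Fintype.card V) (Fintype.card U) with hle | hle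
  · obtain ⟨σ, hσ, h2⟩ := two_factor he hG tG cG
    obtain ⟨p, dep, hT⟩ := exists_tree3 cH tH u0
    exact ham_of_tree3 hσ h2 cG hT hle
  · obtain ⟨σ, hσ, h2⟩ := two_factor hd hH tH cH
    obtain ⟨p, dep, hT⟩ := exists_tree3 cG tG v0
    have h := ham_of_tree3 hσ h2 cH hT hle
    exact ham_map (SimpleGraph.boxProdComm G H).toHom (SimpleGraph.boxProdComm G H).bijective h

end Pool.Agent.LibHP88
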