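import Mathlib
import Pool.Agent.LibHP88.Defs
import Pool.Agent.LibPol19.Defs

/-! Row P1.
Nonempty: interior nonempty, so convexHull nonempty, so S nonempty (convexHull_nonempty_iff). IsVert: for v ∈ S: v ∉ convexHull (S \ {v}): otherwise... v is an extreme point of convexHull S = convexHull (insert v (S \ {v})); if v ∈ convexHull (S.erase v) then v ∈ S.erase v by extremality: Mathlib: extremePoints_convexHull_subset : (convexHull ℝ A).extremePoints ℝ ⊆ A applied to A = S.erase v, as convexHull (S.erase v) = convexHull S in that case (convexHull_min, convexHull_mono). Then Hahn-Banach exactly as in Pool/Agent/LibPol19/T01.lean (geometric_hahn_banach_closed_point, Set.Finite.isClosed_convexHull). Full: vectorSpan ℝ S = ⊤: interior_convexHull_nonempty_iff_affineSpan_eq_top (affineSpan ℝ S = ⊤), and AffineSubspace.direction_top / vectorSpan = direction of the affine span (direction_affineSpan).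
-/

set_option autoImplicit false

namespace Pool.Agent.LibHP88

open scoped Classical

/-- P1: translation to the language of LibPol19 -/
theorem pol_vert {d : ℕ} {S : Finset (E d)} (h : IsPol S) :
    LibPol19.IsVert S ∧ LibPol19.Full S ∧ S.Nonempty := by
  obtain ⟨hint, hext⟩ := h
  refine ⟨?_, ?_, ?_⟩
  · intro v hv
    have hnot : v ∉ convexHull ℝ ((S.erase v : Finset (E d)) : Set (E d)) := by
      intro hmem
      have h1 : convexHull ℝ ((S.erase v : Finset (E d)) : Set (E d)) =
          convexHull ℝ (S : Set (E d)) := by
        apply Set.Subset.antisymm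
        · exact convexHull_mono (by exact_mod_cast Finset.erase_subset v S)
        · apply convexHull_min _ (convex_convexHull ℝ _)
          intro w hw
          by_cases hwv : w = v
          · rw [hwv]; exact hmem
          · exact subset_convexHull ℝ _ (by exact_mod_cast Finset.mem_erase.2 ⟨hwv, hw⟩)
      have h2 := hext v hv
      rw [← h1] at h2
      have h3 := extremePoints_convexHull_subset h2
      exact (Finset.mem_erase.1 (Finset.mem_coe.1 h3)).1 rfl
    have hcl : IsClosed (convexHull ℝ ((S.erase v : Finset (E d)) : Set (E d))) :=
      Set.Finite.isClosed_convexHull ℝ (S.erase v).finite_toSet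
    obtain ⟨f, u, h1, h2⟩ := geometric_hahn_banach_closed_point
      (convex_convexHull ℝ ((S.erase v : Finset (E d)) : Set (E d))) hcl hnot
    refine ⟨f.toLinearMap, fun w hw hwv => ?_⟩
    exact (h1 w (subset_convexHull ℝ _ (by exact_mod_cast Finset.mem_erase.2 ⟨hwv, hw⟩))).trans h2
  · have h1 := interior_convexHull_nonempty_iff_affineSpan_eq_top.1 hint
    unfold LibPol19.Full
    rw [← direction_affineSpan, h1, AffineSubspace.direction_top]
  · have h1 : (convexHull ℝ (S : Set (E d))).Nonempty := hint.mono interior_subset
    rw [convexHull_nonempty_iff] at h1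
    exact_mod_cast h1

end Pool.Agent.LibHP88
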