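import Mathlib
import Pool.Agent.LibHP88.Defs
import Pool.Agent.LibHP88.P1
import Pool.Agent.LibPol19.T02
import Pool.Agent.LibPol19.G03

/-! Row P2.
face_exposed: face_hull (T02) with P = convexHull S gives IsExposed of convexHull {x, y} = segment (convexHull_pair).
adj_iff: (gr S).Adj x y ⟺ x ≠ y ∧ (IsExposed (segment x y) ∨ IsExposed (segment y x)) (SimpleGraph.fromRel_adj; segment_symm). ← face_exposed. → the segment is exposed and nonempty: IsF; hull_face (T02) gives A with IsFace S A and segment x y = convexHull A. Then A = {x, y}: A ⊆ S ∩ segment; x ∈ segment = convexHull A: x is an exposed point of S (IsVert: ℓ w < ℓ x for w ∈ S, w ≠ x), if x ∉ A then ℓ < ℓ x on A, hence on convexHull A (convexHull_min into the half space {ℓ < ℓ x}): contradiction; so x ∈ A, y ∈ A. If z ∈ A, z ≠ x, y: z ∈ segment x y; ℓ_z at x and y is smaller than ℓ_z z, but z is a convex combination of x and y: contradiction.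
-/

set_option autoImplicit false

namespace Pool.Agent.LibHP88

open scoped Classical

theorem face_exposed {d : ℕ} {S : Finset (E d)} {x y : E d} (h : LibPol19.IsFace S {x, y}) :
    IsExposed ℝ (convexHull ℝ (S : Set (E d))) (segment ℝ x y) := by
  have h1 := (LibPol19.face_hull (P := convexHull ℝ (S : Set (E d))) rfl h).1
  rw [Finset.coe_pair, convexHull_pair] at h1
  exact h1

theorem P2_mem {d : ℕ} {S A : Finset (E d)} (hS : LibPol19.IsVert S) (hA : A ⊆ S) {v : E d} (hv : v ∈ S)
    (h : v ∈ convexHull ℝ (A : Set (E d))) : v ∈ A := by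
  obtain ⟨l, hl⟩ := hS v hv
  by_contra hcon
  have h1 : v ∈ {z : E d | l z < l v} := by
    refine convexHull_min (t := {z : E d | l z < l v}) ?_ (convex_halfSpace_lt l.isLinear (l v)) h
    intro w hw
    refine hl w (hA (Finset.mem_coe.1 hw)) ?_
    rintro rfl
    exact hcon (Finset.mem_coe.1 hw)
  exact lt_irrefl (l v) h1

theorem P2_face {d : ℕ} {S : Finset (E d)} (hS : LibPol19.IsVert S) {x y : E d} (hx : x ∈ S) (hy : y ∈ S)
    (h : IsExposed ℝ (convexHull ℝ (S : Set (E d))) (segment ℝ x y)) : LibPol19.IsFace S {x, y} := by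
  have h1 : LibPol19.IsF (convexHull ℝ (S : Set (E d))) (segment ℝ x y) :=
    ⟨h, ⟨x, left_mem_segment ℝ x y⟩⟩
  obtain ⟨A, hA, hAe⟩ := LibPol19.hull_face (V := S) rfl h1
  have hAS : A ⊆ S := hA.2.1
  have hxA : x ∈ A := P2_mem hS hAS hx (by rw [← hAe]; exact left_mem_segment ℝ x y)
  have hyA : y ∈ A := P2_mem hS hAS hy (by rw [← hAe]; exact right_mem_segment ℝ x y)
  have hAe2 : A = {x, y} := by
    apply Finset.Subset.antisymm
    · intro z hz
      have h2 : ({x, y} : Finset (E d)) ⊆ S := by
        intro w hw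
        rcases Finset.mem_insert.1 hw with h3 | h3
        · rw [h3]
          exact hx
        · rw [Finset.mem_singleton.1 h3]
          exact hy
      refine P2_mem hS h2 (hAS hz) ?_
      rw [Finset.coe_pair, convexHull_pair, hAe]
      exact subset_convexHull ℝ _ (Finset.mem_coe.2 hz)
    · intro z hz
      rcases Finset.mem_insert.1 hz with h3 | h3
      · rw [h3]
        exact hxA
      · rw [Finset.mem_singleton.1 h3]
        exact hyA
  rw [← hAe2]
  exact hA

/-- P2: the graph of the polytope -/
theorem adj_iff {d : ℕ} {S : Finset (E d)} (h : IsPol S) (x y : S) :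
    (gr S).Adj x y ↔ LibPol19.Adj S (x : E d) (y : E d) := by
  have hS := (pol_vert h).1
  unfold gr
  rw [SimpleGraph.fromRel_adj]
  constructor
  · rintro ⟨hne, h1⟩
    refine ⟨fun he => hne (Subtype.ext he), ?_⟩
    rcases h1 with h1 | h1
    · exact P2_face hS x.2 y.2 h1
    · rw [segment_symm] at h1
      exact P2_face hS x.2 y.2 h1
  · rintro ⟨hne, h1⟩
    refine ⟨fun he => hne (congrArg Subtype.val he), Or.inl ?_⟩
    exact face_exposed h1

end Pool.Agent.LibHP88
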