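import Mathlib
import Pool.Agent.LibHP88.Defs
import Pool.Agent.LibHP88.P1
import Pool.Agent.LibHP88.P2
import Pool.Agent.LibPol19.G07
import Pool.Agent.LibPol19.G20

/-! Row P3.
dm S = d for a full-dimensional vertex set (Full: vectorSpan = ⊤, finrank_top, finrank_euclideanSpace_fin). LibPol19.face_self: IsFace S S.
gr_conn: LibPol19.balinski (G20) with F = V = S and the set T.map (or image) of T : Finset S in E d, whose card is T.card < d = dm S: a chain from x to y in S avoiding T; by adj_iff every step u w (u, w ∈ S, w ∉ T; and u ∉ T because the chain starts outside T) is an edge of ins (gr S) Tᶜ. (Induct on Relation.ReflTransGen: show for every w in the chain: w ∈ S, w ∉ T, reachable from x.)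
gr_deg: LibPol19.dm_le_card (G07): d = dm S ≤ (nb S v ∩ S).card, and nb S v = {u ∈ S | Adj S v u} corresponds to the neighbour set of v in gr S (adj_iff): ncard of the image under Subtype.val (Set.ncard_image_of_injective).
-/

set_option autoImplicit false

namespace Pool.Agent.LibHP88

open scoped Classical

private theorem p3_dm {d : ℕ} {S : Finset (E d)} (h : IsPol S) : LibPol19.dm S = d := by
  have h1 : vectorSpan ℝ (S : Set (E d)) = ⊤ := (pol_vert h).2.1
  unfold LibPol19.dm
  rw [h1, finrank_top]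
  exact finrank_euclideanSpace_fin

private theorem p3_face {d : ℕ} {S : Finset (E d)} (h : IsPol S) : LibPol19.IsFace S S :=
  ⟨(pol_vert h).2.2, Finset.Subset.refl _, 0, 0, fun _ hv => ⟨le_refl _, fun _ => hv, fun _ => rfl⟩⟩

/-- P3: Balinski's theorem for the graph -/
theorem gr_conn {d : ℕ} {S : Finset (E d)} (h : IsPol S) (T : Finset S) (hT : T.card < d) (x y : S) (hx : x ∉ T)
    (hy : y ∉ T) : (ins (gr S) (T : Set S)ᶜ).Reachable x y := by
  have hcard : (T.map (Function.Embedding.subtype (fun z => z ∈ S))).card < LibPol19.dm S := by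
    rw [Finset.card_map, p3_dm h]
    exact hT
  have hmem : ∀ z : S, (z : E d) ∈ T.map (Function.Embedding.subtype (fun z => z ∈ S)) ↔ z ∈ T := by
    intro z
    rw [Finset.mem_map]
    constructor
    · rintro ⟨w, hw, hwz⟩
      have : w = z := Subtype.ext hwz
      rw [← this]
      exact hw
    · intro hz
      exact ⟨z, hz, rfl⟩
  have hchain := LibPol19.balinski (pol_vert h).1 (p3_face h) hcard x.2
    (fun hc => hx ((hmem x).1 hc)) y.2 (fun hc => hy ((hmem y).1 hc))
  have key : ∀ w : E d, Relation.ReflTransGen (fun u w => LibPol19.Adj S u w ∧ w ∈ S ∧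
      w ∉ T.map (Function.Embedding.subtype (fun z => z ∈ S))) (x : E d) w →
      ∃ w' : S, (w' : E d) = w ∧ w' ∉ T ∧ (ins (gr S) (T : Set S)ᶜ).Reachable x w' := by
    intro w hw
    induction hw with
    | refl => exact ⟨x, rfl, hx, SimpleGraph.Reachable.refl _⟩
    | tail _ hstep ih =>
      obtain ⟨u', hu', huT, hreach⟩ := ih
      obtain ⟨hadj, hwS, hwT⟩ := hstep
      refine ⟨⟨_, hwS⟩, rfl, fun hc => hwT ((hmem ⟨_, hwS⟩).2 hc), hreach.trans ?_⟩
      apply SimpleGraph.Adj.reachable
      refine ⟨?_, ?_, ?_⟩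
      · rw [adj_iff h, hu']
        exact hadj
      · exact fun hc => huT hc
      · exact fun hc => hwT ((hmem ⟨_, hwS⟩).2 hc)
  obtain ⟨w', hw', _, hreach⟩ := key _ hchain
  have : w' = y := Subtype.ext hw'
  rw [← this]
  exact hreach

theorem gr_deg {d : ℕ} {S : Finset (E d)} (h : IsPol S) (v : S) : d ≤ dg (gr S) v := by
  have h1 := LibPol19.dm_le_card (pol_vert h).1 (p3_face h) v.2
  rw [p3_dm h] at h1
  refine h1.trans ?_
  unfold dg
  have h2 : ((LibPol19.nb S (v : E d) ∩ S : Finset (E d)) : Set (E d)) =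
      Subtype.val '' ((gr S).neighborSet v) := by
    ext u
    constructor
    · intro hu
      have hu' := Finset.mem_inter.1 (Finset.mem_coe.1 hu)
      have hadj : LibPol19.Adj S (v : E d) u := (Finset.mem_filter.1 hu'.1).2
      refine ⟨⟨u, hu'.2⟩, ?_, rfl⟩
      exact (adj_iff h v ⟨u, hu'.2⟩).2 hadj
    · rintro ⟨w, hw, rfl⟩
      have hadj : LibPol19.Adj S (v : E d) (w : E d) := (adj_iff h v w).1 hw
      exact Finset.mem_coe.2 (Finset.mem_inter.2 ⟨Finset.mem_filter.2 ⟨w.2, hadj⟩, w.2⟩)
  rw [← Set.ncard_coe_finset, h2, Set.ncard_image_of_injective _ Subtype.val_injective]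

end Pool.Agent.LibHP88
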