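import Mathlib
import Pool.Agent.LibHP88.Defs
import Pool.Agent.LibHP88.P1
import Pool.Agent.LibHP88.P2

/-! Row P4.
The map f : S1 × S2 → S, (a, b) ↦ L (a, b) is a bijection (hS, L injective). Homomorphism: let (a, b), (a', b) be adjacent in the product, i.e. (gr S1).Adj a a' (the other case is symmetric). By adj_iff IsFace S1 {a, a'}: ℓ1, c1 with ℓ1 v ≤ c1 on S1, = c1 iff v ∈ {a, a'}. IsVert S2 at b (P1): ℓ2 w < ℓ2 b for w ∈ S2, w ≠ b. ℓ := (ℓ1 ∘ fst + ℓ2 ∘ snd) ∘ L.symm, c := c1 + ℓ2 b: for v = L (a'', b'') ∈ S: ℓ v = ℓ1 a'' + ℓ2 b'' ≤ c with equality iff a'' ∈ {a, a'} and b'' = b. So IsFace S {L (a, b), L (a', b)} and face_exposed gives the adjacency in gr S (fromRel; different points because L is injective).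
-/

set_option autoImplicit false

namespace Pool.Agent.LibHP88

open scoped Classical

private theorem P4_prod {d1 d2 d : ℕ} {S1 : Finset (E d1)} {S2 : Finset (E d2)} {S : Finset (E d)}
    (L : (E d1 × E d2) ≃ₗ[ℝ] E d) (hS : (S : Set (E d)) = L '' ((S1 : Set (E d1)) ×ˢ (S2 : Set (E d2))))
    {A1 : Finset (E d1)} {A2 : Finset (E d2)} (h1 : LibPol19.IsFace S1 A1)
    (h2 : LibPol19.IsFace S2 A2) : LibPol19.IsFace S ((A1 ×ˢ A2).image L) := by
  obtain ⟨hne1, hsub1, l1, c1, hl1⟩ := h1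
  obtain ⟨hne2, hsub2, l2, c2, hl2⟩ := h2
  have hmem : ∀ v, v ∈ S ↔ ∃ x ∈ S1, ∃ y ∈ S2, L (x, y) = v := by
    intro v
    rw [← Finset.mem_coe, hS]
    constructor
    · rintro ⟨⟨x, y⟩, ⟨hx, hy⟩, rfl⟩
      exact ⟨x, hx, y, hy, rfl⟩
    · rintro ⟨x, hx, y, hy, rfl⟩
      exact ⟨(x, y), ⟨hx, hy⟩, rfl⟩
  refine ⟨(hne1.product hne2).image _, ?_, ?_⟩
  · intro v hv
    rw [Finset.mem_image] at hv
    obtain ⟨⟨x, y⟩, hxy, rfl⟩ := hv
    rw [Finset.mem_product] at hxy
    exact (hmem _).2 ⟨x, hsub1 hxy.1, y, hsub2 hxy.2, rfl⟩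
  · refine ⟨(l1.comp (LinearMap.fst ℝ (E d1) (E d2)) + l2.comp (LinearMap.snd ℝ (E d1) (E d2))).comp
      L.symm.toLinearMap, c1 + c2, ?_⟩
    intro v hv
    obtain ⟨x, hx, y, hy, rfl⟩ := (hmem v).1 hv
    have e1 : ((l1.comp (LinearMap.fst ℝ (E d1) (E d2)) +
        l2.comp (LinearMap.snd ℝ (E d1) (E d2))).comp L.symm.toLinearMap) (L (x, y)) =
        l1 x + l2 y := by
      simp
    rw [e1]
    obtain ⟨g1, g2⟩ := hl1 x hx
    obtain ⟨g3, g4⟩ := hl2 y hy
    refine ⟨add_le_add g1 g3, ?_⟩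
    have e2 : L (x, y) ∈ (A1 ×ˢ A2).image L ↔ x ∈ A1 ∧ y ∈ A2 := by
      rw [Finset.mem_image]
      constructor
      · rintro ⟨p, hp, hpe⟩
        have h5 := L.injective hpe
        subst h5
        exact Finset.mem_product.1 hp
      · rintro ⟨h5, h6⟩
        exact ⟨(x, y), Finset.mem_product.2 ⟨h5, h6⟩, rfl⟩
    rw [e2, ← g2, ← g4]
    constructor
    · intro h5
      constructor <;> linarith
    · rintro ⟨h5, h6⟩
      rw [h5, h6]

private theorem P4_vert {d : ℕ} {S : Finset (E d)} (h : IsPol S) (b : E d) (hb : b ∈ S) :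
    LibPol19.IsFace S {b} := by
  obtain ⟨l, hl⟩ := (pol_vert h).1 b hb
  refine ⟨Finset.singleton_nonempty _, Finset.singleton_subset_iff.2 hb, l, l b, ?_⟩
  intro v hv
  rw [Finset.mem_singleton]
  by_cases hvb : v = b
  · subst hvb
    simp
  · have h1 := hl v hv hvb
    exact ⟨h1.le, ⟨fun h2 => absurd h2 h1.ne, fun h2 => absurd h2 hvb⟩⟩

/-- P4: the graph of a product contains the product of the graphs -/
theorem prod_hom {d1 d2 d : ℕ} {S1 : Finset (E d1)} {S2 : Finset (E d2)} {S : Finset (E d)} (h1 : IsPol S1) (h2 : IsPol S2)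
    (L : (E d1 × E d2) ≃ₗ[ℝ] E d) (hS : (S : Set (E d)) = L '' ((S1 : Set (E d1)) ×ˢ (S2 : Set (E d2)))) :
    ∃ f : (gr S1).boxProd (gr S2) →g gr S, Function.Bijective f := by
  have hmem : ∀ x ∈ S1, ∀ y ∈ S2, L (x, y) ∈ S := by
    intro x hx y hy
    rw [← Finset.mem_coe, hS]
    exact ⟨(x, y), ⟨hx, hy⟩, rfl⟩
  have hadj : ∀ p q : S1 × S2, ((gr S1).boxProd (gr S2)).Adj p q →
      (gr S).Adj (⟨L ((p.1 : E d1), (p.2 : E d2)), hmem _ p.1.2 _ p.2.2⟩ : S)
        (⟨L ((q.1 : E d1), (q.2 : E d2)), hmem _ q.1.2 _ q.2.2⟩ : S) := by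
    intro p q hpq
    rw [SimpleGraph.boxProd_adj] at hpq
    unfold gr
    rw [SimpleGraph.fromRel_adj]
    rcases hpq with ⟨ha, hb⟩ | ⟨hb, ha⟩
    · obtain ⟨hne, hf⟩ := (adj_iff h1 p.1 q.1).1 ha
      have hF := P4_prod L hS hf (P4_vert h2 p.2 p.2.2)
      have e1 : (({(p.1 : E d1), (q.1 : E d1)} : Finset (E d1)) ×ˢ ({(p.2 : E d2)} : Finset (E d2))).image L
          = {L ((p.1 : E d1), (p.2 : E d2)), L ((q.1 : E d1), (p.2 : E d2))} := by
        ext v
        simp only [Finset.mem_image, Finset.mem_product, Finset.mem_insert, Finset.mem_singleton]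
        constructor
        · rintro ⟨⟨x, y⟩, ⟨h5 | h5, h6⟩, rfl⟩
          · left
            simp only at h5 h6
            rw [h5, h6]
          · right
            simp only at h5 h6
            rw [h5, h6]
        · rintro (h5 | h5)
          · exact ⟨_, ⟨Or.inl rfl, rfl⟩, h5.symm⟩
          · exact ⟨_, ⟨Or.inr rfl, rfl⟩, h5.symm⟩
      rw [e1] at hF
      have hex := face_exposed hF
      refine ⟨?_, Or.inl ?_⟩
      · intro h7
        have h8 := L.injective (congrArg Subtype.val h7)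
        exact hne (congrArg Prod.fst h8)
      · simp only
        rw [← hb]
        exact hex
    · obtain ⟨hne, hf⟩ := (adj_iff h2 p.2 q.2).1 hb
      have hF := P4_prod L hS (P4_vert h1 p.1 p.1.2) hf
      have e1 : (({(p.1 : E d1)} : Finset (E d1)) ×ˢ ({(p.2 : E d2), (q.2 : E d2)} : Finset (E d2))).image L
          = {L ((p.1 : E d1), (p.2 : E d2)), L ((p.1 : E d1), (q.2 : E d2))} := by
        ext v
        simp only [Finset.mem_image, Finset.mem_product, Finset.mem_insert, Finset.mem_singleton]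
        constructor
        · rintro ⟨⟨x, y⟩, ⟨h5, h6 | h6⟩, rfl⟩
          · left
            simp only at h5 h6
            rw [h5, h6]
          · right
            simp only at h5 h6
            rw [h5, h6]
        · rintro (h5 | h5)
          · exact ⟨_, ⟨rfl, Or.inl rfl⟩, h5.symm⟩
          · exact ⟨_, ⟨rfl, Or.inr rfl⟩, h5.symm⟩
      rw [e1] at hF
      have hex := face_exposed hF
      refine ⟨?_, Or.inl ?_⟩
      · intro h7
        have h8 := L.injective (congrArg Subtype.val h7)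
        exact hne (congrArg Prod.snd h8)
      · simp only
        rw [← ha]
        exact hex
  refine ⟨⟨fun p => ⟨L ((p.1 : E d1), (p.2 : E d2)), hmem _ p.1.2 _ p.2.2⟩, fun {p q} h => hadj p q h⟩,
    ?_, ?_⟩
  · intro p q hpq
    have h8 := L.injective (congrArg Subtype.val hpq)
    have h9 := congrArg Prod.fst h8
    have h10 := congrArg Prod.snd h8
    exact Prod.ext (Subtype.ext h9) (Subtype.ext h10)
  · rintro ⟨v, hv⟩
    have hv' := hv
    rw [← Finset.mem_coe, hS] at hv'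
    obtain ⟨⟨x, y⟩, ⟨hx, hy⟩, hxy⟩ := hv'
    exact ⟨(⟨x, hx⟩, ⟨y, hy⟩), Subtype.ext hxy⟩

end Pool.Agent.LibHP88
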