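import Mathlib
import Pool.Agent.LibHP88.Defs

/-! Row T1.
Let S be nonempty, C as in the definition of Tough. If C.card ≤ 1 then C.card ≤ 1 ≤ S.card. Otherwise every A ∈ C has another member B ∈ C, disjoint from A. Let N_A := S.filter (∃ x ∈ A, G.Adj x s). Claim d ≤ |N_A|: otherwise take x ∈ A, y ∈ B; x, y ∉ N_A (N_A ⊆ S is disjoint from A, B); by hconn x and y are reachable in ins G N_Aᶜ; but A is closed under the edges of ins G N_Aᶜ (x' ∈ A, G.Adj x' y', y' ∉ N_A: y' ∈ A or y' ∈ S, and in the second case y' ∈ N_A), so y ∈ A: contradiction with Disjoint.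
Double counting: d |C| ≤ Σ_{A ∈ C} |N_A| = Σ_{s ∈ S} |{A ∈ C | s ∈ N_A}| ≤ Σ_{s ∈ S} d = d |S|, because the sets A ∈ C with a neighbour of s are at most dg G s = d many (choose a neighbour in each; the A are disjoint, so the choice is injective). d ≥ 1: |C| ≤ |S|. (Finset.sum_comm' / Finset.sum_card_bipartiteAbove_eq_sum_card_bipartiteBelow.)
-/

set_option autoImplicit false

namespace Pool.Agent.LibHP88

open scoped Classical

theorem T1_closed {V : Type*} {G : SimpleGraph V} {K A : Set V}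
    (h : ∀ u v, u ∈ A → G.Adj u v → v ∈ K → v ∈ A) {x y : V} (hr : (ins G K).Reachable x y) (hx : x ∈ A) :
    y ∈ A := by
  obtain ⟨w⟩ := hr
  induction w with
  | nil => exact hx
  | cons hadj w ih =>
    apply ih
    exact h _ _ hx hadj.1 hadj.2.2

theorem T1_count {V : Type*} [Fintype V] {G : SimpleGraph V} {d : ℕ} (hreg : Reg G d) (C : Finset (Finset V))
    (hdis : ∀ A ∈ C, ∀ B ∈ C, A ≠ B → Disjoint A B) (s : V) :
    (C.filter (fun A => ∃ x ∈ A, G.Adj x s)).card ≤ d := by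
  have h1 : d = (G.neighborSet s).toFinset.card := by
    rw [← hreg s]
    unfold dg
    rw [Set.ncard_eq_toFinset_card']
  rw [h1]
  let f : Finset V → V := fun A => if h : ∃ x, x ∈ A ∧ G.Adj x s then h.choose else s
  have hf : ∀ A, (∃ x, x ∈ A ∧ G.Adj x s) → f A ∈ A ∧ G.Adj (f A) s := by
    intro A hA
    have h2 : f A = hA.choose := by
      simp only [f, hA, dif_pos]
    rw [h2]
    exact hA.choose_spec
  refine Finset.card_le_card_of_injOn f ?_ ?_
  · intro A hA
    obtain ⟨hA1, x, hx1, hx2⟩ := Finset.mem_filter.1 hA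
    have h2 := (hf A ⟨x, hx1, hx2⟩).2
    rw [Finset.mem_coe, Set.mem_toFinset]
    exact h2.symm
  · intro A hA B hB hAB
    obtain ⟨hA1, x, hx1, hx2⟩ := Finset.mem_filter.1 (Finset.mem_coe.1 hA)
    obtain ⟨hB1, y, hy1, hy2⟩ := Finset.mem_filter.1 (Finset.mem_coe.1 hB)
    by_contra hne
    have h2 := (hf A ⟨x, hx1, hx2⟩).1
    have h3 := (hf B ⟨y, hy1, hy2⟩).1
    rw [← hAB] at h3
    exact Finset.disjoint_left.1 (hdis A hA1 B hB1 hne) h2 h3

/-- T1: regular graphs of maximal connectivity are 1-tough -/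
theorem tough_of_conn {V : Type*} [Fintype V] {G : SimpleGraph V} {d : ℕ} (hd : 1 ≤ d) (hreg : Reg G d)
    (hconn : ∀ S : Finset V, S.card < d → ∀ x y, x ∉ S → y ∉ S → (ins G (S : Set V)ᶜ).Reachable x y) : Tough G := by
  intro S C hS hC hdis
  by_cases hC1 : C.card ≤ 1
  · exact hC1.trans (Finset.card_pos.2 hS)
  push Not at hC1
  have key : ∀ A ∈ C, d ≤ (S.filter (fun s => ∃ x ∈ A, G.Adj x s)).card := by
    intro A hA
    by_contra hcon
    push Not at hcon
    obtain ⟨B, hB, hBA⟩ := Finset.exists_mem_ne hC1 A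
    obtain ⟨⟨x, hx⟩, hAS, hAcl⟩ := hC A hA
    obtain ⟨⟨y, hy⟩, hBS, -⟩ := hC B hB
    have h1 : x ∉ S.filter (fun s => ∃ x ∈ A, G.Adj x s) := fun h =>
      Finset.disjoint_left.1 hAS hx (Finset.mem_filter.1 h).1
    have h2 : y ∉ S.filter (fun s => ∃ x ∈ A, G.Adj x s) := fun h =>
      Finset.disjoint_left.1 hBS hy (Finset.mem_filter.1 h).1
    have h3 := hconn _ hcon x y h1 h2
    have h4 : y ∈ (A : Set V) := by
      refine T1_closed (A := (A : Set V)) ?_ h3 (Finset.mem_coe.2 hx)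
      intro u v hu huv hv
      rcases hAcl u (Finset.mem_coe.1 hu) v huv with h5 | h5
      · exact Finset.mem_coe.2 h5
      · exfalso
        apply hv
        exact Finset.mem_coe.2 (Finset.mem_filter.2 ⟨h5, u, Finset.mem_coe.1 hu, huv⟩)
    exact Finset.disjoint_left.1 (hdis A hA B hB hBA.symm) (Finset.mem_coe.1 h4) hy
  have h1 : ∑ A ∈ C, (S.filter (fun s => ∃ x ∈ A, G.Adj x s)).card =
      ∑ s ∈ S, (C.filter (fun A => ∃ x ∈ A, G.Adj x s)).card :=
    Finset.sum_card_bipartiteAbove_eq_sum_card_bipartiteBelow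
      (s := C) (t := S) (fun (A : Finset V) (s : V) => ∃ x ∈ A, G.Adj x s)
  have h2 : C.card * d ≤ ∑ A ∈ C, (S.filter (fun s => ∃ x ∈ A, G.Adj x s)).card := by
    rw [← smul_eq_mul, ← Finset.sum_const]
    exact Finset.sum_le_sum key
  have h3 : ∑ s ∈ S, (C.filter (fun A => ∃ x ∈ A, G.Adj x s)).card ≤ S.card * d := by
    rw [← smul_eq_mul, ← Finset.sum_const]
    exact Finset.sum_le_sum fun s _ => T1_count hreg C hdis s
  rw [h1] at h2
  exact Nat.le_of_mul_le_mul_right (h2.trans h3) (by omega)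

end Pool.Agent.LibHP88
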