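import Mathlib
import Pool.Agent.LibHP88.Defs
import Pool.Agent.LibHP88.A4
import Pool.Agent.LibHP88.J1
import Pool.Agent.LibHP88.P1
import Pool.Agent.LibHP88.P3
import Pool.Agent.LibHP88.P4
import Pool.Agent.LibHP88.T1

/-! Row P5.
From IsProd: a bijective homomorphism f : gr S1 □ gr S2 →g gr S (P4, or the inverse of the isomorphism). dg (gr S) (f z) ≥ dg (box) z = dg (gr S1) z.1 + dg (gr S2) z.2 (the neighbours of z in the box product: the disjoint union of two copies; f is injective and maps neighbours to neighbours) ≥ d1 + d2 (gr_deg). Simple: dg (gr S) = d1 + d2. So dg (gr S1) z.1 = d1 and dg (gr S2) z.2 = d2 for all z; S1, S2 nonempty: Reg (gr S1) d1, Reg (gr S2) d2. Connected: gr_conn with T = ∅ (0 < d1) and nonempty (ins G univ = G). Tough: tough_of_conn (T1) with gr_conn. main_graph (J1): the box product is Hamiltonian; ham_map (A4) along f.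
-/

set_option autoImplicit false

namespace Pool.Agent.LibHP88

open scoped Classical

theorem P5_deg {U V X : Type*} [Finite U] [Finite V] [Finite X] {H : SimpleGraph U}
    {G : SimpleGraph V} {K : SimpleGraph X} (f : H.boxProd G →g K) (hf : Function.Injective f)
    (z : U × V) : dg H z.1 + dg G z.2 ≤ dg K (f z) := by
  have h1 : (f '' ((fun u => (u, z.2)) '' H.neighborSet z.1 ∪
      (fun v => (z.1, v)) '' G.neighborSet z.2)) ⊆ K.neighborSet (f z) := by
    rintro _ ⟨y, hy, rfl⟩
    rw [SimpleGraph.mem_neighborSet]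
    apply f.map_adj
    rcases hy with ⟨u, hu, rfl⟩ | ⟨v, hv, rfl⟩
    · rw [SimpleGraph.boxProd_adj]
      exact Or.inl ⟨hu, rfl⟩
    · rw [SimpleGraph.boxProd_adj]
      exact Or.inr ⟨hv, rfl⟩
  have h2 := Set.ncard_le_ncard h1 (Set.toFinite _)
  have h3 : Disjoint ((fun u => (u, z.2)) '' H.neighborSet z.1)
      ((fun v => (z.1, v)) '' G.neighborSet z.2) := by
    rw [Set.disjoint_left]
    rintro _ ⟨u, hu, rfl⟩ ⟨v, hv, hh⟩
    have h4 : v = z.2 := (Prod.ext_iff.1 hh).2
    rw [h4] at hv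
    exact G.loopless.irrefl _ hv
  have e1 : Function.Injective (fun u : U => (u, z.2)) := fun a b h => (Prod.ext_iff.1 h).1
  have e2 : Function.Injective (fun v : V => (z.1, v)) := fun a b h => (Prod.ext_iff.1 h).2
  rw [Set.ncard_image_of_injective _ hf, Set.ncard_union_eq h3 (Set.toFinite _) (Set.toFinite _),
    Set.ncard_image_of_injective _ e1, Set.ncard_image_of_injective _ e2] at h2
  exact h2

theorem P5_conn {d : ℕ} (hd : 0 < d) {S : Finset (E d)} (h : IsPol S) : (gr S).Connected := by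
  have hne : S.Nonempty := (pol_vert h).2.2
  have : Nonempty S := ⟨⟨hne.choose, hne.choose_spec⟩⟩
  refine SimpleGraph.Connected.mk fun x y => ?_
  have h1 := gr_conn h (∅ : Finset S) (by simpa using hd) x y (Finset.notMem_empty _)
    (Finset.notMem_empty _)
  have h2 : ins (gr S) ((∅ : Finset S) : Set S)ᶜ ≤ gr S := fun a b hab => hab.1
  exact h1.mono h2

/-- P5: Barnette's statement for products -/
theorem barnette_prod {d1 d2 : ℕ} (hd1 : 2 ≤ d1) (hd2 : 2 ≤ d2) {S1 : Finset (E d1)} {S2 : Finset (E d2)}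
    {S : Finset (E (d1 + d2))} (h1 : IsPol S1) (h2 : IsPol S2) (h : IsPol S)
    (hs : ∀ v : S, ((gr S).neighborSet v).ncard = d1 + d2) (hp : IsProd S1 S2 S) : (gr S).IsHamiltonian := by
  have hf : ∃ f : (gr S1).boxProd (gr S2) →g gr S, Function.Bijective f := by
    rcases hp with ⟨L, hL⟩ | ⟨⟨e⟩⟩
    · exact prod_hom h1 h2 L hL
    · exact ⟨e.symm.toHom, e.symm.bijective⟩
  obtain ⟨f, hf⟩ := hf
  have hdeg : ∀ z : S1 × S2, dg (gr S1) z.1 + dg (gr S2) z.2 ≤ d1 + d2 := by
    intro z
    have h3 := P5_deg f hf.1 z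
    have h4 : dg (gr S) (f z) = d1 + d2 := hs (f z)
    rw [h4] at h3
    exact h3
  obtain ⟨a, ha⟩ := (pol_vert h1).2.2
  obtain ⟨b, hb⟩ := (pol_vert h2).2.2
  have r1 : Reg (gr S1) d1 := by
    intro x
    have h3 := hdeg (x, ⟨b, hb⟩)
    have h4 := gr_deg h1 x
    have h5 := gr_deg h2 ⟨b, hb⟩
    simp only at h3
    omega
  have r2 : Reg (gr S2) d2 := by
    intro x
    have h3 := hdeg (⟨a, ha⟩, x)
    have h4 := gr_deg h1 ⟨a, ha⟩
    have h5 := gr_deg h2 x
    simp only at h3
    omega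
  have t1 : Tough (gr S1) := tough_of_conn (by omega) r1 fun T hT x y hx hy =>
    gr_conn h1 T hT x y hx hy
  have t2 : Tough (gr S2) := tough_of_conn (by omega) r2 fun T hT x y hx hy =>
    gr_conn h2 T hT x y hx hy
  have hh := main_graph hd1 hd2 r1 r2 (P5_conn (by omega) h1) (P5_conn (by omega) h2) t1 t2
  exact ham_map f hf hh

end Pool.Agent.LibHP88
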